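import Pool.Agent.Gen.F5.X123C2Dm6.S000
import Pool.Agent.Gen.F5.X123C2Dm6.S001
import Pool.Agent.Gen.F5.X123C2Dm6.S002

set_option autoImplicit false
set_option maxRecDepth 100000

namespace Pool.Agent.Gen.F5.X123C2Dm6

open Pool.Agent.Helper72.F5

def n0 : Cl (O (nat_lit 6)) (R (nat_lit 139473))
    (p (nat_lit 0x200014) (nat_lit 0) (p (nat_lit 0xb0004) (nat_lit 0) (p (nat_lit 0x20000c) (nat_lit 1) (p (nat_lit 0xc9) (nat_lit 1) (p (nat_lit 0x81) (nat_lit 0) (p (nat_lit 0x101) (nat_lit 1) (p (nat_lit 0x119) (nat_lit 0) (p (nat_lit 0xd1) (nat_lit 0) (p (nat_lit 0x89) (nat_lit 0) (p (nat_lit 0x41) (nat_lit 0) (p (nat_lit 0x10b0a098a889a) (nat_lit 0) (p (nat_lit 0x8a89890a081a) (nat_lit 0) (p (nat_lit 0x10a090888079a) (nat_lit 0) (p (nat_lit 0x89888807871a) (nat_lit 0) (p (nat_lit 0x8000080000000090788868a) (nat_lit 0) (p (nat_lit 0x8000080000000088706860a) (nat_lit 0) (p (nat_lit 0x10706878582)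 (nat_lit 0) (p (nat_lit 0x8686070502) (nat_lit 0) (p (nat_lit 0x10605850482) (nat_lit 0) (p (nat_lit 0x8585048402) (nat_lit 0) (p (nat_lit 0x160004) (nat_lit 0) (p (nat_lit 0x60592) (nat_lit 0) (p (nat_lit 0x48512) (nat_lit 0) (p (nat_lit 0x50392) (nat_lit 0) (p (nat_lit 0x38312) (nat_lit 0) (p (nat_lit 0x40212) (nat_lit 0) (p (nat_lit 0x28192) (nat_lit 0) (p (nat_lit 0x30092) (nat_lit 0) (p (nat_lit 0x18012) (nat_lit 0) pn))))))))))))))))))))))))))))) :=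
  Cl.node (nat_lit 0x111) (nat_lit 2) (by decide +kernel) (ClAll.succ (ClAll.succ ClAll.zero s10) s11)

def n1 : Cl (O (nat_lit 6)) (R (nat_lit 139473))
    (p (nat_lit 0xb0004) (nat_lit 0) (p (nat_lit 0x20000c) (nat_lit 1) (p (nat_lit 0xc9) (nat_lit 1) (p (nat_lit 0xc1) (nat_lit 0) (p (nat_lit 0x81) (nat_lit 1) (p (nat_lit 0x101) (nat_lit 1) (p (nat_lit 0x119) (nat_lit 0) (p (nat_lit 0xd1) (nat_lit 0) (p (nat_lit 0x89) (nat_lit 0) (p (nat_lit 0x41) (nat_lit 0) (p (nat_lit 0x10b0a098a889a) (nat_lit 0) (p (nat_lit 0x8a89890a081a) (nat_lit 0) (p (nat_lit 0x10a090888079a) (nat_lit 0) (p (nat_lit 0x89888807871a) (nat_lit 0) (p (nat_lit 0x8000080000000090788868a) (nat_lit 0) (p (nat_lit 0x8000080000000088706860a) (nat_lit 0) (p (nat_lit 0x10706878582) (nat_lit 0) (p (nat_lit 0x8686070502) (nat_lit 0) (p (nat_lit 0x10605850482) (nat_lit 0) (p (nat_lit 0x8585048402) (nat_lit 0) (p (nat_lit 0x160004)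 (nat_lit 0) (p (nat_lit 0x60592) (nat_lit 0) (p (nat_lit 0x48512) (nat_lit 0) (p (nat_lit 0x50392) (nat_lit 0) (p (nat_lit 0x38312) (nat_lit 0) (p (nat_lit 0x40212) (nat_lit 0) (p (nat_lit 0x28192) (nat_lit 0) (p (nat_lit 0x30092) (nat_lit 0) (p (nat_lit 0x18012) (nat_lit 0) pn))))))))))))))))))))))))))))) :=
  Cl.node (nat_lit 0x200014) (nat_lit 2) (by decide +kernel) (ClAll.succ (ClAll.succ ClAll.zero s16) s17)

def n2 : Cl (O (nat_lit 6)) (R (nat_lit 139473))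
    (p (nat_lit 0xb0004) (nat_lit 0) (p (nat_lit 0x20000c) (nat_lit 1) (p (nat_lit 0x109) (nat_lit 1) (p (nat_lit 0x101) (nat_lit 0) (p (nat_lit 0x81) (nat_lit 1) (p (nat_lit 0xc1) (nat_lit 1) (p (nat_lit 0x119) (nat_lit 1) (p (nat_lit 0xd1) (nat_lit 0) (p (nat_lit 0x89) (nat_lit 0) (p (nat_lit 0x41) (nat_lit 0) (p (nat_lit 0x10b0a098a889a) (nat_lit 0) (p (nat_lit 0x8a89890a081a) (nat_lit 0) (p (nat_lit 0x10a090888079a) (nat_lit 0) (p (nat_lit 0x89888807871a) (nat_lit 0) (p (nat_lit 0x8000080000000090788868a) (nat_lit 0) (p (nat_lit 0x8000080000000088706860a) (nat_lit 0) (p (nat_lit 0x10706878582) (nat_lit 0) (p (nat_lit 0x8686070502) (nat_lit 0) (p (nat_lit 0x10605850482) (nat_lit 0) (p (nat_lit 0x8585048402) (nat_lit 0) (p (nat_lit 0x160004) (nat_lit 0) (p (nat_lit 0x60592) (nat_lit 0) (p (nat_lit 0x48512) (nat_lit 0) (p (nat_lit 0x50392) (nat_lit 0) (p (nat_lit 0x38312) (nat_lit 0)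 (p (nat_lit 0x40212) (nat_lit 0) (p (nat_lit 0x28192) (nat_lit 0) (p (nat_lit 0x30092) (nat_lit 0) (p (nat_lit 0x18012) (nat_lit 0) pn))))))))))))))))))))))))))))) :=
  Cl.node (nat_lit 0x200014) (nat_lit 2) (by decide +kernel) (ClAll.succ (ClAll.succ ClAll.zero s25) s26)

def n3 : Cl (O (nat_lit 6)) (R (nat_lit 139473))
    (p (nat_lit 0x200014) (nat_lit 0) (p (nat_lit 0xb0004) (nat_lit 0) (p (nat_lit 0x20000c) (nat_lit 1) (p (nat_lit 0xc1) (nat_lit 0) (p (nat_lit 0x81) (nat_lit 1) (p (nat_lit 0x101) (nat_lit 1) (p (nat_lit 0x111) (nat_lit 0) (p (nat_lit 0xd1) (nat_lit 1) (p (nat_lit 0x89) (nat_lit 0) (p (nat_lit 0x41) (nat_lit 0) (p (nat_lit 0x10b0a098a889a) (nat_lit 0) (p (nat_lit 0x8a89890a081a) (nat_lit 0) (p (nat_lit 0x10a090888079a) (nat_lit 0) (p (nat_lit 0x89888807871a) (nat_lit 0) (p (nat_lit 0x8000080000000090788868a) (nat_lit 0) (p (nat_lit 0x8000080000000088706860a) (nat_lit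 0) (p (nat_lit 0x10706878582) (nat_lit 0) (p (nat_lit 0x8686070502) (nat_lit 0) (p (nat_lit 0x10605850482) (nat_lit 0) (p (nat_lit 0x8585048402) (nat_lit 0) (p (nat_lit 0x160004) (nat_lit 0) (p (nat_lit 0x60592) (nat_lit 0) (p (nat_lit 0x48512) (nat_lit 0) (p (nat_lit 0x50392) (nat_lit 0) (p (nat_lit 0x38312) (nat_lit 0) (p (nat_lit 0x40212) (nat_lit 0) (p (nat_lit 0x28192) (nat_lit 0) (p (nat_lit 0x30092) (nat_lit 0) (p (nat_lit 0x18012) (nat_lit 0) pn))))))))))))))))))))))))))))) :=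
  Cl.node (nat_lit 0x119) (nat_lit 2) (by decide +kernel) (ClAll.succ (ClAll.succ ClAll.zero s36) s37)

def n4 : Cl (O (nat_lit 6)) (R (nat_lit 139473))
    (p (nat_lit 0x200014) (nat_lit 0) (p (nat_lit 0xb0004) (nat_lit 0) (p (nat_lit 0x20000c) (nat_lit 1) (p (nat_lit 0xd1) (nat_lit 1) (p (nat_lit 0x109) (nat_lit 1) (p (nat_lit 0x101) (nat_lit 0) (p (nat_lit 0x119) (nat_lit 0) (p (nat_lit 0xc9) (nat_lit 0) (p (nat_lit 0x89) (nat_lit 1) (p (nat_lit 0x41) (nat_lit 0) (p (nat_lit 0x10b0a098a889a) (nat_lit 0) (p (nat_lit 0x8a89890a081a) (nat_lit 0) (p (nat_lit 0x10a090888079a) (nat_lit 0) (p (nat_lit 0x89888807871a) (nat_lit 0) (p (nat_lit 0x8000080000000090788868a) (nat_lit 0) (p (nat_lit 0x8000080000000088706860a) (nat_lit 0) (p (nat_lit 0x10706878582) (nat_lit 0) (p (nat_lit 0x8686070502) (nat_lit 0) (p (nat_lit 0x10605850482) (nat_lit 0) (p (nat_lit 0x8585048402) (nat_lit 0) (p (nat_lit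 0x160004) (nat_lit 0) (p (nat_lit 0x60592) (nat_lit 0) (p (nat_lit 0x48512) (nat_lit 0) (p (nat_lit 0x50392) (nat_lit 0) (p (nat_lit 0x38312) (nat_lit 0) (p (nat_lit 0x40212) (nat_lit 0) (p (nat_lit 0x28192) (nat_lit 0) (p (nat_lit 0x30092) (nat_lit 0) (p (nat_lit 0x18012) (nat_lit 0) pn))))))))))))))))))))))))))))) :=
  Cl.node (nat_lit 0x41) (nat_lit 2) (by decide +kernel) (ClAll.succ (ClAll.succ ClAll.zero s51) s52)

def n5 : Cl (O (nat_lit 6)) (R (nat_lit 139473))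
    (p (nat_lit 0xb0004) (nat_lit 0) (p (nat_lit 0x20000c) (nat_lit 1) (p (nat_lit 0xc9) (nat_lit 1) (p (nat_lit 0x109) (nat_lit 1) (p (nat_lit 0x101) (nat_lit 0) (p (nat_lit 0x119) (nat_lit 0) (p (nat_lit 0xd1) (nat_lit 0) (p (nat_lit 0x89) (nat_lit 0) (p (nat_lit 0x41) (nat_lit 0) (p (nat_lit 0x10b0a098a889a) (nat_lit 0) (p (nat_lit 0x8a89890a081a) (nat_lit 0) (p (nat_lit 0x10a090888079a) (nat_lit 0) (p (nat_lit 0x89888807871a) (nat_lit 0) (p (nat_lit 0x8000080000000090788868a) (nat_lit 0) (p (nat_lit 0x8000080000000088706860a) (nat_lit 0) (p (nat_lit 0x10706878582) (nat_lit 0) (p (nat_lit 0x8686070502) (nat_lit 0) (p (nat_lit 0x10605850482) (nat_lit 0) (p (nat_lit 0x8585048402) (nat_lit 0) (p (nat_lit 0x160004) (nat_lit 0) (p (nat_lit 0x60592) (nat_lit 0) (p (nat_lit 0x48512) (nat_lit 0) (p (nat_lit 0x50392) (nat_lit 0) (p (nat_lit 0x38312) (nat_lit 0) (p (nat_lit 0x40212) (nat_lit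 0) (p (nat_lit 0x28192) (nat_lit 0) (p (nat_lit 0x30092) (nat_lit 0) (p (nat_lit 0x18012) (nat_lit 0) pn)))))))))))))))))))))))))))) :=
  Cl.node (nat_lit 0x200014) (nat_lit 2) (by decide +kernel) (ClAll.succ (ClAll.succ ClAll.zero s3) s4)

def n6 : Cl (O (nat_lit 6)) (R (nat_lit 139473))
    (p (nat_lit 0xb0004) (nat_lit 0) (p (nat_lit 0x20000c) (nat_lit 1) (p (nat_lit 0xc9) (nat_lit 1) (p (nat_lit 0x81) (nat_lit 0) (p (nat_lit 0x101) (nat_lit 1) (p (nat_lit 0x119) (nat_lit 0) (p (nat_lit 0xd1) (nat_lit 0) (p (nat_lit 0x89) (nat_lit 0) (p (nat_lit 0x41) (nat_lit 0) (p (nat_lit 0x10b0a098a889a) (nat_lit 0) (p (nat_lit 0x8a89890a081a) (nat_lit 0) (p (nat_lit 0x10a090888079a) (nat_lit 0) (p (nat_lit 0x89888807871a) (nat_lit 0) (p (nat_lit 0x8000080000000090788868a) (nat_lit 0) (p (nat_lit 0x8000080000000088706860a) (nat_lit 0) (p (nat_lit 0x10706878582) (nat_lit 0) (p (nat_lit 0x8686070502)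 (nat_lit 0) (p (nat_lit 0x10605850482) (nat_lit 0) (p (nat_lit 0x8585048402) (nat_lit 0) (p (nat_lit 0x160004) (nat_lit 0) (p (nat_lit 0x60592) (nat_lit 0) (p (nat_lit 0x48512) (nat_lit 0) (p (nat_lit 0x50392) (nat_lit 0) (p (nat_lit 0x38312) (nat_lit 0) (p (nat_lit 0x40212) (nat_lit 0) (p (nat_lit 0x28192) (nat_lit 0) (p (nat_lit 0x30092) (nat_lit 0) (p (nat_lit 0x18012) (nat_lit 0) pn)))))))))))))))))))))))))))) :=
  Cl.node (nat_lit 0x200014) (nat_lit 2) (by decide +kernel) (ClAll.succ (ClAll.succ ClAll.zero n0) s12)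

def n7 : Cl (O (nat_lit 6)) (R (nat_lit 139473))
    (p (nat_lit 0x20000c) (nat_lit 1) (p (nat_lit 0xc9) (nat_lit 1) (p (nat_lit 0xc1) (nat_lit 0) (p (nat_lit 0x81) (nat_lit 1) (p (nat_lit 0x101) (nat_lit 1) (p (nat_lit 0x119) (nat_lit 0) (p (nat_lit 0xd1) (nat_lit 0) (p (nat_lit 0x89) (nat_lit 0) (p (nat_lit 0x41) (nat_lit 0) (p (nat_lit 0x10b0a098a889a) (nat_lit 0) (p (nat_lit 0x8a89890a081a) (nat_lit 0) (p (nat_lit 0x10a090888079a) (nat_lit 0) (p (nat_lit 0x89888807871a) (nat_lit 0) (p (nat_lit 0x8000080000000090788868a) (nat_lit 0) (p (nat_lit 0x8000080000000088706860a) (nat_lit 0) (p (nat_lit 0x10706878582) (nat_lit 0) (p (nat_lit 0x8686070502) (nat_lit 0) (p (nat_lit 0x10605850482) (nat_lit 0) (p (nat_lit 0x8585048402) (nat_lit 0) (p (nat_lit 0x160004) (nat_lit 0) (p (nat_lit 0x60592) (nat_lit 0) (p (nat_lit 0x48512) (nat_lit 0) (p (nat_lit 0x50392) (nat_lit 0) (p (nat_lit 0x38312)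 (nat_lit 0) (p (nat_lit 0x40212) (nat_lit 0) (p (nat_lit 0x28192) (nat_lit 0) (p (nat_lit 0x30092) (nat_lit 0) (p (nat_lit 0x18012) (nat_lit 0) pn)))))))))))))))))))))))))))) :=
  Cl.node (nat_lit 0xb0004) (nat_lit 2) (by decide +kernel) (ClAll.succ (ClAll.succ ClAll.zero n1) s18)

def n8 : Cl (O (nat_lit 6)) (R (nat_lit 139473))
    (p (nat_lit 0x20000c) (nat_lit 1) (p (nat_lit 0x109) (nat_lit 1) (p (nat_lit 0x101) (nat_lit 0) (p (nat_lit 0x81) (nat_lit 1) (p (nat_lit 0xc1) (nat_lit 1) (p (nat_lit 0x119) (nat_lit 1) (p (nat_lit 0xd1) (nat_lit 0) (p (nat_lit 0x89) (nat_lit 0) (p (nat_lit 0x41) (nat_lit 0) (p (nat_lit 0x10b0a098a889a) (nat_lit 0) (p (nat_lit 0x8a89890a081a) (nat_lit 0) (p (nat_lit 0x10a090888079a) (nat_lit 0) (p (nat_lit 0x89888807871a) (nat_lit 0) (p (nat_lit 0x8000080000000090788868a) (nat_lit 0) (p (nat_lit 0x8000080000000088706860a) (nat_lit 0) (p (nat_lit 0x10706878582)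 (nat_lit 0) (p (nat_lit 0x8686070502) (nat_lit 0) (p (nat_lit 0x10605850482) (nat_lit 0) (p (nat_lit 0x8585048402) (nat_lit 0) (p (nat_lit 0x160004) (nat_lit 0) (p (nat_lit 0x60592) (nat_lit 0) (p (nat_lit 0x48512) (nat_lit 0) (p (nat_lit 0x50392) (nat_lit 0) (p (nat_lit 0x38312) (nat_lit 0) (p (nat_lit 0x40212) (nat_lit 0) (p (nat_lit 0x28192) (nat_lit 0) (p (nat_lit 0x30092) (nat_lit 0) (p (nat_lit 0x18012) (nat_lit 0) pn)))))))))))))))))))))))))))) :=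
  Cl.node (nat_lit 0xb0004) (nat_lit 2) (by decide +kernel) (ClAll.succ (ClAll.succ ClAll.zero n2) s27)

def n9 : Cl (O (nat_lit 6)) (R (nat_lit 139473))
    (p (nat_lit 0xb0004) (nat_lit 0) (p (nat_lit 0x20000c) (nat_lit 1) (p (nat_lit 0xc1) (nat_lit 0) (p (nat_lit 0x81) (nat_lit 1) (p (nat_lit 0x101) (nat_lit 1) (p (nat_lit 0x111) (nat_lit 0) (p (nat_lit 0xd1) (nat_lit 1) (p (nat_lit 0x89) (nat_lit 0) (p (nat_lit 0x41) (nat_lit 0) (p (nat_lit 0x10b0a098a889a) (nat_lit 0) (p (nat_lit 0x8a89890a081a) (nat_lit 0) (p (nat_lit 0x10a090888079a) (nat_lit 0) (p (nat_lit 0x89888807871a) (nat_lit 0) (p (nat_lit 0x8000080000000090788868a) (nat_lit 0) (p (nat_lit 0x8000080000000088706860a) (nat_lit 0) (p (nat_lit 0x10706878582) (nat_lit 0) (p (nat_lit 0x8686070502) (nat_lit 0) (p (nat_lit 0x10605850482) (nat_lit 0) (p (nat_lit 0x8585048402) (nat_lit 0) (p (nat_lit 0x160004) (nat_lit 0) (p (nat_lit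 0x60592) (nat_lit 0) (p (nat_lit 0x48512) (nat_lit 0) (p (nat_lit 0x50392) (nat_lit 0) (p (nat_lit 0x38312) (nat_lit 0) (p (nat_lit 0x40212) (nat_lit 0) (p (nat_lit 0x28192) (nat_lit 0) (p (nat_lit 0x30092) (nat_lit 0) (p (nat_lit 0x18012) (nat_lit 0) pn)))))))))))))))))))))))))))) :=
  Cl.node (nat_lit 0x200014) (nat_lit 2) (by decide +kernel) (ClAll.succ (ClAll.succ ClAll.zero n3) s38)

def n10 : Cl (O (nat_lit 6)) (R (nat_lit 139473))
    (p (nat_lit 0xb0004) (nat_lit 0) (p (nat_lit 0x20000c) (nat_lit 1) (p (nat_lit 0xd1) (nat_lit 1) (p (nat_lit 0x109) (nat_lit 1) (p (nat_lit 0x101) (nat_lit 0) (p (nat_lit 0x119) (nat_lit 0) (p (nat_lit 0xc9) (nat_lit 0) (p (nat_lit 0x89) (nat_lit 1) (p (nat_lit 0x41) (nat_lit 0) (p (nat_lit 0x10b0a098a889a) (nat_lit 0) (p (nat_lit 0x8a89890a081a) (nat_lit 0) (p (nat_lit 0x10a090888079a) (nat_lit 0) (p (nat_lit 0x89888807871a) (nat_lit 0) (p (nat_lit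 0x8000080000000090788868a) (nat_lit 0) (p (nat_lit 0x8000080000000088706860a) (nat_lit 0) (p (nat_lit 0x10706878582) (nat_lit 0) (p (nat_lit 0x8686070502) (nat_lit 0) (p (nat_lit 0x10605850482) (nat_lit 0) (p (nat_lit 0x8585048402) (nat_lit 0) (p (nat_lit 0x160004) (nat_lit 0) (p (nat_lit 0x60592) (nat_lit 0) (p (nat_lit 0x48512) (nat_lit 0) (p (nat_lit 0x50392) (nat_lit 0) (p (nat_lit 0x38312) (nat_lit 0) (p (nat_lit 0x40212) (nat_lit 0) (p (nat_lit 0x28192) (nat_lit 0) (p (nat_lit 0x30092) (nat_lit 0) (p (nat_lit 0x18012) (nat_lit 0) pn)))))))))))))))))))))))))))) :=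
  Cl.node (nat_lit 0x200014) (nat_lit 2) (by decide +kernel) (ClAll.succ (ClAll.succ ClAll.zero n4) s53)

def n11 : Cl (O (nat_lit 6)) (R (nat_lit 139473))
    (p (nat_lit 0x20000c) (nat_lit 0) (p (nat_lit 0x109) (nat_lit 1) (p (nat_lit 0x89) (nat_lit 1) (p (nat_lit 0xc9) (nat_lit 1) (p (nat_lit 0xc1) (nat_lit 0) (p (nat_lit 0x119) (nat_lit 1) (p (nat_lit 0xd1) (nat_lit 0) (p (nat_lit 0x81) (nat_lit 0) (p (nat_lit 0x41) (nat_lit 1) (p (nat_lit 0x10b0a098a889a) (nat_lit 0) (p (nat_lit 0x8a89890a081a) (nat_lit 0) (p (nat_lit 0x10a090888079a) (nat_lit 0) (p (nat_lit 0x89888807871a) (nat_lit 0) (p (nat_lit 0x8000080000000090788868a) (nat_lit 0) (p (nat_lit 0x8000080000000088706860a) (nat_lit 0) (p (nat_lit 0x10706878582) (nat_lit 0) (p (nat_lit 0x8686070502) (nat_lit 0) (p (nat_lit 0x10605850482) (nat_lit 0) (p (nat_lit 0x8585048402) (nat_lit 0) (p (nat_lit 0x160004) (nat_lit 0) (p (nat_lit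 0x60592) (nat_lit 0) (p (nat_lit 0x48512) (nat_lit 0) (p (nat_lit 0x50392) (nat_lit 0) (p (nat_lit 0x38312) (nat_lit 0) (p (nat_lit 0x40212) (nat_lit 0) (p (nat_lit 0x28192) (nat_lit 0) (p (nat_lit 0x30092) (nat_lit 0) (p (nat_lit 0x18012) (nat_lit 0) pn)))))))))))))))))))))))))))) :=
  Cl.node (nat_lit 0x200014) (nat_lit 2) (by decide +kernel) (ClAll.succ (ClAll.succ ClAll.zero s84) s85)

def n12 : Cl (O (nat_lit 6)) (R (nat_lit 139473))
    (p (nat_lit 0x20000c) (nat_lit 1) (p (nat_lit 0xc9) (nat_lit 1) (p (nat_lit 0x109) (nat_lit 1) (p (nat_lit 0x101) (nat_lit 0) (p (nat_lit 0x119) (nat_lit 0) (p (nat_lit 0xd1) (nat_lit 0) (p (nat_lit 0x89) (nat_lit 0) (p (nat_lit 0x41) (nat_lit 0) (p (nat_lit 0x10b0a098a889a) (nat_lit 0) (p (nat_lit 0x8a89890a081a) (nat_lit 0) (p (nat_lit 0x10a090888079a) (nat_lit 0) (p (nat_lit 0x89888807871a) (nat_lit 0) (p (nat_lit 0x8000080000000090788868a) (nat_lit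 0) (p (nat_lit 0x8000080000000088706860a) (nat_lit 0) (p (nat_lit 0x10706878582) (nat_lit 0) (p (nat_lit 0x8686070502) (nat_lit 0) (p (nat_lit 0x10605850482) (nat_lit 0) (p (nat_lit 0x8585048402) (nat_lit 0) (p (nat_lit 0x160004) (nat_lit 0) (p (nat_lit 0x60592) (nat_lit 0) (p (nat_lit 0x48512) (nat_lit 0) (p (nat_lit 0x50392) (nat_lit 0) (p (nat_lit 0x38312) (nat_lit 0) (p (nat_lit 0x40212) (nat_lit 0) (p (nat_lit 0x28192) (nat_lit 0) (p (nat_lit 0x30092) (nat_lit 0) (p (nat_lit 0x18012) (nat_lit 0) pn))))))))))))))))))))))))))) :=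
  Cl.node (nat_lit 0xb0004) (nat_lit 2) (by decide +kernel) (ClAll.succ (ClAll.succ ClAll.zero n5) s5)

def n13 : Cl (O (nat_lit 6)) (R (nat_lit 139473))
    (p (nat_lit 0x20000c) (nat_lit 0) (p (nat_lit 0xc9) (nat_lit 1) (p (nat_lit 0x81) (nat_lit 0) (p (nat_lit 0x101) (nat_lit 1) (p (nat_lit 0x119) (nat_lit 0) (p (nat_lit 0xd1) (nat_lit 0) (p (nat_lit 0x89) (nat_lit 0) (p (nat_lit 0x41) (nat_lit 0) (p (nat_lit 0x10b0a098a889a) (nat_lit 0) (p (nat_lit 0x8a89890a081a) (nat_lit 0) (p (nat_lit 0x10a090888079a) (nat_lit 0) (p (nat_lit 0x89888807871a) (nat_lit 0) (p (nat_lit 0x8000080000000090788868a) (nat_lit 0) (p (nat_lit 0x8000080000000088706860a) (nat_lit 0) (p (nat_lit 0x10706878582) (nat_lit 0) (p (nat_lit 0x8686070502) (nat_lit 0) (p (nat_lit 0x10605850482) (nat_lit 0) (p (nat_lit 0x8585048402) (nat_lit 0) (p (nat_lit 0x160004) (nat_lit 0) (p (nat_lit 0x60592) (nat_lit 0) (p (nat_lit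 0x48512) (nat_lit 0) (p (nat_lit 0x50392) (nat_lit 0) (p (nat_lit 0x38312) (nat_lit 0) (p (nat_lit 0x40212) (nat_lit 0) (p (nat_lit 0x28192) (nat_lit 0) (p (nat_lit 0x30092) (nat_lit 0) (p (nat_lit 0x18012) (nat_lit 0) pn))))))))))))))))))))))))))) :=
  Cl.node (nat_lit 0x200014) (nat_lit 2) (by decide +kernel) (ClAll.succ (ClAll.succ ClAll.zero s8) s9)

def n14 : Cl (O (nat_lit 6)) (R (nat_lit 139473))
    (p (nat_lit 0x20000c) (nat_lit 1) (p (nat_lit 0xc9) (nat_lit 1) (p (nat_lit 0x81) (nat_lit 0) (p (nat_lit 0x101) (nat_lit 1) (p (nat_lit 0x119) (nat_lit 0) (p (nat_lit 0xd1) (nat_lit 0) (p (nat_lit 0x89) (nat_lit 0) (p (nat_lit 0x41) (nat_lit 0) (p (nat_lit 0x10b0a098a889a) (nat_lit 0) (p (nat_lit 0x8a89890a081a) (nat_lit 0) (p (nat_lit 0x10a090888079a) (nat_lit 0) (p (nat_lit 0x89888807871a) (nat_lit 0) (p (nat_lit 0x8000080000000090788868a) (nat_lit 0) (p (nat_lit 0x8000080000000088706860a)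 (nat_lit 0) (p (nat_lit 0x10706878582) (nat_lit 0) (p (nat_lit 0x8686070502) (nat_lit 0) (p (nat_lit 0x10605850482) (nat_lit 0) (p (nat_lit 0x8585048402) (nat_lit 0) (p (nat_lit 0x160004) (nat_lit 0) (p (nat_lit 0x60592) (nat_lit 0) (p (nat_lit 0x48512) (nat_lit 0) (p (nat_lit 0x50392) (nat_lit 0) (p (nat_lit 0x38312) (nat_lit 0) (p (nat_lit 0x40212) (nat_lit 0) (p (nat_lit 0x28192) (nat_lit 0) (p (nat_lit 0x30092) (nat_lit 0) (p (nat_lit 0x18012) (nat_lit 0) pn))))))))))))))))))))))))))) :=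
  Cl.node (nat_lit 0xb0004) (nat_lit 2) (by decide +kernel) (ClAll.succ (ClAll.succ ClAll.zero n6) s13)

def n15 : Cl (O (nat_lit 6)) (R (nat_lit 139473))
    (p (nat_lit 0xc9) (nat_lit 1) (p (nat_lit 0xc1) (nat_lit 0) (p (nat_lit 0x81) (nat_lit 1) (p (nat_lit 0x101) (nat_lit 1) (p (nat_lit 0x119) (nat_lit 0) (p (nat_lit 0xd1) (nat_lit 0) (p (nat_lit 0x89) (nat_lit 0) (p (nat_lit 0x41) (nat_lit 0) (p (nat_lit 0x10b0a098a889a) (nat_lit 0) (p (nat_lit 0x8a89890a081a) (nat_lit 0) (p (nat_lit 0x10a090888079a) (nat_lit 0) (p (nat_lit 0x89888807871a) (nat_lit 0) (p (nat_lit 0x8000080000000090788868a) (nat_lit 0) (p (nat_lit 0x8000080000000088706860a) (nat_lit 0) (p (nat_lit 0x10706878582) (nat_lit 0) (p (nat_lit 0x8686070502) (nat_lit 0) (p (nat_lit 0x10605850482) (nat_lit 0) (p (nat_lit 0x8585048402) (nat_lit 0) (p (nat_lit 0x160004) (nat_lit 0) (p (nat_lit 0x60592) (nat_lit 0) (p (nat_lit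 0x48512) (nat_lit 0) (p (nat_lit 0x50392) (nat_lit 0) (p (nat_lit 0x38312) (nat_lit 0) (p (nat_lit 0x40212) (nat_lit 0) (p (nat_lit 0x28192) (nat_lit 0) (p (nat_lit 0x30092) (nat_lit 0) (p (nat_lit 0x18012) (nat_lit 0) pn))))))))))))))))))))))))))) :=
  Cl.node (nat_lit 0x20000c) (nat_lit 2) (by decide +kernel) (ClAll.succ (ClAll.succ ClAll.zero s15) n7)

def n16 : Cl (O (nat_lit 6)) (R (nat_lit 139473))
    (p (nat_lit 0x109) (nat_lit 1) (p (nat_lit 0x101) (nat_lit 0) (p (nat_lit 0x81) (nat_lit 1) (p (nat_lit 0xc1) (nat_lit 1) (p (nat_lit 0x119) (nat_lit 1) (p (nat_lit 0xd1) (nat_lit 0) (p (nat_lit 0x89) (nat_lit 0) (p (nat_lit 0x41) (nat_lit 0) (p (nat_lit 0x10b0a098a889a) (nat_lit 0) (p (nat_lit 0x8a89890a081a) (nat_lit 0) (p (nat_lit 0x10a090888079a) (nat_lit 0) (p (nat_lit 0x89888807871a) (nat_lit 0) (p (nat_lit 0x8000080000000090788868a) (nat_lit 0) (p (nat_lit 0x8000080000000088706860a)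 (nat_lit 0) (p (nat_lit 0x10706878582) (nat_lit 0) (p (nat_lit 0x8686070502) (nat_lit 0) (p (nat_lit 0x10605850482) (nat_lit 0) (p (nat_lit 0x8585048402) (nat_lit 0) (p (nat_lit 0x160004) (nat_lit 0) (p (nat_lit 0x60592) (nat_lit 0) (p (nat_lit 0x48512) (nat_lit 0) (p (nat_lit 0x50392) (nat_lit 0) (p (nat_lit 0x38312) (nat_lit 0) (p (nat_lit 0x40212) (nat_lit 0) (p (nat_lit 0x28192) (nat_lit 0) (p (nat_lit 0x30092) (nat_lit 0) (p (nat_lit 0x18012) (nat_lit 0) pn))))))))))))))))))))))))))) :=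
  Cl.node (nat_lit 0x20000c) (nat_lit 2) (by decide +kernel) (ClAll.succ (ClAll.succ ClAll.zero s24) n8)

def n17 : Cl (O (nat_lit 6)) (R (nat_lit 139473))
    (p (nat_lit 0x20000c) (nat_lit 1) (p (nat_lit 0xc1) (nat_lit 0) (p (nat_lit 0x81) (nat_lit 1) (p (nat_lit 0x101) (nat_lit 1) (p (nat_lit 0x111) (nat_lit 0) (p (nat_lit 0xd1) (nat_lit 1) (p (nat_lit 0x89) (nat_lit 0) (p (nat_lit 0x41) (nat_lit 0) (p (nat_lit 0x10b0a098a889a) (nat_lit 0) (p (nat_lit 0x8a89890a081a) (nat_lit 0) (p (nat_lit 0x10a090888079a) (nat_lit 0) (p (nat_lit 0x89888807871a) (nat_lit 0) (p (nat_lit 0x8000080000000090788868a) (nat_lit 0) (p (nat_lit 0x8000080000000088706860a) (nat_lit 0) (p (nat_lit 0x10706878582) (nat_lit 0) (p (nat_lit 0x8686070502) (nat_lit 0) (p (nat_lit 0x10605850482) (nat_lit 0) (p (nat_lit 0x8585048402) (nat_lit 0) (p (nat_lit 0x160004) (nat_lit 0) (p (nat_lit 0x60592) (nat_lit 0) (p (nat_lit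 0x48512) (nat_lit 0) (p (nat_lit 0x50392) (nat_lit 0) (p (nat_lit 0x38312) (nat_lit 0) (p (nat_lit 0x40212) (nat_lit 0) (p (nat_lit 0x28192) (nat_lit 0) (p (nat_lit 0x30092) (nat_lit 0) (p (nat_lit 0x18012) (nat_lit 0) pn))))))))))))))))))))))))))) :=
  Cl.node (nat_lit 0xb0004) (nat_lit 2) (by decide +kernel) (ClAll.succ (ClAll.succ ClAll.zero n9) s39)

def n18 : Cl (O (nat_lit 6)) (R (nat_lit 139473))
    (p (nat_lit 0xd1) (nat_lit 1) (p (nat_lit 0x111) (nat_lit 1) (p (nat_lit 0x109) (nat_lit 0) (p (nat_lit 0x101) (nat_lit 0) (p (nat_lit 0x119) (nat_lit 0) (p (nat_lit 0xc9) (nat_lit 0) (p (nat_lit 0x89) (nat_lit 1) (p (nat_lit 0x41) (nat_lit 0) (p (nat_lit 0x10b0a098a889a) (nat_lit 0) (p (nat_lit 0x8a89890a081a) (nat_lit 0) (p (nat_lit 0x10a090888079a) (nat_lit 0) (p (nat_lit 0x89888807871a) (nat_lit 0) (p (nat_lit 0x8000080000000090788868a) (nat_lit 0) (p (nat_lit 0x8000080000000088706860a)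 (nat_lit 0) (p (nat_lit 0x10706878582) (nat_lit 0) (p (nat_lit 0x8686070502) (nat_lit 0) (p (nat_lit 0x10605850482) (nat_lit 0) (p (nat_lit 0x8585048402) (nat_lit 0) (p (nat_lit 0x160004) (nat_lit 0) (p (nat_lit 0x60592) (nat_lit 0) (p (nat_lit 0x48512) (nat_lit 0) (p (nat_lit 0x50392) (nat_lit 0) (p (nat_lit 0x38312) (nat_lit 0) (p (nat_lit 0x40212) (nat_lit 0) (p (nat_lit 0x28192) (nat_lit 0) (p (nat_lit 0x30092) (nat_lit 0) (p (nat_lit 0x18012) (nat_lit 0) pn))))))))))))))))))))))))))) :=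
  Cl.node (nat_lit 0x20000c) (nat_lit 2) (by decide +kernel) (ClAll.succ (ClAll.succ ClAll.zero s47) s48)

def n19 : Cl (O (nat_lit 6)) (R (nat_lit 139473))
    (p (nat_lit 0x20000c) (nat_lit 1) (p (nat_lit 0xd1) (nat_lit 1) (p (nat_lit 0x109) (nat_lit 1) (p (nat_lit 0x101) (nat_lit 0) (p (nat_lit 0x119) (nat_lit 0) (p (nat_lit 0xc9) (nat_lit 0) (p (nat_lit 0x89) (nat_lit 1) (p (nat_lit 0x41) (nat_lit 0) (p (nat_lit 0x10b0a098a889a) (nat_lit 0) (p (nat_lit 0x8a89890a081a) (nat_lit 0) (p (nat_lit 0x10a090888079a) (nat_lit 0) (p (nat_lit 0x89888807871a) (nat_lit 0) (p (nat_lit 0x8000080000000090788868a) (nat_lit 0) (p (nat_lit 0x8000080000000088706860a) (nat_lit 0) (p (nat_lit 0x10706878582) (nat_lit 0) (p (nat_lit 0x8686070502) (nat_lit 0) (p (nat_lit 0x10605850482) (nat_lit 0) (p (nat_lit 0x8585048402) (nat_lit 0) (p (nat_lit 0x160004) (nat_lit 0) (p (nat_lit 0x60592) (nat_lit 0) (p (nat_lit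 0x48512) (nat_lit 0) (p (nat_lit 0x50392) (nat_lit 0) (p (nat_lit 0x38312) (nat_lit 0) (p (nat_lit 0x40212) (nat_lit 0) (p (nat_lit 0x28192) (nat_lit 0) (p (nat_lit 0x30092) (nat_lit 0) (p (nat_lit 0x18012) (nat_lit 0) pn))))))))))))))))))))))))))) :=
  Cl.node (nat_lit 0xb0004) (nat_lit 2) (by decide +kernel) (ClAll.succ (ClAll.succ ClAll.zero n10) s54)

def n20 : Cl (O (nat_lit 6)) (R (nat_lit 139473))
    (p (nat_lit 0x20000c) (nat_lit 0) (p (nat_lit 0x89) (nat_lit 0) (p (nat_lit 0x109) (nat_lit 1) (p (nat_lit 0x101) (nat_lit 0) (p (nat_lit 0x119) (nat_lit 0) (p (nat_lit 0xd1) (nat_lit 0) (p (nat_lit 0x81) (nat_lit 0) (p (nat_lit 0x41) (nat_lit 1) (p (nat_lit 0x10b0a098a889a) (nat_lit 0) (p (nat_lit 0x8a89890a081a) (nat_lit 0) (p (nat_lit 0x10a090888079a) (nat_lit 0) (p (nat_lit 0x89888807871a) (nat_lit 0) (p (nat_lit 0x8000080000000090788868a) (nat_lit 0) (p (nat_lit 0x8000080000000088706860a)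 (nat_lit 0) (p (nat_lit 0x10706878582) (nat_lit 0) (p (nat_lit 0x8686070502) (nat_lit 0) (p (nat_lit 0x10605850482) (nat_lit 0) (p (nat_lit 0x8585048402) (nat_lit 0) (p (nat_lit 0x160004) (nat_lit 0) (p (nat_lit 0x60592) (nat_lit 0) (p (nat_lit 0x48512) (nat_lit 0) (p (nat_lit 0x50392) (nat_lit 0) (p (nat_lit 0x38312) (nat_lit 0) (p (nat_lit 0x40212) (nat_lit 0) (p (nat_lit 0x28192) (nat_lit 0) (p (nat_lit 0x30092) (nat_lit 0) (p (nat_lit 0x18012) (nat_lit 0) pn))))))))))))))))))))))))))) :=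
  Cl.node (nat_lit 0x200014) (nat_lit 2) (by decide +kernel) (ClAll.succ (ClAll.succ ClAll.zero s70) s71)

def n21 : Cl (O (nat_lit 6)) (R (nat_lit 139473))
    (p (nat_lit 0xc9) (nat_lit 0) (p (nat_lit 0x89) (nat_lit 1) (p (nat_lit 0xc1) (nat_lit 0) (p (nat_lit 0x101) (nat_lit 1) (p (nat_lit 0x119) (nat_lit 0) (p (nat_lit 0xd1) (nat_lit 0) (p (nat_lit 0x81) (nat_lit 0) (p (nat_lit 0x41) (nat_lit 1) (p (nat_lit 0x10b0a098a889a) (nat_lit 0) (p (nat_lit 0x8a89890a081a) (nat_lit 0) (p (nat_lit 0x10a090888079a) (nat_lit 0) (p (nat_lit 0x89888807871a) (nat_lit 0) (p (nat_lit 0x8000080000000090788868a) (nat_lit 0) (p (nat_lit 0x8000080000000088706860a) (nat_lit 0) (p (nat_lit 0x10706878582) (nat_lit 0) (p (nat_lit 0x8686070502) (nat_lit 0) (p (nat_lit 0x10605850482) (nat_lit 0) (p (nat_lit 0x8585048402) (nat_lit 0) (p (nat_lit 0x160004) (nat_lit 0) (p (nat_lit 0x60592) (nat_lit 0) (p (nat_lit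 0x48512) (nat_lit 0) (p (nat_lit 0x50392) (nat_lit 0) (p (nat_lit 0x38312) (nat_lit 0) (p (nat_lit 0x40212) (nat_lit 0) (p (nat_lit 0x28192) (nat_lit 0) (p (nat_lit 0x30092) (nat_lit 0) (p (nat_lit 0x18012) (nat_lit 0) pn))))))))))))))))))))))))))) :=
  Cl.node (nat_lit 0x20000c) (nat_lit 2) (by decide +kernel) (ClAll.succ (ClAll.succ ClAll.zero s76) s77)

def n22 : Cl (O (nat_lit 6)) (R (nat_lit 139473))
    (p (nat_lit 0x109) (nat_lit 0) (p (nat_lit 0x89) (nat_lit 1) (p (nat_lit 0xc9) (nat_lit 1) (p (nat_lit 0xc1) (nat_lit 0) (p (nat_lit 0x119) (nat_lit 1) (p (nat_lit 0xd1) (nat_lit 0) (p (nat_lit 0x81) (nat_lit 0) (p (nat_lit 0x41) (nat_lit 1) (p (nat_lit 0x10b0a098a889a) (nat_lit 0) (p (nat_lit 0x8a89890a081a) (nat_lit 0) (p (nat_lit 0x10a090888079a) (nat_lit 0) (p (nat_lit 0x89888807871a) (nat_lit 0) (p (nat_lit 0x8000080000000090788868a) (nat_lit 0) (p (nat_lit 0x8000080000000088706860a)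 (nat_lit 0) (p (nat_lit 0x10706878582) (nat_lit 0) (p (nat_lit 0x8686070502) (nat_lit 0) (p (nat_lit 0x10605850482) (nat_lit 0) (p (nat_lit 0x8585048402) (nat_lit 0) (p (nat_lit 0x160004) (nat_lit 0) (p (nat_lit 0x60592) (nat_lit 0) (p (nat_lit 0x48512) (nat_lit 0) (p (nat_lit 0x50392) (nat_lit 0) (p (nat_lit 0x38312) (nat_lit 0) (p (nat_lit 0x40212) (nat_lit 0) (p (nat_lit 0x28192) (nat_lit 0) (p (nat_lit 0x30092) (nat_lit 0) (p (nat_lit 0x18012) (nat_lit 0) pn))))))))))))))))))))))))))) :=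
  Cl.node (nat_lit 0x20000c) (nat_lit 2) (by decide +kernel) (ClAll.succ (ClAll.succ ClAll.zero s82) s83)

def n23 : Cl (O (nat_lit 6)) (R (nat_lit 139473))
    (p (nat_lit 0x109) (nat_lit 1) (p (nat_lit 0x89) (nat_lit 1) (p (nat_lit 0xc9) (nat_lit 1) (p (nat_lit 0xc1) (nat_lit 0) (p (nat_lit 0x119) (nat_lit 1) (p (nat_lit 0xd1) (nat_lit 0) (p (nat_lit 0x81) (nat_lit 0) (p (nat_lit 0x41) (nat_lit 1) (p (nat_lit 0x10b0a098a889a) (nat_lit 0) (p (nat_lit 0x8a89890a081a) (nat_lit 0) (p (nat_lit 0x10a090888079a) (nat_lit 0) (p (nat_lit 0x89888807871a) (nat_lit 0) (p (nat_lit 0x8000080000000090788868a) (nat_lit 0) (p (nat_lit 0x8000080000000088706860a) (nat_lit 0) (p (nat_lit 0x10706878582) (nat_lit 0) (p (nat_lit 0x8686070502) (nat_lit 0) (p (nat_lit 0x10605850482) (nat_lit 0) (p (nat_lit 0x8585048402) (nat_lit 0) (p (nat_lit 0x160004) (nat_lit 0) (p (nat_lit 0x60592) (nat_lit 0) (p (nat_lit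 0x48512) (nat_lit 0) (p (nat_lit 0x50392) (nat_lit 0) (p (nat_lit 0x38312) (nat_lit 0) (p (nat_lit 0x40212) (nat_lit 0) (p (nat_lit 0x28192) (nat_lit 0) (p (nat_lit 0x30092) (nat_lit 0) (p (nat_lit 0x18012) (nat_lit 0) pn))))))))))))))))))))))))))) :=
  Cl.node (nat_lit 0x20000c) (nat_lit 2) (by decide +kernel) (ClAll.succ (ClAll.succ ClAll.zero n11) s86)

def n24 : Cl (O (nat_lit 6)) (R (nat_lit 139473))
    (p (nat_lit 0x109) (nat_lit 0) (p (nat_lit 0x89) (nat_lit 1) (p (nat_lit 0x101) (nat_lit 0) (p (nat_lit 0xc1) (nat_lit 1) (p (nat_lit 0x119) (nat_lit 1) (p (nat_lit 0xd1) (nat_lit 0) (p (nat_lit 0x81) (nat_lit 0) (p (nat_lit 0x41) (nat_lit 1) (p (nat_lit 0x10b0a098a889a) (nat_lit 0) (p (nat_lit 0x8a89890a081a) (nat_lit 0) (p (nat_lit 0x10a090888079a) (nat_lit 0) (p (nat_lit 0x89888807871a) (nat_lit 0) (p (nat_lit 0x8000080000000090788868a) (nat_lit 0) (p (nat_lit 0x8000080000000088706860a)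 (nat_lit 0) (p (nat_lit 0x10706878582) (nat_lit 0) (p (nat_lit 0x8686070502) (nat_lit 0) (p (nat_lit 0x10605850482) (nat_lit 0) (p (nat_lit 0x8585048402) (nat_lit 0) (p (nat_lit 0x160004) (nat_lit 0) (p (nat_lit 0x60592) (nat_lit 0) (p (nat_lit 0x48512) (nat_lit 0) (p (nat_lit 0x50392) (nat_lit 0) (p (nat_lit 0x38312) (nat_lit 0) (p (nat_lit 0x40212) (nat_lit 0) (p (nat_lit 0x28192) (nat_lit 0) (p (nat_lit 0x30092) (nat_lit 0) (p (nat_lit 0x18012) (nat_lit 0) pn))))))))))))))))))))))))))) :=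
  Cl.node (nat_lit 0x20000c) (nat_lit 2) (by decide +kernel) (ClAll.succ (ClAll.succ ClAll.zero s88) s89)

def n25 : Cl (O (nat_lit 6)) (R (nat_lit 139473))
    (p (nat_lit 0x109) (nat_lit 1) (p (nat_lit 0x89) (nat_lit 1) (p (nat_lit 0x101) (nat_lit 0) (p (nat_lit 0xc1) (nat_lit 1) (p (nat_lit 0x119) (nat_lit 1) (p (nat_lit 0xd1) (nat_lit 0) (p (nat_lit 0x81) (nat_lit 0) (p (nat_lit 0x41) (nat_lit 1) (p (nat_lit 0x10b0a098a889a) (nat_lit 0) (p (nat_lit 0x8a89890a081a) (nat_lit 0) (p (nat_lit 0x10a090888079a) (nat_lit 0) (p (nat_lit 0x89888807871a) (nat_lit 0) (p (nat_lit 0x8000080000000090788868a) (nat_lit 0) (p (nat_lit 0x8000080000000088706860a) (nat_lit 0) (p (nat_lit 0x10706878582) (nat_lit 0) (p (nat_lit 0x8686070502) (nat_lit 0) (p (nat_lit 0x10605850482) (nat_lit 0) (p (nat_lit 0x8585048402) (nat_lit 0) (p (nat_lit 0x160004) (nat_lit 0) (p (nat_lit 0x60592) (nat_lit 0) (p (nat_lit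 0x48512) (nat_lit 0) (p (nat_lit 0x50392) (nat_lit 0) (p (nat_lit 0x38312) (nat_lit 0) (p (nat_lit 0x40212) (nat_lit 0) (p (nat_lit 0x28192) (nat_lit 0) (p (nat_lit 0x30092) (nat_lit 0) (p (nat_lit 0x18012) (nat_lit 0) pn))))))))))))))))))))))))))) :=
  Cl.node (nat_lit 0x20000c) (nat_lit 2) (by decide +kernel) (ClAll.succ (ClAll.succ ClAll.zero s90) s91)

def n26 : Cl (O (nat_lit 6)) (R (nat_lit 139473))
    (p (nat_lit 0xc9) (nat_lit 0) (p (nat_lit 0x89) (nat_lit 1) (p (nat_lit 0x109) (nat_lit 1) (p (nat_lit 0x101) (nat_lit 0) (p (nat_lit 0x111) (nat_lit 0) (p (nat_lit 0xd1) (nat_lit 1) (p (nat_lit 0x81) (nat_lit 0) (p (nat_lit 0x41) (nat_lit 1) (p (nat_lit 0x10b0a098a889a) (nat_lit 0) (p (nat_lit 0x8a89890a081a) (nat_lit 0) (p (nat_lit 0x10a090888079a) (nat_lit 0) (p (nat_lit 0x89888807871a) (nat_lit 0) (p (nat_lit 0x8000080000000090788868a) (nat_lit 0) (p (nat_lit 0x8000080000000088706860a)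 (nat_lit 0) (p (nat_lit 0x10706878582) (nat_lit 0) (p (nat_lit 0x8686070502) (nat_lit 0) (p (nat_lit 0x10605850482) (nat_lit 0) (p (nat_lit 0x8585048402) (nat_lit 0) (p (nat_lit 0x160004) (nat_lit 0) (p (nat_lit 0x60592) (nat_lit 0) (p (nat_lit 0x48512) (nat_lit 0) (p (nat_lit 0x50392) (nat_lit 0) (p (nat_lit 0x38312) (nat_lit 0) (p (nat_lit 0x40212) (nat_lit 0) (p (nat_lit 0x28192) (nat_lit 0) (p (nat_lit 0x30092) (nat_lit 0) (p (nat_lit 0x18012) (nat_lit 0) pn))))))))))))))))))))))))))) :=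
  Cl.node (nat_lit 0x20000c) (nat_lit 2) (by decide +kernel) (ClAll.succ (ClAll.succ ClAll.zero s97) s98)

def n27 : Cl (O (nat_lit 6)) (R (nat_lit 139473))
    (p (nat_lit 0x20000c) (nat_lit 0) (p (nat_lit 0x111) (nat_lit 1) (p (nat_lit 0x109) (nat_lit 0) (p (nat_lit 0xc9) (nat_lit 1) (p (nat_lit 0x119) (nat_lit 1) (p (nat_lit 0xc1) (nat_lit 0) (p (nat_lit 0x81) (nat_lit 1) (p (nat_lit 0x41) (nat_lit 1) (p (nat_lit 0x10b0a098a889a) (nat_lit 0) (p (nat_lit 0x8a89890a081a) (nat_lit 0) (p (nat_lit 0x10a090888079a) (nat_lit 0) (p (nat_lit 0x89888807871a) (nat_lit 0) (p (nat_lit 0x8000080000000090788868a) (nat_lit 0) (p (nat_lit 0x8000080000000088706860a) (nat_lit 0) (p (nat_lit 0x10706878582) (nat_lit 0) (p (nat_lit 0x8686070502) (nat_lit 0) (p (nat_lit 0x10605850482) (nat_lit 0) (p (nat_lit 0x8585048402) (nat_lit 0) (p (nat_lit 0x160004) (nat_lit 0) (p (nat_lit 0x60592) (nat_lit 0) (p (nat_lit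 0x48512) (nat_lit 0) (p (nat_lit 0x50392) (nat_lit 0) (p (nat_lit 0x38312) (nat_lit 0) (p (nat_lit 0x40212) (nat_lit 0) (p (nat_lit 0x28192) (nat_lit 0) (p (nat_lit 0x30092) (nat_lit 0) (p (nat_lit 0x18012) (nat_lit 0) pn))))))))))))))))))))))))))) :=
  Cl.node (nat_lit 0x200014) (nat_lit 2) (by decide +kernel) (ClAll.succ (ClAll.succ ClAll.zero s116) s117)

def n28 : Cl (O (nat_lit 6)) (R (nat_lit 139473))
    (p (nat_lit 0xc9) (nat_lit 1) (p (nat_lit 0x109) (nat_lit 1) (p (nat_lit 0x101) (nat_lit 0) (p (nat_lit 0x119) (nat_lit 0) (p (nat_lit 0xd1) (nat_lit 0) (p (nat_lit 0x89) (nat_lit 0) (p (nat_lit 0x41) (nat_lit 0) (p (nat_lit 0x10b0a098a889a) (nat_lit 0) (p (nat_lit 0x8a89890a081a) (nat_lit 0) (p (nat_lit 0x10a090888079a) (nat_lit 0) (p (nat_lit 0x89888807871a) (nat_lit 0) (p (nat_lit 0x8000080000000090788868a) (nat_lit 0) (p (nat_lit 0x8000080000000088706860a) (nat_lit 0) (p (nat_lit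 0x10706878582) (nat_lit 0) (p (nat_lit 0x8686070502) (nat_lit 0) (p (nat_lit 0x10605850482) (nat_lit 0) (p (nat_lit 0x8585048402) (nat_lit 0) (p (nat_lit 0x160004) (nat_lit 0) (p (nat_lit 0x60592) (nat_lit 0) (p (nat_lit 0x48512) (nat_lit 0) (p (nat_lit 0x50392) (nat_lit 0) (p (nat_lit 0x38312) (nat_lit 0) (p (nat_lit 0x40212) (nat_lit 0) (p (nat_lit 0x28192) (nat_lit 0) (p (nat_lit 0x30092) (nat_lit 0) (p (nat_lit 0x18012) (nat_lit 0) pn)))))))))))))))))))))))))) :=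
  Cl.node (nat_lit 0x20000c) (nat_lit 2) (by decide +kernel) (ClAll.succ (ClAll.succ ClAll.zero s2) n12)

def n29 : Cl (O (nat_lit 6)) (R (nat_lit 139473))
    (p (nat_lit 0xc9) (nat_lit 0) (p (nat_lit 0x81) (nat_lit 0) (p (nat_lit 0x101) (nat_lit 1) (p (nat_lit 0x119) (nat_lit 0) (p (nat_lit 0xd1) (nat_lit 0) (p (nat_lit 0x89) (nat_lit 0) (p (nat_lit 0x41) (nat_lit 0) (p (nat_lit 0x10b0a098a889a) (nat_lit 0) (p (nat_lit 0x8a89890a081a) (nat_lit 0) (p (nat_lit 0x10a090888079a) (nat_lit 0) (p (nat_lit 0x89888807871a) (nat_lit 0) (p (nat_lit 0x8000080000000090788868a) (nat_lit 0) (p (nat_lit 0x8000080000000088706860a) (nat_lit 0) (p (nat_lit 0x10706878582) (nat_lit 0) (p (nat_lit 0x8686070502) (nat_lit 0) (p (nat_lit 0x10605850482) (nat_lit 0) (p (nat_lit 0x8585048402) (nat_lit 0) (p (nat_lit 0x160004) (nat_lit 0) (p (nat_lit 0x60592) (nat_lit 0) (p (nat_lit 0x48512) (nat_lit 0) (p (nat_lit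 0x50392) (nat_lit 0) (p (nat_lit 0x38312) (nat_lit 0) (p (nat_lit 0x40212) (nat_lit 0) (p (nat_lit 0x28192) (nat_lit 0) (p (nat_lit 0x30092) (nat_lit 0) (p (nat_lit 0x18012) (nat_lit 0) pn)))))))))))))))))))))))))) :=
  Cl.node (nat_lit 0x20000c) (nat_lit 2) (by decide +kernel) (ClAll.succ (ClAll.succ ClAll.zero s6) s7)

def n30 : Cl (O (nat_lit 6)) (R (nat_lit 139473))
    (p (nat_lit 0xc9) (nat_lit 1) (p (nat_lit 0x81) (nat_lit 0) (p (nat_lit 0x101) (nat_lit 1) (p (nat_lit 0x119) (nat_lit 0) (p (nat_lit 0xd1) (nat_lit 0) (p (nat_lit 0x89) (nat_lit 0) (p (nat_lit 0x41) (nat_lit 0) (p (nat_lit 0x10b0a098a889a) (nat_lit 0) (p (nat_lit 0x8a89890a081a) (nat_lit 0) (p (nat_lit 0x10a090888079a) (nat_lit 0) (p (nat_lit 0x89888807871a) (nat_lit 0) (p (nat_lit 0x8000080000000090788868a) (nat_lit 0) (p (nat_lit 0x8000080000000088706860a) (nat_lit 0) (p (nat_lit 0x10706878582) (nat_lit 0) (p (nat_lit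 0x8686070502) (nat_lit 0) (p (nat_lit 0x10605850482) (nat_lit 0) (p (nat_lit 0x8585048402) (nat_lit 0) (p (nat_lit 0x160004) (nat_lit 0) (p (nat_lit 0x60592) (nat_lit 0) (p (nat_lit 0x48512) (nat_lit 0) (p (nat_lit 0x50392) (nat_lit 0) (p (nat_lit 0x38312) (nat_lit 0) (p (nat_lit 0x40212) (nat_lit 0) (p (nat_lit 0x28192) (nat_lit 0) (p (nat_lit 0x30092) (nat_lit 0) (p (nat_lit 0x18012) (nat_lit 0) pn)))))))))))))))))))))))))) :=
  Cl.node (nat_lit 0x20000c) (nat_lit 2) (by decide +kernel) (ClAll.succ (ClAll.succ ClAll.zero n13) n14)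

def n31 : Cl (O (nat_lit 6)) (R (nat_lit 139473))
    (p (nat_lit 0xc1) (nat_lit 0) (p (nat_lit 0x81) (nat_lit 1) (p (nat_lit 0x101) (nat_lit 1) (p (nat_lit 0x119) (nat_lit 0) (p (nat_lit 0xd1) (nat_lit 0) (p (nat_lit 0x89) (nat_lit 0) (p (nat_lit 0x41) (nat_lit 0) (p (nat_lit 0x10b0a098a889a) (nat_lit 0) (p (nat_lit 0x8a89890a081a) (nat_lit 0) (p (nat_lit 0x10a090888079a) (nat_lit 0) (p (nat_lit 0x89888807871a) (nat_lit 0) (p (nat_lit 0x8000080000000090788868a) (nat_lit 0) (p (nat_lit 0x8000080000000088706860a) (nat_lit 0) (p (nat_lit 0x10706878582) (nat_lit 0) (p (nat_lit 0x8686070502) (nat_lit 0) (p (nat_lit 0x10605850482) (nat_lit 0) (p (nat_lit 0x8585048402) (nat_lit 0) (p (nat_lit 0x160004) (nat_lit 0) (p (nat_lit 0x60592) (nat_lit 0) (p (nat_lit 0x48512) (nat_lit 0) (p (nat_lit 0x50392) (nat_lit 0) (p (nat_lit 0x38312) (nat_lit 0) (p (nat_lit 0x40212) (nat_lit 0) (p (nat_lit 0x28192)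 (nat_lit 0) (p (nat_lit 0x30092) (nat_lit 0) (p (nat_lit 0x18012) (nat_lit 0) pn)))))))))))))))))))))))))) :=
  Cl.node (nat_lit 0xc9) (nat_lit 2) (by decide +kernel) (ClAll.succ (ClAll.succ ClAll.zero s14) n15)

def n32 : Cl (O (nat_lit 6)) (R (nat_lit 139473))
    (p (nat_lit 0x101) (nat_lit 0) (p (nat_lit 0x81) (nat_lit 1) (p (nat_lit 0xc1) (nat_lit 1) (p (nat_lit 0x119) (nat_lit 1) (p (nat_lit 0xd1) (nat_lit 0) (p (nat_lit 0x89) (nat_lit 0) (p (nat_lit 0x41) (nat_lit 0) (p (nat_lit 0x10b0a098a889a) (nat_lit 0) (p (nat_lit 0x8a89890a081a) (nat_lit 0) (p (nat_lit 0x10a090888079a) (nat_lit 0) (p (nat_lit 0x89888807871a) (nat_lit 0) (p (nat_lit 0x8000080000000090788868a) (nat_lit 0) (p (nat_lit 0x8000080000000088706860a) (nat_lit 0) (p (nat_lit 0x10706878582) (nat_lit 0) (p (nat_lit 0x8686070502) (nat_lit 0) (p (nat_lit 0x10605850482) (nat_lit 0) (p (nat_lit 0x8585048402) (nat_lit 0) (p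 (nat_lit 0x160004) (nat_lit 0) (p (nat_lit 0x60592) (nat_lit 0) (p (nat_lit 0x48512) (nat_lit 0) (p (nat_lit 0x50392) (nat_lit 0) (p (nat_lit 0x38312) (nat_lit 0) (p (nat_lit 0x40212) (nat_lit 0) (p (nat_lit 0x28192) (nat_lit 0) (p (nat_lit 0x30092) (nat_lit 0) (p (nat_lit 0x18012) (nat_lit 0) pn)))))))))))))))))))))))))) :=
  Cl.node (nat_lit 0x109) (nat_lit 2) (by decide +kernel) (ClAll.succ (ClAll.succ ClAll.zero s23) n16)

def n33 : Cl (O (nat_lit 6)) (R (nat_lit 139473))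
    (p (nat_lit 0x101) (nat_lit 1) (p (nat_lit 0x81) (nat_lit 1) (p (nat_lit 0xc1) (nat_lit 1) (p (nat_lit 0x119) (nat_lit 1) (p (nat_lit 0xd1) (nat_lit 0) (p (nat_lit 0x89) (nat_lit 0) (p (nat_lit 0x41) (nat_lit 0) (p (nat_lit 0x10b0a098a889a) (nat_lit 0) (p (nat_lit 0x8a89890a081a) (nat_lit 0) (p (nat_lit 0x10a090888079a) (nat_lit 0) (p (nat_lit 0x89888807871a) (nat_lit 0) (p (nat_lit 0x8000080000000090788868a) (nat_lit 0) (p (nat_lit 0x8000080000000088706860a) (nat_lit 0) (p (nat_lit 0x10706878582) (nat_lit 0) (p (nat_lit 0x8686070502) (nat_lit 0) (p (nat_lit 0x10605850482) (nat_lit 0) (p (nat_lit 0x8585048402) (nat_lit 0) (p (nat_lit 0x160004) (nat_lit 0) (p (nat_lit 0x60592) (nat_lit 0) (p (nat_lit 0x48512) (nat_lit 0) (p (nat_lit 0x50392) (nat_lit 0) (p (nat_lit 0x38312) (nat_lit 0) (p (nat_lit 0x40212) (nat_lit 0) (p (nat_lit 0x28192) (nat_lit 0) (p (nat_lit 0x30092) (nat_lit 0)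 (p (nat_lit 0x18012) (nat_lit 0) pn)))))))))))))))))))))))))) :=
  Cl.node (nat_lit 0x20000c) (nat_lit 2) (by decide +kernel) (ClAll.succ (ClAll.succ ClAll.zero s28) s29)

def n34 : Cl (O (nat_lit 6)) (R (nat_lit 139473))
    (p (nat_lit 0xc1) (nat_lit 0) (p (nat_lit 0x81) (nat_lit 1) (p (nat_lit 0x101) (nat_lit 1) (p (nat_lit 0x111) (nat_lit 0) (p (nat_lit 0xd1) (nat_lit 1) (p (nat_lit 0x89) (nat_lit 0) (p (nat_lit 0x41) (nat_lit 0) (p (nat_lit 0x10b0a098a889a) (nat_lit 0) (p (nat_lit 0x8a89890a081a) (nat_lit 0) (p (nat_lit 0x10a090888079a) (nat_lit 0) (p (nat_lit 0x89888807871a) (nat_lit 0) (p (nat_lit 0x8000080000000090788868a) (nat_lit 0) (p (nat_lit 0x8000080000000088706860a) (nat_lit 0) (p (nat_lit 0x10706878582) (nat_lit 0) (p (nat_lit 0x8686070502) (nat_lit 0) (p (nat_lit 0x10605850482) (nat_lit 0) (p (nat_lit 0x8585048402) (nat_lit 0) (p (nat_lit 0x160004) (nat_lit 0) (p (nat_lit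 0x60592) (nat_lit 0) (p (nat_lit 0x48512) (nat_lit 0) (p (nat_lit 0x50392) (nat_lit 0) (p (nat_lit 0x38312) (nat_lit 0) (p (nat_lit 0x40212) (nat_lit 0) (p (nat_lit 0x28192) (nat_lit 0) (p (nat_lit 0x30092) (nat_lit 0) (p (nat_lit 0x18012) (nat_lit 0) pn)))))))))))))))))))))))))) :=
  Cl.node (nat_lit 0x20000c) (nat_lit 2) (by decide +kernel) (ClAll.succ (ClAll.succ ClAll.zero s35) n17)

def n35 : Cl (O (nat_lit 6)) (R (nat_lit 139473))
    (p (nat_lit 0x111) (nat_lit 1) (p (nat_lit 0x109) (nat_lit 0) (p (nat_lit 0x101) (nat_lit 0) (p (nat_lit 0x119) (nat_lit 0) (p (nat_lit 0xc9) (nat_lit 0) (p (nat_lit 0x89) (nat_lit 1) (p (nat_lit 0x41) (nat_lit 0) (p (nat_lit 0x10b0a098a889a) (nat_lit 0) (p (nat_lit 0x8a89890a081a) (nat_lit 0) (p (nat_lit 0x10a090888079a) (nat_lit 0) (p (nat_lit 0x89888807871a) (nat_lit 0) (p (nat_lit 0x8000080000000090788868a) (nat_lit 0) (p (nat_lit 0x8000080000000088706860a)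 (nat_lit 0) (p (nat_lit 0x10706878582) (nat_lit 0) (p (nat_lit 0x8686070502) (nat_lit 0) (p (nat_lit 0x10605850482) (nat_lit 0) (p (nat_lit 0x8585048402) (nat_lit 0) (p (nat_lit 0x160004) (nat_lit 0) (p (nat_lit 0x60592) (nat_lit 0) (p (nat_lit 0x48512) (nat_lit 0) (p (nat_lit 0x50392) (nat_lit 0) (p (nat_lit 0x38312) (nat_lit 0) (p (nat_lit 0x40212) (nat_lit 0) (p (nat_lit 0x28192) (nat_lit 0) (p (nat_lit 0x30092) (nat_lit 0) (p (nat_lit 0x18012) (nat_lit 0) pn)))))))))))))))))))))))))) :=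
  Cl.node (nat_lit 0xd1) (nat_lit 2) (by decide +kernel) (ClAll.succ (ClAll.succ ClAll.zero s46) n18)

def n36 : Cl (O (nat_lit 6)) (R (nat_lit 139473))
    (p (nat_lit 0xd1) (nat_lit 1) (p (nat_lit 0x109) (nat_lit 1) (p (nat_lit 0x101) (nat_lit 0) (p (nat_lit 0x119) (nat_lit 0) (p (nat_lit 0xc9) (nat_lit 0) (p (nat_lit 0x89) (nat_lit 1) (p (nat_lit 0x41) (nat_lit 0) (p (nat_lit 0x10b0a098a889a) (nat_lit 0) (p (nat_lit 0x8a89890a081a) (nat_lit 0) (p (nat_lit 0x10a090888079a) (nat_lit 0) (p (nat_lit 0x89888807871a) (nat_lit 0) (p (nat_lit 0x8000080000000090788868a) (nat_lit 0) (p (nat_lit 0x8000080000000088706860a) (nat_lit 0) (p (nat_lit 0x10706878582) (nat_lit 0) (p (nat_lit 0x8686070502) (nat_lit 0) (p (nat_lit 0x10605850482) (nat_lit 0) (p (nat_lit 0x8585048402) (nat_lit 0) (p (nat_lit 0x160004) (nat_lit 0) (p (nat_lit 0x60592) (nat_lit 0) (p (nat_lit 0x48512) (nat_lit 0) (p (nat_lit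 0x50392) (nat_lit 0) (p (nat_lit 0x38312) (nat_lit 0) (p (nat_lit 0x40212) (nat_lit 0) (p (nat_lit 0x28192) (nat_lit 0) (p (nat_lit 0x30092) (nat_lit 0) (p (nat_lit 0x18012) (nat_lit 0) pn)))))))))))))))))))))))))) :=
  Cl.node (nat_lit 0x20000c) (nat_lit 2) (by decide +kernel) (ClAll.succ (ClAll.succ ClAll.zero s50) n19)

def n37 : Cl (O (nat_lit 6)) (R (nat_lit 139473))
    (p (nat_lit 0xd1) (nat_lit 0) (p (nat_lit 0xc1) (nat_lit 0) (p (nat_lit 0x101) (nat_lit 1) (p (nat_lit 0x119) (nat_lit 0) (p (nat_lit 0xc9) (nat_lit 0) (p (nat_lit 0x89) (nat_lit 1) (p (nat_lit 0x41) (nat_lit 0) (p (nat_lit 0x10b0a098a889a) (nat_lit 0) (p (nat_lit 0x8a89890a081a) (nat_lit 0) (p (nat_lit 0x10a090888079a) (nat_lit 0) (p (nat_lit 0x89888807871a) (nat_lit 0) (p (nat_lit 0x8000080000000090788868a) (nat_lit 0) (p (nat_lit 0x8000080000000088706860a) (nat_lit 0) (p (nat_lit 0x10706878582) (nat_lit 0) (p (nat_lit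 0x8686070502) (nat_lit 0) (p (nat_lit 0x10605850482) (nat_lit 0) (p (nat_lit 0x8585048402) (nat_lit 0) (p (nat_lit 0x160004) (nat_lit 0) (p (nat_lit 0x60592) (nat_lit 0) (p (nat_lit 0x48512) (nat_lit 0) (p (nat_lit 0x50392) (nat_lit 0) (p (nat_lit 0x38312) (nat_lit 0) (p (nat_lit 0x40212) (nat_lit 0) (p (nat_lit 0x28192) (nat_lit 0) (p (nat_lit 0x30092) (nat_lit 0) (p (nat_lit 0x18012) (nat_lit 0) pn)))))))))))))))))))))))))) :=
  Cl.node (nat_lit 0x20000c) (nat_lit 2) (by decide +kernel) (ClAll.succ (ClAll.succ ClAll.zero s55) s56)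

def n38 : Cl (O (nat_lit 6)) (R (nat_lit 139473))
    (p (nat_lit 0x111) (nat_lit 1) (p (nat_lit 0x101) (nat_lit 0) (p (nat_lit 0xc1) (nat_lit 1) (p (nat_lit 0x119) (nat_lit 1) (p (nat_lit 0xc9) (nat_lit 0) (p (nat_lit 0x89) (nat_lit 1) (p (nat_lit 0x41) (nat_lit 0) (p (nat_lit 0x10b0a098a889a) (nat_lit 0) (p (nat_lit 0x8a89890a081a) (nat_lit 0) (p (nat_lit 0x10a090888079a) (nat_lit 0) (p (nat_lit 0x89888807871a) (nat_lit 0) (p (nat_lit 0x8000080000000090788868a) (nat_lit 0) (p (nat_lit 0x8000080000000088706860a) (nat_lit 0) (p (nat_lit 0x10706878582) (nat_lit 0) (p (nat_lit 0x8686070502) (nat_lit 0) (p (nat_lit 0x10605850482) (nat_lit 0) (p (nat_lit 0x8585048402) (nat_lit 0) (p (nat_lit 0x160004) (nat_lit 0) (p (nat_lit 0x60592) (nat_lit 0) (p (nat_lit 0x48512) (nat_lit 0) (p (nat_lit 0x50392) (nat_lit 0) (p (nat_lit 0x38312) (nat_lit 0) (p (nat_lit 0x40212) (nat_lit 0) (p (nat_lit 0x28192)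 (nat_lit 0) (p (nat_lit 0x30092) (nat_lit 0) (p (nat_lit 0x18012) (nat_lit 0) pn)))))))))))))))))))))))))) :=
  Cl.node (nat_lit 0x20000c) (nat_lit 2) (by decide +kernel) (ClAll.succ (ClAll.succ ClAll.zero s62) s63)

def n39 : Cl (O (nat_lit 6)) (R (nat_lit 139473))
    (p (nat_lit 0x89) (nat_lit 0) (p (nat_lit 0x109) (nat_lit 1) (p (nat_lit 0x101) (nat_lit 0) (p (nat_lit 0x119) (nat_lit 0) (p (nat_lit 0xd1) (nat_lit 0) (p (nat_lit 0x81) (nat_lit 0) (p (nat_lit 0x41) (nat_lit 1) (p (nat_lit 0x10b0a098a889a) (nat_lit 0) (p (nat_lit 0x8a89890a081a) (nat_lit 0) (p (nat_lit 0x10a090888079a) (nat_lit 0) (p (nat_lit 0x89888807871a) (nat_lit 0) (p (nat_lit 0x8000080000000090788868a) (nat_lit 0) (p (nat_lit 0x8000080000000088706860a) (nat_lit 0) (p (nat_lit 0x10706878582) (nat_lit 0) (p (nat_lit 0x8686070502) (nat_lit 0) (p (nat_lit 0x10605850482) (nat_lit 0) (p (nat_lit 0x8585048402) (nat_lit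 0) (p (nat_lit 0x160004) (nat_lit 0) (p (nat_lit 0x60592) (nat_lit 0) (p (nat_lit 0x48512) (nat_lit 0) (p (nat_lit 0x50392) (nat_lit 0) (p (nat_lit 0x38312) (nat_lit 0) (p (nat_lit 0x40212) (nat_lit 0) (p (nat_lit 0x28192) (nat_lit 0) (p (nat_lit 0x30092) (nat_lit 0) (p (nat_lit 0x18012) (nat_lit 0) pn)))))))))))))))))))))))))) :=
  Cl.node (nat_lit 0x20000c) (nat_lit 2) (by decide +kernel) (ClAll.succ (ClAll.succ ClAll.zero n20) s72)

def n40 : Cl (O (nat_lit 6)) (R (nat_lit 139473))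
    (p (nat_lit 0x89) (nat_lit 1) (p (nat_lit 0x109) (nat_lit 1) (p (nat_lit 0x101) (nat_lit 0) (p (nat_lit 0x119) (nat_lit 0) (p (nat_lit 0xd1) (nat_lit 0) (p (nat_lit 0x81) (nat_lit 0) (p (nat_lit 0x41) (nat_lit 1) (p (nat_lit 0x10b0a098a889a) (nat_lit 0) (p (nat_lit 0x8a89890a081a) (nat_lit 0) (p (nat_lit 0x10a090888079a) (nat_lit 0) (p (nat_lit 0x89888807871a) (nat_lit 0) (p (nat_lit 0x8000080000000090788868a) (nat_lit 0) (p (nat_lit 0x8000080000000088706860a) (nat_lit 0) (p (nat_lit 0x10706878582) (nat_lit 0) (p (nat_lit 0x8686070502) (nat_lit 0) (p (nat_lit 0x10605850482) (nat_lit 0) (p (nat_lit 0x8585048402) (nat_lit 0) (p (nat_lit 0x160004) (nat_lit 0) (p (nat_lit 0x60592) (nat_lit 0) (p (nat_lit 0x48512) (nat_lit 0) (p (nat_lit 0x50392) (nat_lit 0) (p (nat_lit 0x38312) (nat_lit 0) (p (nat_lit 0x40212) (nat_lit 0) (p (nat_lit 0x28192) (nat_lit 0) (p (nat_lit 0x30092) (nat_lit 0)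 (p (nat_lit 0x18012) (nat_lit 0) pn)))))))))))))))))))))))))) :=
  Cl.node (nat_lit 0xc9) (nat_lit 2) (by decide +kernel) (ClAll.succ (ClAll.succ ClAll.zero s73) s74)

def n41 : Cl (O (nat_lit 6)) (R (nat_lit 139473))
    (p (nat_lit 0x89) (nat_lit 1) (p (nat_lit 0xc1) (nat_lit 0) (p (nat_lit 0x101) (nat_lit 1) (p (nat_lit 0x119) (nat_lit 0) (p (nat_lit 0xd1) (nat_lit 0) (p (nat_lit 0x81) (nat_lit 0) (p (nat_lit 0x41) (nat_lit 1) (p (nat_lit 0x10b0a098a889a) (nat_lit 0) (p (nat_lit 0x8a89890a081a) (nat_lit 0) (p (nat_lit 0x10a090888079a) (nat_lit 0) (p (nat_lit 0x89888807871a) (nat_lit 0) (p (nat_lit 0x8000080000000090788868a) (nat_lit 0) (p (nat_lit 0x8000080000000088706860a) (nat_lit 0) (p (nat_lit 0x10706878582) (nat_lit 0) (p (nat_lit 0x8686070502) (nat_lit 0) (p (nat_lit 0x10605850482) (nat_lit 0) (p (nat_lit 0x8585048402) (nat_lit 0) (p (nat_lit 0x160004) (nat_lit 0) (p (nat_lit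 0x60592) (nat_lit 0) (p (nat_lit 0x48512) (nat_lit 0) (p (nat_lit 0x50392) (nat_lit 0) (p (nat_lit 0x38312) (nat_lit 0) (p (nat_lit 0x40212) (nat_lit 0) (p (nat_lit 0x28192) (nat_lit 0) (p (nat_lit 0x30092) (nat_lit 0) (p (nat_lit 0x18012) (nat_lit 0) pn)))))))))))))))))))))))))) :=
  Cl.node (nat_lit 0xc9) (nat_lit 2) (by decide +kernel) (ClAll.succ (ClAll.succ ClAll.zero n21) s78)

def n42 : Cl (O (nat_lit 6)) (R (nat_lit 139473))
    (p (nat_lit 0x89) (nat_lit 1) (p (nat_lit 0xc9) (nat_lit 1) (p (nat_lit 0xc1) (nat_lit 0) (p (nat_lit 0x119) (nat_lit 1) (p (nat_lit 0xd1) (nat_lit 0) (p (nat_lit 0x81) (nat_lit 0) (p (nat_lit 0x41) (nat_lit 1) (p (nat_lit 0x10b0a098a889a) (nat_lit 0) (p (nat_lit 0x8a89890a081a) (nat_lit 0) (p (nat_lit 0x10a090888079a) (nat_lit 0) (p (nat_lit 0x89888807871a) (nat_lit 0) (p (nat_lit 0x8000080000000090788868a) (nat_lit 0) (p (nat_lit 0x8000080000000088706860a)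 (nat_lit 0) (p (nat_lit 0x10706878582) (nat_lit 0) (p (nat_lit 0x8686070502) (nat_lit 0) (p (nat_lit 0x10605850482) (nat_lit 0) (p (nat_lit 0x8585048402) (nat_lit 0) (p (nat_lit 0x160004) (nat_lit 0) (p (nat_lit 0x60592) (nat_lit 0) (p (nat_lit 0x48512) (nat_lit 0) (p (nat_lit 0x50392) (nat_lit 0) (p (nat_lit 0x38312) (nat_lit 0) (p (nat_lit 0x40212) (nat_lit 0) (p (nat_lit 0x28192) (nat_lit 0) (p (nat_lit 0x30092) (nat_lit 0) (p (nat_lit 0x18012) (nat_lit 0) pn)))))))))))))))))))))))))) :=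
  Cl.node (nat_lit 0x109) (nat_lit 2) (by decide +kernel) (ClAll.succ (ClAll.succ ClAll.zero n22) n23)

def n43 : Cl (O (nat_lit 6)) (R (nat_lit 139473))
    (p (nat_lit 0x89) (nat_lit 1) (p (nat_lit 0x101) (nat_lit 0) (p (nat_lit 0xc1) (nat_lit 1) (p (nat_lit 0x119) (nat_lit 1) (p (nat_lit 0xd1) (nat_lit 0) (p (nat_lit 0x81) (nat_lit 0) (p (nat_lit 0x41) (nat_lit 1) (p (nat_lit 0x10b0a098a889a) (nat_lit 0) (p (nat_lit 0x8a89890a081a) (nat_lit 0) (p (nat_lit 0x10a090888079a) (nat_lit 0) (p (nat_lit 0x89888807871a) (nat_lit 0) (p (nat_lit 0x8000080000000090788868a) (nat_lit 0) (p (nat_lit 0x8000080000000088706860a) (nat_lit 0) (p (nat_lit 0x10706878582) (nat_lit 0) (p (nat_lit 0x8686070502) (nat_lit 0) (p (nat_lit 0x10605850482) (nat_lit 0) (p (nat_lit 0x8585048402) (nat_lit 0) (p (nat_lit 0x160004) (nat_lit 0) (p (nat_lit 0x60592) (nat_lit 0) (p (nat_lit 0x48512) (nat_lit 0) (p (nat_lit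 0x50392) (nat_lit 0) (p (nat_lit 0x38312) (nat_lit 0) (p (nat_lit 0x40212) (nat_lit 0) (p (nat_lit 0x28192) (nat_lit 0) (p (nat_lit 0x30092) (nat_lit 0) (p (nat_lit 0x18012) (nat_lit 0) pn)))))))))))))))))))))))))) :=
  Cl.node (nat_lit 0x109) (nat_lit 2) (by decide +kernel) (ClAll.succ (ClAll.succ ClAll.zero n24) n25)

def n44 : Cl (O (nat_lit 6)) (R (nat_lit 139473))
    (p (nat_lit 0x89) (nat_lit 1) (p (nat_lit 0x101) (nat_lit 1) (p (nat_lit 0xc1) (nat_lit 1) (p (nat_lit 0x119) (nat_lit 1) (p (nat_lit 0xd1) (nat_lit 0) (p (nat_lit 0x81) (nat_lit 0) (p (nat_lit 0x41) (nat_lit 1) (p (nat_lit 0x10b0a098a889a) (nat_lit 0) (p (nat_lit 0x8a89890a081a) (nat_lit 0) (p (nat_lit 0x10a090888079a) (nat_lit 0) (p (nat_lit 0x89888807871a) (nat_lit 0) (p (nat_lit 0x8000080000000090788868a) (nat_lit 0) (p (nat_lit 0x8000080000000088706860a) (nat_lit 0) (p (nat_lit 0x10706878582) (nat_lit 0) (p (nat_lit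 0x8686070502) (nat_lit 0) (p (nat_lit 0x10605850482) (nat_lit 0) (p (nat_lit 0x8585048402) (nat_lit 0) (p (nat_lit 0x160004) (nat_lit 0) (p (nat_lit 0x60592) (nat_lit 0) (p (nat_lit 0x48512) (nat_lit 0) (p (nat_lit 0x50392) (nat_lit 0) (p (nat_lit 0x38312) (nat_lit 0) (p (nat_lit 0x40212) (nat_lit 0) (p (nat_lit 0x28192) (nat_lit 0) (p (nat_lit 0x30092) (nat_lit 0) (p (nat_lit 0x18012) (nat_lit 0) pn)))))))))))))))))))))))))) :=
  Cl.node (nat_lit 0x20000c) (nat_lit 2) (by decide +kernel) (ClAll.succ (ClAll.succ ClAll.zero s93) s94)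

def n45 : Cl (O (nat_lit 6)) (R (nat_lit 139473))
    (p (nat_lit 0x89) (nat_lit 1) (p (nat_lit 0x109) (nat_lit 1) (p (nat_lit 0x101) (nat_lit 0) (p (nat_lit 0x111) (nat_lit 0) (p (nat_lit 0xd1) (nat_lit 1) (p (nat_lit 0x81) (nat_lit 0) (p (nat_lit 0x41) (nat_lit 1) (p (nat_lit 0x10b0a098a889a) (nat_lit 0) (p (nat_lit 0x8a89890a081a) (nat_lit 0) (p (nat_lit 0x10a090888079a) (nat_lit 0) (p (nat_lit 0x89888807871a) (nat_lit 0) (p (nat_lit 0x8000080000000090788868a) (nat_lit 0) (p (nat_lit 0x8000080000000088706860a) (nat_lit 0) (p (nat_lit 0x10706878582) (nat_lit 0) (p (nat_lit 0x8686070502) (nat_lit 0) (p (nat_lit 0x10605850482) (nat_lit 0) (p (nat_lit 0x8585048402) (nat_lit 0) (p (nat_lit 0x160004) (nat_lit 0) (p (nat_lit 0x60592) (nat_lit 0) (p (nat_lit 0x48512) (nat_lit 0) (p (nat_lit 0x50392) (nat_lit 0) (p (nat_lit 0x38312) (nat_lit 0) (p (nat_lit 0x40212) (nat_lit 0) (p (nat_lit 0x28192)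 (nat_lit 0) (p (nat_lit 0x30092) (nat_lit 0) (p (nat_lit 0x18012) (nat_lit 0) pn)))))))))))))))))))))))))) :=
  Cl.node (nat_lit 0xc9) (nat_lit 2) (by decide +kernel) (ClAll.succ (ClAll.succ ClAll.zero n26) s99)

def n46 : Cl (O (nat_lit 6)) (R (nat_lit 139473))
    (p (nat_lit 0xd1) (nat_lit 0) (p (nat_lit 0xc9) (nat_lit 0) (p (nat_lit 0x101) (nat_lit 1) (p (nat_lit 0x119) (nat_lit 0) (p (nat_lit 0xc1) (nat_lit 0) (p (nat_lit 0x81) (nat_lit 1) (p (nat_lit 0x41) (nat_lit 1) (p (nat_lit 0x10b0a098a889a) (nat_lit 0) (p (nat_lit 0x8a89890a081a) (nat_lit 0) (p (nat_lit 0x10a090888079a) (nat_lit 0) (p (nat_lit 0x89888807871a) (nat_lit 0) (p (nat_lit 0x8000080000000090788868a) (nat_lit 0) (p (nat_lit 0x8000080000000088706860a) (nat_lit 0) (p (nat_lit 0x10706878582) (nat_lit 0) (p (nat_lit 0x8686070502) (nat_lit 0) (p (nat_lit 0x10605850482) (nat_lit 0) (p (nat_lit 0x8585048402) (nat_lit 0) (p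 (nat_lit 0x160004) (nat_lit 0) (p (nat_lit 0x60592) (nat_lit 0) (p (nat_lit 0x48512) (nat_lit 0) (p (nat_lit 0x50392) (nat_lit 0) (p (nat_lit 0x38312) (nat_lit 0) (p (nat_lit 0x40212) (nat_lit 0) (p (nat_lit 0x28192) (nat_lit 0) (p (nat_lit 0x30092) (nat_lit 0) (p (nat_lit 0x18012) (nat_lit 0) pn)))))))))))))))))))))))))) :=
  Cl.node (nat_lit 0x20000c) (nat_lit 2) (by decide +kernel) (ClAll.succ (ClAll.succ ClAll.zero s107) s108)

def n47 : Cl (O (nat_lit 6)) (R (nat_lit 139473))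
    (p (nat_lit 0x111) (nat_lit 1) (p (nat_lit 0xd1) (nat_lit 1) (p (nat_lit 0xc9) (nat_lit 0) (p (nat_lit 0x119) (nat_lit 1) (p (nat_lit 0xc1) (nat_lit 0) (p (nat_lit 0x81) (nat_lit 1) (p (nat_lit 0x41) (nat_lit 1) (p (nat_lit 0x10b0a098a889a) (nat_lit 0) (p (nat_lit 0x8a89890a081a) (nat_lit 0) (p (nat_lit 0x10a090888079a) (nat_lit 0) (p (nat_lit 0x89888807871a) (nat_lit 0) (p (nat_lit 0x8000080000000090788868a) (nat_lit 0) (p (nat_lit 0x8000080000000088706860a) (nat_lit 0) (p (nat_lit 0x10706878582) (nat_lit 0) (p (nat_lit 0x8686070502) (nat_lit 0) (p (nat_lit 0x10605850482) (nat_lit 0) (p (nat_lit 0x8585048402) (nat_lit 0) (p (nat_lit 0x160004) (nat_lit 0) (p (nat_lit 0x60592) (nat_lit 0) (p (nat_lit 0x48512) (nat_lit 0) (p (nat_lit 0x50392) (nat_lit 0) (p (nat_lit 0x38312) (nat_lit 0) (p (nat_lit 0x40212) (nat_lit 0) (p (nat_lit 0x28192) (nat_lit 0) (p (nat_lit 0x30092) (nat_lit 0)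 (p (nat_lit 0x18012) (nat_lit 0) pn)))))))))))))))))))))))))) :=
  Cl.node (nat_lit 0x20000c) (nat_lit 2) (by decide +kernel) (ClAll.succ (ClAll.succ ClAll.zero s113) s114)

def n48 : Cl (O (nat_lit 6)) (R (nat_lit 139473))
    (p (nat_lit 0x111) (nat_lit 1) (p (nat_lit 0x109) (nat_lit 0) (p (nat_lit 0xc9) (nat_lit 1) (p (nat_lit 0x119) (nat_lit 1) (p (nat_lit 0xc1) (nat_lit 0) (p (nat_lit 0x81) (nat_lit 1) (p (nat_lit 0x41) (nat_lit 1) (p (nat_lit 0x10b0a098a889a) (nat_lit 0) (p (nat_lit 0x8a89890a081a) (nat_lit 0) (p (nat_lit 0x10a090888079a) (nat_lit 0) (p (nat_lit 0x89888807871a) (nat_lit 0) (p (nat_lit 0x8000080000000090788868a) (nat_lit 0) (p (nat_lit 0x8000080000000088706860a) (nat_lit 0) (p (nat_lit 0x10706878582) (nat_lit 0) (p (nat_lit 0x8686070502) (nat_lit 0) (p (nat_lit 0x10605850482) (nat_lit 0) (p (nat_lit 0x8585048402) (nat_lit 0) (p (nat_lit 0x160004) (nat_lit 0) (p (nat_lit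 0x60592) (nat_lit 0) (p (nat_lit 0x48512) (nat_lit 0) (p (nat_lit 0x50392) (nat_lit 0) (p (nat_lit 0x38312) (nat_lit 0) (p (nat_lit 0x40212) (nat_lit 0) (p (nat_lit 0x28192) (nat_lit 0) (p (nat_lit 0x30092) (nat_lit 0) (p (nat_lit 0x18012) (nat_lit 0) pn)))))))))))))))))))))))))) :=
  Cl.node (nat_lit 0x20000c) (nat_lit 2) (by decide +kernel) (ClAll.succ (ClAll.succ ClAll.zero n27) s118)

def n49 : Cl (O (nat_lit 6)) (R (nat_lit 139473))
    (p (nat_lit 0x109) (nat_lit 1) (p (nat_lit 0x101) (nat_lit 0) (p (nat_lit 0x119) (nat_lit 0) (p (nat_lit 0xd1) (nat_lit 0) (p (nat_lit 0x89) (nat_lit 0) (p (nat_lit 0x41) (nat_lit 0) (p (nat_lit 0x10b0a098a889a) (nat_lit 0) (p (nat_lit 0x8a89890a081a) (nat_lit 0) (p (nat_lit 0x10a090888079a) (nat_lit 0) (p (nat_lit 0x89888807871a) (nat_lit 0) (p (nat_lit 0x8000080000000090788868a) (nat_lit 0) (p (nat_lit 0x8000080000000088706860a) (nat_lit 0) (p (nat_lit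 0x10706878582) (nat_lit 0) (p (nat_lit 0x8686070502) (nat_lit 0) (p (nat_lit 0x10605850482) (nat_lit 0) (p (nat_lit 0x8585048402) (nat_lit 0) (p (nat_lit 0x160004) (nat_lit 0) (p (nat_lit 0x60592) (nat_lit 0) (p (nat_lit 0x48512) (nat_lit 0) (p (nat_lit 0x50392) (nat_lit 0) (p (nat_lit 0x38312) (nat_lit 0) (p (nat_lit 0x40212) (nat_lit 0) (p (nat_lit 0x28192) (nat_lit 0) (p (nat_lit 0x30092) (nat_lit 0) (p (nat_lit 0x18012) (nat_lit 0) pn))))))))))))))))))))))))) :=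
  Cl.node (nat_lit 0xc9) (nat_lit 2) (by decide +kernel) (ClAll.succ (ClAll.succ ClAll.zero s1) n28)

def n50 : Cl (O (nat_lit 6)) (R (nat_lit 139473))
    (p (nat_lit 0x81) (nat_lit 0) (p (nat_lit 0x101) (nat_lit 1) (p (nat_lit 0x119) (nat_lit 0) (p (nat_lit 0xd1) (nat_lit 0) (p (nat_lit 0x89) (nat_lit 0) (p (nat_lit 0x41) (nat_lit 0) (p (nat_lit 0x10b0a098a889a) (nat_lit 0) (p (nat_lit 0x8a89890a081a) (nat_lit 0) (p (nat_lit 0x10a090888079a) (nat_lit 0) (p (nat_lit 0x89888807871a) (nat_lit 0) (p (nat_lit 0x8000080000000090788868a) (nat_lit 0) (p (nat_lit 0x8000080000000088706860a) (nat_lit 0) (p (nat_lit 0x10706878582) (nat_lit 0) (p (nat_lit 0x8686070502) (nat_lit 0) (p (nat_lit 0x10605850482) (nat_lit 0) (p (nat_lit 0x8585048402) (nat_lit 0) (p (nat_lit 0x160004) (nat_lit 0) (p (nat_lit 0x60592) (nat_lit 0) (p (nat_lit 0x48512) (nat_lit 0) (p (nat_lit 0x50392) (nat_lit 0) (p (nat_lit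 0x38312) (nat_lit 0) (p (nat_lit 0x40212) (nat_lit 0) (p (nat_lit 0x28192) (nat_lit 0) (p (nat_lit 0x30092) (nat_lit 0) (p (nat_lit 0x18012) (nat_lit 0) pn))))))))))))))))))))))))) :=
  Cl.node (nat_lit 0xc9) (nat_lit 2) (by decide +kernel) (ClAll.succ (ClAll.succ ClAll.zero n29) n30)

def n51 : Cl (O (nat_lit 6)) (R (nat_lit 139473))
    (p (nat_lit 0x81) (nat_lit 1) (p (nat_lit 0x101) (nat_lit 1) (p (nat_lit 0x119) (nat_lit 0) (p (nat_lit 0xd1) (nat_lit 0) (p (nat_lit 0x89) (nat_lit 0) (p (nat_lit 0x41) (nat_lit 0) (p (nat_lit 0x10b0a098a889a) (nat_lit 0) (p (nat_lit 0x8a89890a081a) (nat_lit 0) (p (nat_lit 0x10a090888079a) (nat_lit 0) (p (nat_lit 0x89888807871a) (nat_lit 0) (p (nat_lit 0x8000080000000090788868a) (nat_lit 0) (p (nat_lit 0x8000080000000088706860a) (nat_lit 0) (p (nat_lit 0x10706878582) (nat_lit 0) (p (nat_lit 0x8686070502) (nat_lit 0) (p (nat_lit 0x10605850482) (nat_lit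 0) (p (nat_lit 0x8585048402) (nat_lit 0) (p (nat_lit 0x160004) (nat_lit 0) (p (nat_lit 0x60592) (nat_lit 0) (p (nat_lit 0x48512) (nat_lit 0) (p (nat_lit 0x50392) (nat_lit 0) (p (nat_lit 0x38312) (nat_lit 0) (p (nat_lit 0x40212) (nat_lit 0) (p (nat_lit 0x28192) (nat_lit 0) (p (nat_lit 0x30092) (nat_lit 0) (p (nat_lit 0x18012) (nat_lit 0) pn))))))))))))))))))))))))) :=
  Cl.node (nat_lit 0xc1) (nat_lit 2) (by decide +kernel) (ClAll.succ (ClAll.succ ClAll.zero n31) s19)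

def n52 : Cl (O (nat_lit 6)) (R (nat_lit 139473))
    (p (nat_lit 0x81) (nat_lit 1) (p (nat_lit 0xc1) (nat_lit 1) (p (nat_lit 0x119) (nat_lit 1) (p (nat_lit 0xd1) (nat_lit 0) (p (nat_lit 0x89) (nat_lit 0) (p (nat_lit 0x41) (nat_lit 0) (p (nat_lit 0x10b0a098a889a) (nat_lit 0) (p (nat_lit 0x8a89890a081a) (nat_lit 0) (p (nat_lit 0x10a090888079a) (nat_lit 0) (p (nat_lit 0x89888807871a) (nat_lit 0) (p (nat_lit 0x8000080000000090788868a) (nat_lit 0) (p (nat_lit 0x8000080000000088706860a) (nat_lit 0) (p (nat_lit 0x10706878582) (nat_lit 0) (p (nat_lit 0x8686070502) (nat_lit 0) (p (nat_lit 0x10605850482) (nat_lit 0) (p (nat_lit 0x8585048402) (nat_lit 0) (p (nat_lit 0x160004) (nat_lit 0) (p (nat_lit 0x60592) (nat_lit 0) (p (nat_lit 0x48512) (nat_lit 0) (p (nat_lit 0x50392) (nat_lit 0) (p (nat_lit 0x38312) (nat_lit 0) (p (nat_lit 0x40212) (nat_lit 0) (p (nat_lit 0x28192) (nat_lit 0) (p (nat_lit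 0x30092) (nat_lit 0) (p (nat_lit 0x18012) (nat_lit 0) pn))))))))))))))))))))))))) :=
  Cl.node (nat_lit 0x101) (nat_lit 2) (by decide +kernel) (ClAll.succ (ClAll.succ ClAll.zero n32) n33)

def n53 : Cl (O (nat_lit 6)) (R (nat_lit 139473))
    (p (nat_lit 0x109) (nat_lit 1) (p (nat_lit 0x101) (nat_lit 0) (p (nat_lit 0x111) (nat_lit 0) (p (nat_lit 0xd1) (nat_lit 1) (p (nat_lit 0x89) (nat_lit 0) (p (nat_lit 0x41) (nat_lit 0) (p (nat_lit 0x10b0a098a889a) (nat_lit 0) (p (nat_lit 0x8a89890a081a) (nat_lit 0) (p (nat_lit 0x10a090888079a) (nat_lit 0) (p (nat_lit 0x89888807871a) (nat_lit 0) (p (nat_lit 0x8000080000000090788868a) (nat_lit 0) (p (nat_lit 0x8000080000000088706860a) (nat_lit 0) (p (nat_lit 0x10706878582) (nat_lit 0) (p (nat_lit 0x8686070502) (nat_lit 0) (p (nat_lit 0x10605850482) (nat_lit 0) (p (nat_lit 0x8585048402) (nat_lit 0) (p (nat_lit 0x160004) (nat_lit 0) (p (nat_lit 0x60592)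 (nat_lit 0) (p (nat_lit 0x48512) (nat_lit 0) (p (nat_lit 0x50392) (nat_lit 0) (p (nat_lit 0x38312) (nat_lit 0) (p (nat_lit 0x40212) (nat_lit 0) (p (nat_lit 0x28192) (nat_lit 0) (p (nat_lit 0x30092) (nat_lit 0) (p (nat_lit 0x18012) (nat_lit 0) pn))))))))))))))))))))))))) :=
  Cl.node (nat_lit 0x20000c) (nat_lit 2) (by decide +kernel) (ClAll.succ (ClAll.succ ClAll.zero s31) s32)

def n54 : Cl (O (nat_lit 6)) (R (nat_lit 139473))
    (p (nat_lit 0x81) (nat_lit 0) (p (nat_lit 0x101) (nat_lit 1) (p (nat_lit 0x111) (nat_lit 0) (p (nat_lit 0xd1) (nat_lit 1) (p (nat_lit 0x89) (nat_lit 0) (p (nat_lit 0x41) (nat_lit 0) (p (nat_lit 0x10b0a098a889a) (nat_lit 0) (p (nat_lit 0x8a89890a081a) (nat_lit 0) (p (nat_lit 0x10a090888079a) (nat_lit 0) (p (nat_lit 0x89888807871a) (nat_lit 0) (p (nat_lit 0x8000080000000090788868a) (nat_lit 0) (p (nat_lit 0x8000080000000088706860a) (nat_lit 0) (p (nat_lit 0x10706878582)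 (nat_lit 0) (p (nat_lit 0x8686070502) (nat_lit 0) (p (nat_lit 0x10605850482) (nat_lit 0) (p (nat_lit 0x8585048402) (nat_lit 0) (p (nat_lit 0x160004) (nat_lit 0) (p (nat_lit 0x60592) (nat_lit 0) (p (nat_lit 0x48512) (nat_lit 0) (p (nat_lit 0x50392) (nat_lit 0) (p (nat_lit 0x38312) (nat_lit 0) (p (nat_lit 0x40212) (nat_lit 0) (p (nat_lit 0x28192) (nat_lit 0) (p (nat_lit 0x30092) (nat_lit 0) (p (nat_lit 0x18012) (nat_lit 0) pn))))))))))))))))))))))))) :=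
  Cl.node (nat_lit 0x20000c) (nat_lit 2) (by decide +kernel) (ClAll.succ (ClAll.succ ClAll.zero s33) s34)

def n55 : Cl (O (nat_lit 6)) (R (nat_lit 139473))
    (p (nat_lit 0x81) (nat_lit 1) (p (nat_lit 0x101) (nat_lit 1) (p (nat_lit 0x111) (nat_lit 0) (p (nat_lit 0xd1) (nat_lit 1) (p (nat_lit 0x89) (nat_lit 0) (p (nat_lit 0x41) (nat_lit 0) (p (nat_lit 0x10b0a098a889a) (nat_lit 0) (p (nat_lit 0x8a89890a081a) (nat_lit 0) (p (nat_lit 0x10a090888079a) (nat_lit 0) (p (nat_lit 0x89888807871a) (nat_lit 0) (p (nat_lit 0x8000080000000090788868a) (nat_lit 0) (p (nat_lit 0x8000080000000088706860a) (nat_lit 0) (p (nat_lit 0x10706878582) (nat_lit 0) (p (nat_lit 0x8686070502) (nat_lit 0) (p (nat_lit 0x10605850482) (nat_lit 0) (p (nat_lit 0x8585048402) (nat_lit 0) (p (nat_lit 0x160004) (nat_lit 0) (p (nat_lit 0x60592) (nat_lit 0) (p (nat_lit 0x48512) (nat_lit 0) (p (nat_lit 0x50392) (nat_lit 0) (p (nat_lit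 0x38312) (nat_lit 0) (p (nat_lit 0x40212) (nat_lit 0) (p (nat_lit 0x28192) (nat_lit 0) (p (nat_lit 0x30092) (nat_lit 0) (p (nat_lit 0x18012) (nat_lit 0) pn))))))))))))))))))))))))) :=
  Cl.node (nat_lit 0xc1) (nat_lit 2) (by decide +kernel) (ClAll.succ (ClAll.succ ClAll.zero n34) s40)

def n56 : Cl (O (nat_lit 6)) (R (nat_lit 139473))
    (p (nat_lit 0xc1) (nat_lit 1) (p (nat_lit 0x81) (nat_lit 1) (p (nat_lit 0x111) (nat_lit 1) (p (nat_lit 0xd1) (nat_lit 1) (p (nat_lit 0x89) (nat_lit 0) (p (nat_lit 0x41) (nat_lit 0) (p (nat_lit 0x10b0a098a889a) (nat_lit 0) (p (nat_lit 0x8a89890a081a) (nat_lit 0) (p (nat_lit 0x10a090888079a) (nat_lit 0) (p (nat_lit 0x89888807871a) (nat_lit 0) (p (nat_lit 0x8000080000000090788868a) (nat_lit 0) (p (nat_lit 0x8000080000000088706860a) (nat_lit 0) (p (nat_lit 0x10706878582) (nat_lit 0) (p (nat_lit 0x8686070502) (nat_lit 0) (p (nat_lit 0x10605850482) (nat_lit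 0) (p (nat_lit 0x8585048402) (nat_lit 0) (p (nat_lit 0x160004) (nat_lit 0) (p (nat_lit 0x60592) (nat_lit 0) (p (nat_lit 0x48512) (nat_lit 0) (p (nat_lit 0x50392) (nat_lit 0) (p (nat_lit 0x38312) (nat_lit 0) (p (nat_lit 0x40212) (nat_lit 0) (p (nat_lit 0x28192) (nat_lit 0) (p (nat_lit 0x30092) (nat_lit 0) (p (nat_lit 0x18012) (nat_lit 0) pn))))))))))))))))))))))))) :=
  Cl.node (nat_lit 0x101) (nat_lit 2) (by decide +kernel) (ClAll.succ (ClAll.succ ClAll.zero s43) s44)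

def n57 : Cl (O (nat_lit 6)) (R (nat_lit 139473))
    (p (nat_lit 0x109) (nat_lit 0) (p (nat_lit 0x101) (nat_lit 0) (p (nat_lit 0x119) (nat_lit 0) (p (nat_lit 0xc9) (nat_lit 0) (p (nat_lit 0x89) (nat_lit 1) (p (nat_lit 0x41) (nat_lit 0) (p (nat_lit 0x10b0a098a889a) (nat_lit 0) (p (nat_lit 0x8a89890a081a) (nat_lit 0) (p (nat_lit 0x10a090888079a) (nat_lit 0) (p (nat_lit 0x89888807871a) (nat_lit 0) (p (nat_lit 0x8000080000000090788868a) (nat_lit 0) (p (nat_lit 0x8000080000000088706860a) (nat_lit 0) (p (nat_lit 0x10706878582) (nat_lit 0) (p (nat_lit 0x8686070502) (nat_lit 0) (p (nat_lit 0x10605850482) (nat_lit 0) (p (nat_lit 0x8585048402) (nat_lit 0) (p (nat_lit 0x160004) (nat_lit 0) (p (nat_lit 0x60592) (nat_lit 0) (p (nat_lit 0x48512) (nat_lit 0) (p (nat_lit 0x50392) (nat_lit 0) (p (nat_lit 0x38312) (nat_lit 0) (p (nat_lit 0x40212) (nat_lit 0) (p (nat_lit 0x28192) (nat_lit 0) (p (nat_lit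 0x30092) (nat_lit 0) (p (nat_lit 0x18012) (nat_lit 0) pn))))))))))))))))))))))))) :=
  Cl.node (nat_lit 0x111) (nat_lit 2) (by decide +kernel) (ClAll.succ (ClAll.succ ClAll.zero s45) n35)

def n58 : Cl (O (nat_lit 6)) (R (nat_lit 139473))
    (p (nat_lit 0x109) (nat_lit 1) (p (nat_lit 0x101) (nat_lit 0) (p (nat_lit 0x119) (nat_lit 0) (p (nat_lit 0xc9) (nat_lit 0) (p (nat_lit 0x89) (nat_lit 1) (p (nat_lit 0x41) (nat_lit 0) (p (nat_lit 0x10b0a098a889a) (nat_lit 0) (p (nat_lit 0x8a89890a081a) (nat_lit 0) (p (nat_lit 0x10a090888079a) (nat_lit 0) (p (nat_lit 0x89888807871a) (nat_lit 0) (p (nat_lit 0x8000080000000090788868a) (nat_lit 0) (p (nat_lit 0x8000080000000088706860a) (nat_lit 0) (p (nat_lit 0x10706878582) (nat_lit 0) (p (nat_lit 0x8686070502) (nat_lit 0) (p (nat_lit 0x10605850482) (nat_lit 0) (p (nat_lit 0x8585048402) (nat_lit 0) (p (nat_lit 0x160004) (nat_lit 0) (p (nat_lit 0x60592)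 (nat_lit 0) (p (nat_lit 0x48512) (nat_lit 0) (p (nat_lit 0x50392) (nat_lit 0) (p (nat_lit 0x38312) (nat_lit 0) (p (nat_lit 0x40212) (nat_lit 0) (p (nat_lit 0x28192) (nat_lit 0) (p (nat_lit 0x30092) (nat_lit 0) (p (nat_lit 0x18012) (nat_lit 0) pn))))))))))))))))))))))))) :=
  Cl.node (nat_lit 0xd1) (nat_lit 2) (by decide +kernel) (ClAll.succ (ClAll.succ ClAll.zero s49) n36)

def n59 : Cl (O (nat_lit 6)) (R (nat_lit 139473))
    (p (nat_lit 0xc1) (nat_lit 0) (p (nat_lit 0x101) (nat_lit 1) (p (nat_lit 0x119) (nat_lit 0) (p (nat_lit 0xc9) (nat_lit 0) (p (nat_lit 0x89) (nat_lit 1) (p (nat_lit 0x41) (nat_lit 0) (p (nat_lit 0x10b0a098a889a) (nat_lit 0) (p (nat_lit 0x8a89890a081a) (nat_lit 0) (p (nat_lit 0x10a090888079a) (nat_lit 0) (p (nat_lit 0x89888807871a) (nat_lit 0) (p (nat_lit 0x8000080000000090788868a) (nat_lit 0) (p (nat_lit 0x8000080000000088706860a) (nat_lit 0) (p (nat_lit 0x10706878582)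 (nat_lit 0) (p (nat_lit 0x8686070502) (nat_lit 0) (p (nat_lit 0x10605850482) (nat_lit 0) (p (nat_lit 0x8585048402) (nat_lit 0) (p (nat_lit 0x160004) (nat_lit 0) (p (nat_lit 0x60592) (nat_lit 0) (p (nat_lit 0x48512) (nat_lit 0) (p (nat_lit 0x50392) (nat_lit 0) (p (nat_lit 0x38312) (nat_lit 0) (p (nat_lit 0x40212) (nat_lit 0) (p (nat_lit 0x28192) (nat_lit 0) (p (nat_lit 0x30092) (nat_lit 0) (p (nat_lit 0x18012) (nat_lit 0) pn))))))))))))))))))))))))) :=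
  Cl.node (nat_lit 0xd1) (nat_lit 2) (by decide +kernel) (ClAll.succ (ClAll.succ ClAll.zero n37) s57)

def n60 : Cl (O (nat_lit 6)) (R (nat_lit 139473))
    (p (nat_lit 0x101) (nat_lit 0) (p (nat_lit 0xc1) (nat_lit 1) (p (nat_lit 0x119) (nat_lit 1) (p (nat_lit 0xc9) (nat_lit 0) (p (nat_lit 0x89) (nat_lit 1) (p (nat_lit 0x41) (nat_lit 0) (p (nat_lit 0x10b0a098a889a) (nat_lit 0) (p (nat_lit 0x8a89890a081a) (nat_lit 0) (p (nat_lit 0x10a090888079a) (nat_lit 0) (p (nat_lit 0x89888807871a) (nat_lit 0) (p (nat_lit 0x8000080000000090788868a) (nat_lit 0) (p (nat_lit 0x8000080000000088706860a) (nat_lit 0) (p (nat_lit 0x10706878582) (nat_lit 0) (p (nat_lit 0x8686070502) (nat_lit 0) (p (nat_lit 0x10605850482) (nat_lit 0) (p (nat_lit 0x8585048402) (nat_lit 0) (p (nat_lit 0x160004) (nat_lit 0) (p (nat_lit 0x60592) (nat_lit 0) (p (nat_lit 0x48512) (nat_lit 0) (p (nat_lit 0x50392) (nat_lit 0) (p (nat_lit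 0x38312) (nat_lit 0) (p (nat_lit 0x40212) (nat_lit 0) (p (nat_lit 0x28192) (nat_lit 0) (p (nat_lit 0x30092) (nat_lit 0) (p (nat_lit 0x18012) (nat_lit 0) pn))))))))))))))))))))))))) :=
  Cl.node (nat_lit 0x111) (nat_lit 2) (by decide +kernel) (ClAll.succ (ClAll.succ ClAll.zero s61) n38)

def n61 : Cl (O (nat_lit 6)) (R (nat_lit 139473))
    (p (nat_lit 0x109) (nat_lit 1) (p (nat_lit 0x101) (nat_lit 0) (p (nat_lit 0x119) (nat_lit 0) (p (nat_lit 0xd1) (nat_lit 0) (p (nat_lit 0x81) (nat_lit 0) (p (nat_lit 0x41) (nat_lit 1) (p (nat_lit 0x10b0a098a889a) (nat_lit 0) (p (nat_lit 0x8a89890a081a) (nat_lit 0) (p (nat_lit 0x10a090888079a) (nat_lit 0) (p (nat_lit 0x89888807871a) (nat_lit 0) (p (nat_lit 0x8000080000000090788868a) (nat_lit 0) (p (nat_lit 0x8000080000000088706860a) (nat_lit 0) (p (nat_lit 0x10706878582) (nat_lit 0) (p (nat_lit 0x8686070502) (nat_lit 0) (p (nat_lit 0x10605850482) (nat_lit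 0) (p (nat_lit 0x8585048402) (nat_lit 0) (p (nat_lit 0x160004) (nat_lit 0) (p (nat_lit 0x60592) (nat_lit 0) (p (nat_lit 0x48512) (nat_lit 0) (p (nat_lit 0x50392) (nat_lit 0) (p (nat_lit 0x38312) (nat_lit 0) (p (nat_lit 0x40212) (nat_lit 0) (p (nat_lit 0x28192) (nat_lit 0) (p (nat_lit 0x30092) (nat_lit 0) (p (nat_lit 0x18012) (nat_lit 0) pn))))))))))))))))))))))))) :=
  Cl.node (nat_lit 0x89) (nat_lit 2) (by decide +kernel) (ClAll.succ (ClAll.succ ClAll.zero n39) n40)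

def n62 : Cl (O (nat_lit 6)) (R (nat_lit 139473))
    (p (nat_lit 0xc1) (nat_lit 0) (p (nat_lit 0x101) (nat_lit 1) (p (nat_lit 0x119) (nat_lit 0) (p (nat_lit 0xd1) (nat_lit 0) (p (nat_lit 0x81) (nat_lit 0) (p (nat_lit 0x41) (nat_lit 1) (p (nat_lit 0x10b0a098a889a) (nat_lit 0) (p (nat_lit 0x8a89890a081a) (nat_lit 0) (p (nat_lit 0x10a090888079a) (nat_lit 0) (p (nat_lit 0x89888807871a) (nat_lit 0) (p (nat_lit 0x8000080000000090788868a) (nat_lit 0) (p (nat_lit 0x8000080000000088706860a) (nat_lit 0) (p (nat_lit 0x10706878582) (nat_lit 0) (p (nat_lit 0x8686070502) (nat_lit 0) (p (nat_lit 0x10605850482) (nat_lit 0) (p (nat_lit 0x8585048402) (nat_lit 0) (p (nat_lit 0x160004) (nat_lit 0) (p (nat_lit 0x60592) (nat_lit 0) (p (nat_lit 0x48512) (nat_lit 0) (p (nat_lit 0x50392) (nat_lit 0) (p (nat_lit 0x38312) (nat_lit 0) (p (nat_lit 0x40212) (nat_lit 0) (p (nat_lit 0x28192) (nat_lit 0) (p (nat_lit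 0x30092) (nat_lit 0) (p (nat_lit 0x18012) (nat_lit 0) pn))))))))))))))))))))))))) :=
  Cl.node (nat_lit 0x89) (nat_lit 2) (by decide +kernel) (ClAll.succ (ClAll.succ ClAll.zero s75) n41)

def n63 : Cl (O (nat_lit 6)) (R (nat_lit 139473))
    (p (nat_lit 0xc9) (nat_lit 1) (p (nat_lit 0xc1) (nat_lit 0) (p (nat_lit 0x119) (nat_lit 1) (p (nat_lit 0xd1) (nat_lit 0) (p (nat_lit 0x81) (nat_lit 0) (p (nat_lit 0x41) (nat_lit 1) (p (nat_lit 0x10b0a098a889a) (nat_lit 0) (p (nat_lit 0x8a89890a081a) (nat_lit 0) (p (nat_lit 0x10a090888079a) (nat_lit 0) (p (nat_lit 0x89888807871a) (nat_lit 0) (p (nat_lit 0x8000080000000090788868a) (nat_lit 0) (p (nat_lit 0x8000080000000088706860a) (nat_lit 0) (p (nat_lit 0x10706878582) (nat_lit 0) (p (nat_lit 0x8686070502) (nat_lit 0) (p (nat_lit 0x10605850482) (nat_lit 0) (p (nat_lit 0x8585048402) (nat_lit 0) (p (nat_lit 0x160004) (nat_lit 0) (p (nat_lit 0x60592) (nat_lit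 0) (p (nat_lit 0x48512) (nat_lit 0) (p (nat_lit 0x50392) (nat_lit 0) (p (nat_lit 0x38312) (nat_lit 0) (p (nat_lit 0x40212) (nat_lit 0) (p (nat_lit 0x28192) (nat_lit 0) (p (nat_lit 0x30092) (nat_lit 0) (p (nat_lit 0x18012) (nat_lit 0) pn))))))))))))))))))))))))) :=
  Cl.node (nat_lit 0x89) (nat_lit 2) (by decide +kernel) (ClAll.succ (ClAll.succ ClAll.zero s81) n42)

def n64 : Cl (O (nat_lit 6)) (R (nat_lit 139473))
    (p (nat_lit 0x101) (nat_lit 0) (p (nat_lit 0xc1) (nat_lit 1) (p (nat_lit 0x119) (nat_lit 1) (p (nat_lit 0xd1) (nat_lit 0) (p (nat_lit 0x81) (nat_lit 0) (p (nat_lit 0x41) (nat_lit 1) (p (nat_lit 0x10b0a098a889a) (nat_lit 0) (p (nat_lit 0x8a89890a081a) (nat_lit 0) (p (nat_lit 0x10a090888079a) (nat_lit 0) (p (nat_lit 0x89888807871a) (nat_lit 0) (p (nat_lit 0x8000080000000090788868a) (nat_lit 0) (p (nat_lit 0x8000080000000088706860a) (nat_lit 0) (p (nat_lit 0x10706878582) (nat_lit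 0) (p (nat_lit 0x8686070502) (nat_lit 0) (p (nat_lit 0x10605850482) (nat_lit 0) (p (nat_lit 0x8585048402) (nat_lit 0) (p (nat_lit 0x160004) (nat_lit 0) (p (nat_lit 0x60592) (nat_lit 0) (p (nat_lit 0x48512) (nat_lit 0) (p (nat_lit 0x50392) (nat_lit 0) (p (nat_lit 0x38312) (nat_lit 0) (p (nat_lit 0x40212) (nat_lit 0) (p (nat_lit 0x28192) (nat_lit 0) (p (nat_lit 0x30092) (nat_lit 0) (p (nat_lit 0x18012) (nat_lit 0) pn))))))))))))))))))))))))) :=
  Cl.node (nat_lit 0x89) (nat_lit 2) (by decide +kernel) (ClAll.succ (ClAll.succ ClAll.zero s87) n43)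

def n65 : Cl (O (nat_lit 6)) (R (nat_lit 139473))
    (p (nat_lit 0x101) (nat_lit 1) (p (nat_lit 0xc1) (nat_lit 1) (p (nat_lit 0x119) (nat_lit 1) (p (nat_lit 0xd1) (nat_lit 0) (p (nat_lit 0x81) (nat_lit 0) (p (nat_lit 0x41) (nat_lit 1) (p (nat_lit 0x10b0a098a889a) (nat_lit 0) (p (nat_lit 0x8a89890a081a) (nat_lit 0) (p (nat_lit 0x10a090888079a) (nat_lit 0) (p (nat_lit 0x89888807871a) (nat_lit 0) (p (nat_lit 0x8000080000000090788868a) (nat_lit 0) (p (nat_lit 0x8000080000000088706860a) (nat_lit 0) (p (nat_lit 0x10706878582) (nat_lit 0) (p (nat_lit 0x8686070502) (nat_lit 0) (p (nat_lit 0x10605850482) (nat_lit 0) (p (nat_lit 0x8585048402) (nat_lit 0) (p (nat_lit 0x160004) (nat_lit 0) (p (nat_lit 0x60592) (nat_lit 0) (p (nat_lit 0x48512) (nat_lit 0) (p (nat_lit 0x50392) (nat_lit 0) (p (nat_lit 0x38312) (nat_lit 0) (p (nat_lit 0x40212) (nat_lit 0) (p (nat_lit 0x28192) (nat_lit 0) (p (nat_lit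 0x30092) (nat_lit 0) (p (nat_lit 0x18012) (nat_lit 0) pn))))))))))))))))))))))))) :=
  Cl.node (nat_lit 0x89) (nat_lit 2) (by decide +kernel) (ClAll.succ (ClAll.succ ClAll.zero s92) n44)

def n66 : Cl (O (nat_lit 6)) (R (nat_lit 139473))
    (p (nat_lit 0x109) (nat_lit 1) (p (nat_lit 0x101) (nat_lit 0) (p (nat_lit 0x111) (nat_lit 0) (p (nat_lit 0xd1) (nat_lit 1) (p (nat_lit 0x81) (nat_lit 0) (p (nat_lit 0x41) (nat_lit 1) (p (nat_lit 0x10b0a098a889a) (nat_lit 0) (p (nat_lit 0x8a89890a081a) (nat_lit 0) (p (nat_lit 0x10a090888079a) (nat_lit 0) (p (nat_lit 0x89888807871a) (nat_lit 0) (p (nat_lit 0x8000080000000090788868a) (nat_lit 0) (p (nat_lit 0x8000080000000088706860a) (nat_lit 0) (p (nat_lit 0x10706878582) (nat_lit 0) (p (nat_lit 0x8686070502) (nat_lit 0) (p (nat_lit 0x10605850482) (nat_lit 0) (p (nat_lit 0x8585048402) (nat_lit 0) (p (nat_lit 0x160004) (nat_lit 0) (p (nat_lit 0x60592)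 (nat_lit 0) (p (nat_lit 0x48512) (nat_lit 0) (p (nat_lit 0x50392) (nat_lit 0) (p (nat_lit 0x38312) (nat_lit 0) (p (nat_lit 0x40212) (nat_lit 0) (p (nat_lit 0x28192) (nat_lit 0) (p (nat_lit 0x30092) (nat_lit 0) (p (nat_lit 0x18012) (nat_lit 0) pn))))))))))))))))))))))))) :=
  Cl.node (nat_lit 0x89) (nat_lit 2) (by decide +kernel) (ClAll.succ (ClAll.succ ClAll.zero s96) n45)

def n67 : Cl (O (nat_lit 6)) (R (nat_lit 139473))
    (p (nat_lit 0x89) (nat_lit 1) (p (nat_lit 0x101) (nat_lit 1) (p (nat_lit 0x111) (nat_lit 0) (p (nat_lit 0xd1) (nat_lit 1) (p (nat_lit 0x81) (nat_lit 0) (p (nat_lit 0x41) (nat_lit 1) (p (nat_lit 0x10b0a098a889a) (nat_lit 0) (p (nat_lit 0x8a89890a081a) (nat_lit 0) (p (nat_lit 0x10a090888079a) (nat_lit 0) (p (nat_lit 0x89888807871a) (nat_lit 0) (p (nat_lit 0x8000080000000090788868a) (nat_lit 0) (p (nat_lit 0x8000080000000088706860a) (nat_lit 0) (p (nat_lit 0x10706878582)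 (nat_lit 0) (p (nat_lit 0x8686070502) (nat_lit 0) (p (nat_lit 0x10605850482) (nat_lit 0) (p (nat_lit 0x8585048402) (nat_lit 0) (p (nat_lit 0x160004) (nat_lit 0) (p (nat_lit 0x60592) (nat_lit 0) (p (nat_lit 0x48512) (nat_lit 0) (p (nat_lit 0x50392) (nat_lit 0) (p (nat_lit 0x38312) (nat_lit 0) (p (nat_lit 0x40212) (nat_lit 0) (p (nat_lit 0x28192) (nat_lit 0) (p (nat_lit 0x30092) (nat_lit 0) (p (nat_lit 0x18012) (nat_lit 0) pn))))))))))))))))))))))))) :=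
  Cl.node (nat_lit 0xc9) (nat_lit 2) (by decide +kernel) (ClAll.succ (ClAll.succ ClAll.zero s101) s102)

def n68 : Cl (O (nat_lit 6)) (R (nat_lit 139473))
    (p (nat_lit 0x109) (nat_lit 1) (p (nat_lit 0x101) (nat_lit 0) (p (nat_lit 0x119) (nat_lit 0) (p (nat_lit 0xc1) (nat_lit 0) (p (nat_lit 0x81) (nat_lit 1) (p (nat_lit 0x41) (nat_lit 1) (p (nat_lit 0x10b0a098a889a) (nat_lit 0) (p (nat_lit 0x8a89890a081a) (nat_lit 0) (p (nat_lit 0x10a090888079a) (nat_lit 0) (p (nat_lit 0x89888807871a) (nat_lit 0) (p (nat_lit 0x8000080000000090788868a) (nat_lit 0) (p (nat_lit 0x8000080000000088706860a) (nat_lit 0) (p (nat_lit 0x10706878582) (nat_lit 0) (p (nat_lit 0x8686070502) (nat_lit 0) (p (nat_lit 0x10605850482) (nat_lit 0) (p (nat_lit 0x8585048402) (nat_lit 0) (p (nat_lit 0x160004) (nat_lit 0) (p (nat_lit 0x60592) (nat_lit 0) (p (nat_lit 0x48512) (nat_lit 0) (p (nat_lit 0x50392) (nat_lit 0) (p (nat_lit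 0x38312) (nat_lit 0) (p (nat_lit 0x40212) (nat_lit 0) (p (nat_lit 0x28192) (nat_lit 0) (p (nat_lit 0x30092) (nat_lit 0) (p (nat_lit 0x18012) (nat_lit 0) pn))))))))))))))))))))))))) :=
  Cl.node (nat_lit 0xc9) (nat_lit 2) (by decide +kernel) (ClAll.succ (ClAll.succ ClAll.zero s105) s106)

def n69 : Cl (O (nat_lit 6)) (R (nat_lit 139473))
    (p (nat_lit 0xc9) (nat_lit 0) (p (nat_lit 0x101) (nat_lit 1) (p (nat_lit 0x119) (nat_lit 0) (p (nat_lit 0xc1) (nat_lit 0) (p (nat_lit 0x81) (nat_lit 1) (p (nat_lit 0x41) (nat_lit 1) (p (nat_lit 0x10b0a098a889a) (nat_lit 0) (p (nat_lit 0x8a89890a081a) (nat_lit 0) (p (nat_lit 0x10a090888079a) (nat_lit 0) (p (nat_lit 0x89888807871a) (nat_lit 0) (p (nat_lit 0x8000080000000090788868a) (nat_lit 0) (p (nat_lit 0x8000080000000088706860a) (nat_lit 0) (p (nat_lit 0x10706878582) (nat_lit 0) (p (nat_lit 0x8686070502) (nat_lit 0) (p (nat_lit 0x10605850482) (nat_lit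 0) (p (nat_lit 0x8585048402) (nat_lit 0) (p (nat_lit 0x160004) (nat_lit 0) (p (nat_lit 0x60592) (nat_lit 0) (p (nat_lit 0x48512) (nat_lit 0) (p (nat_lit 0x50392) (nat_lit 0) (p (nat_lit 0x38312) (nat_lit 0) (p (nat_lit 0x40212) (nat_lit 0) (p (nat_lit 0x28192) (nat_lit 0) (p (nat_lit 0x30092) (nat_lit 0) (p (nat_lit 0x18012) (nat_lit 0) pn))))))))))))))))))))))))) :=
  Cl.node (nat_lit 0xd1) (nat_lit 2) (by decide +kernel) (ClAll.succ (ClAll.succ ClAll.zero n46) s109)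

def n70 : Cl (O (nat_lit 6)) (R (nat_lit 139473))
    (p (nat_lit 0xd1) (nat_lit 1) (p (nat_lit 0xc9) (nat_lit 0) (p (nat_lit 0x119) (nat_lit 1) (p (nat_lit 0xc1) (nat_lit 0) (p (nat_lit 0x81) (nat_lit 1) (p (nat_lit 0x41) (nat_lit 1) (p (nat_lit 0x10b0a098a889a) (nat_lit 0) (p (nat_lit 0x8a89890a081a) (nat_lit 0) (p (nat_lit 0x10a090888079a) (nat_lit 0) (p (nat_lit 0x89888807871a) (nat_lit 0) (p (nat_lit 0x8000080000000090788868a) (nat_lit 0) (p (nat_lit 0x8000080000000088706860a) (nat_lit 0) (p (nat_lit 0x10706878582) (nat_lit 0) (p (nat_lit 0x8686070502) (nat_lit 0) (p (nat_lit 0x10605850482) (nat_lit 0) (p (nat_lit 0x8585048402) (nat_lit 0) (p (nat_lit 0x160004) (nat_lit 0) (p (nat_lit 0x60592) (nat_lit 0) (p (nat_lit 0x48512) (nat_lit 0) (p (nat_lit 0x50392) (nat_lit 0) (p (nat_lit 0x38312) (nat_lit 0) (p (nat_lit 0x40212) (nat_lit 0) (p (nat_lit 0x28192) (nat_lit 0) (p (nat_lit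 0x30092) (nat_lit 0) (p (nat_lit 0x18012) (nat_lit 0) pn))))))))))))))))))))))))) :=
  Cl.node (nat_lit 0x111) (nat_lit 2) (by decide +kernel) (ClAll.succ (ClAll.succ ClAll.zero s112) n47)

def n71 : Cl (O (nat_lit 6)) (R (nat_lit 139473))
    (p (nat_lit 0x109) (nat_lit 0) (p (nat_lit 0xc9) (nat_lit 1) (p (nat_lit 0x119) (nat_lit 1) (p (nat_lit 0xc1) (nat_lit 0) (p (nat_lit 0x81) (nat_lit 1) (p (nat_lit 0x41) (nat_lit 1) (p (nat_lit 0x10b0a098a889a) (nat_lit 0) (p (nat_lit 0x8a89890a081a) (nat_lit 0) (p (nat_lit 0x10a090888079a) (nat_lit 0) (p (nat_lit 0x89888807871a) (nat_lit 0) (p (nat_lit 0x8000080000000090788868a) (nat_lit 0) (p (nat_lit 0x8000080000000088706860a) (nat_lit 0) (p (nat_lit 0x10706878582) (nat_lit 0) (p (nat_lit 0x8686070502) (nat_lit 0) (p (nat_lit 0x10605850482) (nat_lit 0) (p (nat_lit 0x8585048402) (nat_lit 0) (p (nat_lit 0x160004) (nat_lit 0) (p (nat_lit 0x60592)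 (nat_lit 0) (p (nat_lit 0x48512) (nat_lit 0) (p (nat_lit 0x50392) (nat_lit 0) (p (nat_lit 0x38312) (nat_lit 0) (p (nat_lit 0x40212) (nat_lit 0) (p (nat_lit 0x28192) (nat_lit 0) (p (nat_lit 0x30092) (nat_lit 0) (p (nat_lit 0x18012) (nat_lit 0) pn))))))))))))))))))))))))) :=
  Cl.node (nat_lit 0x111) (nat_lit 2) (by decide +kernel) (ClAll.succ (ClAll.succ ClAll.zero s115) n48)

def n72 : Cl (O (nat_lit 6)) (R (nat_lit 139473))
    (p (nat_lit 0x101) (nat_lit 0) (p (nat_lit 0x119) (nat_lit 0) (p (nat_lit 0xd1) (nat_lit 0) (p (nat_lit 0x89) (nat_lit 0) (p (nat_lit 0x41) (nat_lit 0) (p (nat_lit 0x10b0a098a889a) (nat_lit 0) (p (nat_lit 0x8a89890a081a) (nat_lit 0) (p (nat_lit 0x10a090888079a) (nat_lit 0) (p (nat_lit 0x89888807871a) (nat_lit 0) (p (nat_lit 0x8000080000000090788868a) (nat_lit 0) (p (nat_lit 0x8000080000000088706860a) (nat_lit 0) (p (nat_lit 0x10706878582) (nat_lit 0) (p (nat_lit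 0x8686070502) (nat_lit 0) (p (nat_lit 0x10605850482) (nat_lit 0) (p (nat_lit 0x8585048402) (nat_lit 0) (p (nat_lit 0x160004) (nat_lit 0) (p (nat_lit 0x60592) (nat_lit 0) (p (nat_lit 0x48512) (nat_lit 0) (p (nat_lit 0x50392) (nat_lit 0) (p (nat_lit 0x38312) (nat_lit 0) (p (nat_lit 0x40212) (nat_lit 0) (p (nat_lit 0x28192) (nat_lit 0) (p (nat_lit 0x30092) (nat_lit 0) (p (nat_lit 0x18012) (nat_lit 0) pn)))))))))))))))))))))))) :=
  Cl.node (nat_lit 0x109) (nat_lit 2) (by decide +kernel) (ClAll.succ (ClAll.succ ClAll.zero s0) n49)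

def n73 : Cl (O (nat_lit 6)) (R (nat_lit 139473))
    (p (nat_lit 0x101) (nat_lit 1) (p (nat_lit 0x119) (nat_lit 0) (p (nat_lit 0xd1) (nat_lit 0) (p (nat_lit 0x89) (nat_lit 0) (p (nat_lit 0x41) (nat_lit 0) (p (nat_lit 0x10b0a098a889a) (nat_lit 0) (p (nat_lit 0x8a89890a081a) (nat_lit 0) (p (nat_lit 0x10a090888079a) (nat_lit 0) (p (nat_lit 0x89888807871a) (nat_lit 0) (p (nat_lit 0x8000080000000090788868a) (nat_lit 0) (p (nat_lit 0x8000080000000088706860a) (nat_lit 0) (p (nat_lit 0x10706878582) (nat_lit 0) (p (nat_lit 0x8686070502) (nat_lit 0) (p (nat_lit 0x10605850482) (nat_lit 0) (p (nat_lit 0x8585048402) (nat_lit 0) (p (nat_lit 0x160004) (nat_lit 0) (p (nat_lit 0x60592) (nat_lit 0) (p (nat_lit 0x48512) (nat_lit 0) (p (nat_lit 0x50392) (nat_lit 0) (p (nat_lit 0x38312) (nat_lit 0) (p (nat_lit 0x40212) (nat_lit 0) (p (nat_lit 0x28192) (nat_lit 0) (p (nat_lit 0x30092) (nat_lit 0) (p (nat_lit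 0x18012) (nat_lit 0) pn)))))))))))))))))))))))) :=
  Cl.node (nat_lit 0x81) (nat_lit 2) (by decide +kernel) (ClAll.succ (ClAll.succ ClAll.zero n50) n51)

def n74 : Cl (O (nat_lit 6)) (R (nat_lit 139473))
    (p (nat_lit 0xc1) (nat_lit 0) (p (nat_lit 0x119) (nat_lit 1) (p (nat_lit 0xd1) (nat_lit 0) (p (nat_lit 0x89) (nat_lit 0) (p (nat_lit 0x41) (nat_lit 0) (p (nat_lit 0x10b0a098a889a) (nat_lit 0) (p (nat_lit 0x8a89890a081a) (nat_lit 0) (p (nat_lit 0x10a090888079a) (nat_lit 0) (p (nat_lit 0x89888807871a) (nat_lit 0) (p (nat_lit 0x8000080000000090788868a) (nat_lit 0) (p (nat_lit 0x8000080000000088706860a) (nat_lit 0) (p (nat_lit 0x10706878582) (nat_lit 0) (p (nat_lit 0x8686070502) (nat_lit 0) (p (nat_lit 0x10605850482) (nat_lit 0) (p (nat_lit 0x8585048402) (nat_lit 0) (p (nat_lit 0x160004) (nat_lit 0) (p (nat_lit 0x60592) (nat_lit 0) (p (nat_lit 0x48512) (nat_lit 0) (p (nat_lit 0x50392)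 (nat_lit 0) (p (nat_lit 0x38312) (nat_lit 0) (p (nat_lit 0x40212) (nat_lit 0) (p (nat_lit 0x28192) (nat_lit 0) (p (nat_lit 0x30092) (nat_lit 0) (p (nat_lit 0x18012) (nat_lit 0) pn)))))))))))))))))))))))) :=
  Cl.node (nat_lit 0xc9) (nat_lit 2) (by decide +kernel) (ClAll.succ (ClAll.succ ClAll.zero s20) s21)

def n75 : Cl (O (nat_lit 6)) (R (nat_lit 139473))
    (p (nat_lit 0xc1) (nat_lit 1) (p (nat_lit 0x119) (nat_lit 1) (p (nat_lit 0xd1) (nat_lit 0) (p (nat_lit 0x89) (nat_lit 0) (p (nat_lit 0x41) (nat_lit 0) (p (nat_lit 0x10b0a098a889a) (nat_lit 0) (p (nat_lit 0x8a89890a081a) (nat_lit 0) (p (nat_lit 0x10a090888079a) (nat_lit 0) (p (nat_lit 0x89888807871a) (nat_lit 0) (p (nat_lit 0x8000080000000090788868a) (nat_lit 0) (p (nat_lit 0x8000080000000088706860a) (nat_lit 0) (p (nat_lit 0x10706878582) (nat_lit 0) (p (nat_lit 0x8686070502) (nat_lit 0) (p (nat_lit 0x10605850482) (nat_lit 0) (p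 (nat_lit 0x8585048402) (nat_lit 0) (p (nat_lit 0x160004) (nat_lit 0) (p (nat_lit 0x60592) (nat_lit 0) (p (nat_lit 0x48512) (nat_lit 0) (p (nat_lit 0x50392) (nat_lit 0) (p (nat_lit 0x38312) (nat_lit 0) (p (nat_lit 0x40212) (nat_lit 0) (p (nat_lit 0x28192) (nat_lit 0) (p (nat_lit 0x30092) (nat_lit 0) (p (nat_lit 0x18012) (nat_lit 0) pn)))))))))))))))))))))))) :=
  Cl.node (nat_lit 0x81) (nat_lit 2) (by decide +kernel) (ClAll.succ (ClAll.succ ClAll.zero s22) n52)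

def n76 : Cl (O (nat_lit 6)) (R (nat_lit 139473))
    (p (nat_lit 0x101) (nat_lit 0) (p (nat_lit 0x111) (nat_lit 0) (p (nat_lit 0xd1) (nat_lit 1) (p (nat_lit 0x89) (nat_lit 0) (p (nat_lit 0x41) (nat_lit 0) (p (nat_lit 0x10b0a098a889a) (nat_lit 0) (p (nat_lit 0x8a89890a081a) (nat_lit 0) (p (nat_lit 0x10a090888079a) (nat_lit 0) (p (nat_lit 0x89888807871a) (nat_lit 0) (p (nat_lit 0x8000080000000090788868a) (nat_lit 0) (p (nat_lit 0x8000080000000088706860a) (nat_lit 0) (p (nat_lit 0x10706878582) (nat_lit 0) (p (nat_lit 0x8686070502) (nat_lit 0) (p (nat_lit 0x10605850482) (nat_lit 0) (p (nat_lit 0x8585048402) (nat_lit 0) (p (nat_lit 0x160004) (nat_lit 0) (p (nat_lit 0x60592) (nat_lit 0) (p (nat_lit 0x48512) (nat_lit 0) (p (nat_lit 0x50392) (nat_lit 0) (p (nat_lit 0x38312) (nat_lit 0) (p (nat_lit 0x40212) (nat_lit 0) (p (nat_lit 0x28192) (nat_lit 0) (p (nat_lit 0x30092) (nat_lit 0) (p (nat_lit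 0x18012) (nat_lit 0) pn)))))))))))))))))))))))) :=
  Cl.node (nat_lit 0x109) (nat_lit 2) (by decide +kernel) (ClAll.succ (ClAll.succ ClAll.zero s30) n53)

def n77 : Cl (O (nat_lit 6)) (R (nat_lit 139473))
    (p (nat_lit 0x101) (nat_lit 1) (p (nat_lit 0x111) (nat_lit 0) (p (nat_lit 0xd1) (nat_lit 1) (p (nat_lit 0x89) (nat_lit 0) (p (nat_lit 0x41) (nat_lit 0) (p (nat_lit 0x10b0a098a889a) (nat_lit 0) (p (nat_lit 0x8a89890a081a) (nat_lit 0) (p (nat_lit 0x10a090888079a) (nat_lit 0) (p (nat_lit 0x89888807871a) (nat_lit 0) (p (nat_lit 0x8000080000000090788868a) (nat_lit 0) (p (nat_lit 0x8000080000000088706860a) (nat_lit 0) (p (nat_lit 0x10706878582) (nat_lit 0) (p (nat_lit 0x8686070502) (nat_lit 0) (p (nat_lit 0x10605850482) (nat_lit 0) (p (nat_lit 0x8585048402) (nat_lit 0) (p (nat_lit 0x160004) (nat_lit 0) (p (nat_lit 0x60592) (nat_lit 0) (p (nat_lit 0x48512) (nat_lit 0) (p (nat_lit 0x50392)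 (nat_lit 0) (p (nat_lit 0x38312) (nat_lit 0) (p (nat_lit 0x40212) (nat_lit 0) (p (nat_lit 0x28192) (nat_lit 0) (p (nat_lit 0x30092) (nat_lit 0) (p (nat_lit 0x18012) (nat_lit 0) pn)))))))))))))))))))))))) :=
  Cl.node (nat_lit 0x81) (nat_lit 2) (by decide +kernel) (ClAll.succ (ClAll.succ ClAll.zero n54) n55)

def n78 : Cl (O (nat_lit 6)) (R (nat_lit 139473))
    (p (nat_lit 0x81) (nat_lit 1) (p (nat_lit 0x111) (nat_lit 1) (p (nat_lit 0xd1) (nat_lit 1) (p (nat_lit 0x89) (nat_lit 0) (p (nat_lit 0x41) (nat_lit 0) (p (nat_lit 0x10b0a098a889a) (nat_lit 0) (p (nat_lit 0x8a89890a081a) (nat_lit 0) (p (nat_lit 0x10a090888079a) (nat_lit 0) (p (nat_lit 0x89888807871a) (nat_lit 0) (p (nat_lit 0x8000080000000090788868a) (nat_lit 0) (p (nat_lit 0x8000080000000088706860a) (nat_lit 0) (p (nat_lit 0x10706878582) (nat_lit 0) (p (nat_lit 0x8686070502) (nat_lit 0) (p (nat_lit 0x10605850482) (nat_lit 0) (p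 (nat_lit 0x8585048402) (nat_lit 0) (p (nat_lit 0x160004) (nat_lit 0) (p (nat_lit 0x60592) (nat_lit 0) (p (nat_lit 0x48512) (nat_lit 0) (p (nat_lit 0x50392) (nat_lit 0) (p (nat_lit 0x38312) (nat_lit 0) (p (nat_lit 0x40212) (nat_lit 0) (p (nat_lit 0x28192) (nat_lit 0) (p (nat_lit 0x30092) (nat_lit 0) (p (nat_lit 0x18012) (nat_lit 0) pn)))))))))))))))))))))))) :=
  Cl.node (nat_lit 0xc1) (nat_lit 2) (by decide +kernel) (ClAll.succ (ClAll.succ ClAll.zero s42) n56)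

def n79 : Cl (O (nat_lit 6)) (R (nat_lit 139473))
    (p (nat_lit 0x101) (nat_lit 0) (p (nat_lit 0x119) (nat_lit 0) (p (nat_lit 0xc9) (nat_lit 0) (p (nat_lit 0x89) (nat_lit 1) (p (nat_lit 0x41) (nat_lit 0) (p (nat_lit 0x10b0a098a889a) (nat_lit 0) (p (nat_lit 0x8a89890a081a) (nat_lit 0) (p (nat_lit 0x10a090888079a) (nat_lit 0) (p (nat_lit 0x89888807871a) (nat_lit 0) (p (nat_lit 0x8000080000000090788868a) (nat_lit 0) (p (nat_lit 0x8000080000000088706860a) (nat_lit 0) (p (nat_lit 0x10706878582) (nat_lit 0) (p (nat_lit 0x8686070502) (nat_lit 0) (p (nat_lit 0x10605850482) (nat_lit 0) (p (nat_lit 0x8585048402) (nat_lit 0) (p (nat_lit 0x160004) (nat_lit 0) (p (nat_lit 0x60592) (nat_lit 0) (p (nat_lit 0x48512) (nat_lit 0) (p (nat_lit 0x50392) (nat_lit 0) (p (nat_lit 0x38312) (nat_lit 0) (p (nat_lit 0x40212) (nat_lit 0) (p (nat_lit 0x28192) (nat_lit 0) (p (nat_lit 0x30092) (nat_lit 0) (p (nat_lit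 0x18012) (nat_lit 0) pn)))))))))))))))))))))))) :=
  Cl.node (nat_lit 0x109) (nat_lit 2) (by decide +kernel) (ClAll.succ (ClAll.succ ClAll.zero n57) n58)

def n80 : Cl (O (nat_lit 6)) (R (nat_lit 139473))
    (p (nat_lit 0x101) (nat_lit 1) (p (nat_lit 0x119) (nat_lit 0) (p (nat_lit 0xc9) (nat_lit 0) (p (nat_lit 0x89) (nat_lit 1) (p (nat_lit 0x41) (nat_lit 0) (p (nat_lit 0x10b0a098a889a) (nat_lit 0) (p (nat_lit 0x8a89890a081a) (nat_lit 0) (p (nat_lit 0x10a090888079a) (nat_lit 0) (p (nat_lit 0x89888807871a) (nat_lit 0) (p (nat_lit 0x8000080000000090788868a) (nat_lit 0) (p (nat_lit 0x8000080000000088706860a) (nat_lit 0) (p (nat_lit 0x10706878582) (nat_lit 0) (p (nat_lit 0x8686070502) (nat_lit 0) (p (nat_lit 0x10605850482) (nat_lit 0) (p (nat_lit 0x8585048402) (nat_lit 0) (p (nat_lit 0x160004) (nat_lit 0) (p (nat_lit 0x60592) (nat_lit 0) (p (nat_lit 0x48512) (nat_lit 0) (p (nat_lit 0x50392)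 (nat_lit 0) (p (nat_lit 0x38312) (nat_lit 0) (p (nat_lit 0x40212) (nat_lit 0) (p (nat_lit 0x28192) (nat_lit 0) (p (nat_lit 0x30092) (nat_lit 0) (p (nat_lit 0x18012) (nat_lit 0) pn)))))))))))))))))))))))) :=
  Cl.node (nat_lit 0xc1) (nat_lit 2) (by decide +kernel) (ClAll.succ (ClAll.succ ClAll.zero n59) s58)

def n81 : Cl (O (nat_lit 6)) (R (nat_lit 139473))
    (p (nat_lit 0xc1) (nat_lit 0) (p (nat_lit 0x119) (nat_lit 1) (p (nat_lit 0xc9) (nat_lit 0) (p (nat_lit 0x89) (nat_lit 1) (p (nat_lit 0x41) (nat_lit 0) (p (nat_lit 0x10b0a098a889a) (nat_lit 0) (p (nat_lit 0x8a89890a081a) (nat_lit 0) (p (nat_lit 0x10a090888079a) (nat_lit 0) (p (nat_lit 0x89888807871a) (nat_lit 0) (p (nat_lit 0x8000080000000090788868a) (nat_lit 0) (p (nat_lit 0x8000080000000088706860a) (nat_lit 0) (p (nat_lit 0x10706878582) (nat_lit 0) (p (nat_lit 0x8686070502) (nat_lit 0) (p (nat_lit 0x10605850482) (nat_lit 0) (p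 (nat_lit 0x8585048402) (nat_lit 0) (p (nat_lit 0x160004) (nat_lit 0) (p (nat_lit 0x60592) (nat_lit 0) (p (nat_lit 0x48512) (nat_lit 0) (p (nat_lit 0x50392) (nat_lit 0) (p (nat_lit 0x38312) (nat_lit 0) (p (nat_lit 0x40212) (nat_lit 0) (p (nat_lit 0x28192) (nat_lit 0) (p (nat_lit 0x30092) (nat_lit 0) (p (nat_lit 0x18012) (nat_lit 0) pn)))))))))))))))))))))))) :=
  Cl.node (nat_lit 0xd1) (nat_lit 2) (by decide +kernel) (ClAll.succ (ClAll.succ ClAll.zero s59) s60)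

def n82 : Cl (O (nat_lit 6)) (R (nat_lit 139473))
    (p (nat_lit 0xc1) (nat_lit 1) (p (nat_lit 0x119) (nat_lit 1) (p (nat_lit 0xc9) (nat_lit 0) (p (nat_lit 0x89) (nat_lit 1) (p (nat_lit 0x41) (nat_lit 0) (p (nat_lit 0x10b0a098a889a) (nat_lit 0) (p (nat_lit 0x8a89890a081a) (nat_lit 0) (p (nat_lit 0x10a090888079a) (nat_lit 0) (p (nat_lit 0x89888807871a) (nat_lit 0) (p (nat_lit 0x8000080000000090788868a) (nat_lit 0) (p (nat_lit 0x8000080000000088706860a) (nat_lit 0) (p (nat_lit 0x10706878582) (nat_lit 0) (p (nat_lit 0x8686070502) (nat_lit 0) (p (nat_lit 0x10605850482) (nat_lit 0) (p (nat_lit 0x8585048402) (nat_lit 0) (p (nat_lit 0x160004) (nat_lit 0) (p (nat_lit 0x60592) (nat_lit 0) (p (nat_lit 0x48512) (nat_lit 0) (p (nat_lit 0x50392) (nat_lit 0) (p (nat_lit 0x38312) (nat_lit 0) (p (nat_lit 0x40212) (nat_lit 0) (p (nat_lit 0x28192) (nat_lit 0) (p (nat_lit 0x30092) (nat_lit 0) (p (nat_lit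 0x18012) (nat_lit 0) pn)))))))))))))))))))))))) :=
  Cl.node (nat_lit 0x101) (nat_lit 2) (by decide +kernel) (ClAll.succ (ClAll.succ ClAll.zero n60) s64)

def n83 : Cl (O (nat_lit 6)) (R (nat_lit 139473))
    (p (nat_lit 0x101) (nat_lit 0) (p (nat_lit 0x109) (nat_lit 0) (p (nat_lit 0xc9) (nat_lit 1) (p (nat_lit 0x89) (nat_lit 1) (p (nat_lit 0x41) (nat_lit 0) (p (nat_lit 0x10b0a098a889a) (nat_lit 0) (p (nat_lit 0x8a89890a081a) (nat_lit 0) (p (nat_lit 0x10a090888079a) (nat_lit 0) (p (nat_lit 0x89888807871a) (nat_lit 0) (p (nat_lit 0x8000080000000090788868a) (nat_lit 0) (p (nat_lit 0x8000080000000088706860a) (nat_lit 0) (p (nat_lit 0x10706878582) (nat_lit 0) (p (nat_lit 0x8686070502) (nat_lit 0) (p (nat_lit 0x10605850482) (nat_lit 0) (p (nat_lit 0x8585048402) (nat_lit 0) (p (nat_lit 0x160004) (nat_lit 0) (p (nat_lit 0x60592) (nat_lit 0) (p (nat_lit 0x48512) (nat_lit 0) (p (nat_lit 0x50392)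 (nat_lit 0) (p (nat_lit 0x38312) (nat_lit 0) (p (nat_lit 0x40212) (nat_lit 0) (p (nat_lit 0x28192) (nat_lit 0) (p (nat_lit 0x30092) (nat_lit 0) (p (nat_lit 0x18012) (nat_lit 0) pn)))))))))))))))))))))))) :=
  Cl.node (nat_lit 0x111) (nat_lit 2) (by decide +kernel) (ClAll.succ (ClAll.succ ClAll.zero s65) s66)

def n84 : Cl (O (nat_lit 6)) (R (nat_lit 139473))
    (p (nat_lit 0x101) (nat_lit 0) (p (nat_lit 0x119) (nat_lit 0) (p (nat_lit 0xd1) (nat_lit 0) (p (nat_lit 0x81) (nat_lit 0) (p (nat_lit 0x41) (nat_lit 1) (p (nat_lit 0x10b0a098a889a) (nat_lit 0) (p (nat_lit 0x8a89890a081a) (nat_lit 0) (p (nat_lit 0x10a090888079a) (nat_lit 0) (p (nat_lit 0x89888807871a) (nat_lit 0) (p (nat_lit 0x8000080000000090788868a) (nat_lit 0) (p (nat_lit 0x8000080000000088706860a) (nat_lit 0) (p (nat_lit 0x10706878582) (nat_lit 0) (p (nat_lit 0x8686070502) (nat_lit 0) (p (nat_lit 0x10605850482) (nat_lit 0) (p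 (nat_lit 0x8585048402) (nat_lit 0) (p (nat_lit 0x160004) (nat_lit 0) (p (nat_lit 0x60592) (nat_lit 0) (p (nat_lit 0x48512) (nat_lit 0) (p (nat_lit 0x50392) (nat_lit 0) (p (nat_lit 0x38312) (nat_lit 0) (p (nat_lit 0x40212) (nat_lit 0) (p (nat_lit 0x28192) (nat_lit 0) (p (nat_lit 0x30092) (nat_lit 0) (p (nat_lit 0x18012) (nat_lit 0) pn)))))))))))))))))))))))) :=
  Cl.node (nat_lit 0x109) (nat_lit 2) (by decide +kernel) (ClAll.succ (ClAll.succ ClAll.zero s69) n61)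

def n85 : Cl (O (nat_lit 6)) (R (nat_lit 139473))
    (p (nat_lit 0x101) (nat_lit 1) (p (nat_lit 0x119) (nat_lit 0) (p (nat_lit 0xd1) (nat_lit 0) (p (nat_lit 0x81) (nat_lit 0) (p (nat_lit 0x41) (nat_lit 1) (p (nat_lit 0x10b0a098a889a) (nat_lit 0) (p (nat_lit 0x8a89890a081a) (nat_lit 0) (p (nat_lit 0x10a090888079a) (nat_lit 0) (p (nat_lit 0x89888807871a) (nat_lit 0) (p (nat_lit 0x8000080000000090788868a) (nat_lit 0) (p (nat_lit 0x8000080000000088706860a) (nat_lit 0) (p (nat_lit 0x10706878582) (nat_lit 0) (p (nat_lit 0x8686070502) (nat_lit 0) (p (nat_lit 0x10605850482) (nat_lit 0) (p (nat_lit 0x8585048402) (nat_lit 0) (p (nat_lit 0x160004) (nat_lit 0) (p (nat_lit 0x60592) (nat_lit 0) (p (nat_lit 0x48512) (nat_lit 0) (p (nat_lit 0x50392) (nat_lit 0) (p (nat_lit 0x38312) (nat_lit 0) (p (nat_lit 0x40212) (nat_lit 0) (p (nat_lit 0x28192) (nat_lit 0) (p (nat_lit 0x30092) (nat_lit 0) (p (nat_lit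 0x18012) (nat_lit 0) pn)))))))))))))))))))))))) :=
  Cl.node (nat_lit 0xc1) (nat_lit 2) (by decide +kernel) (ClAll.succ (ClAll.succ ClAll.zero n62) s79)

def n86 : Cl (O (nat_lit 6)) (R (nat_lit 139473))
    (p (nat_lit 0xc1) (nat_lit 0) (p (nat_lit 0x119) (nat_lit 1) (p (nat_lit 0xd1) (nat_lit 0) (p (nat_lit 0x81) (nat_lit 0) (p (nat_lit 0x41) (nat_lit 1) (p (nat_lit 0x10b0a098a889a) (nat_lit 0) (p (nat_lit 0x8a89890a081a) (nat_lit 0) (p (nat_lit 0x10a090888079a) (nat_lit 0) (p (nat_lit 0x89888807871a) (nat_lit 0) (p (nat_lit 0x8000080000000090788868a) (nat_lit 0) (p (nat_lit 0x8000080000000088706860a) (nat_lit 0) (p (nat_lit 0x10706878582) (nat_lit 0) (p (nat_lit 0x8686070502) (nat_lit 0) (p (nat_lit 0x10605850482) (nat_lit 0) (p (nat_lit 0x8585048402) (nat_lit 0) (p (nat_lit 0x160004) (nat_lit 0) (p (nat_lit 0x60592) (nat_lit 0) (p (nat_lit 0x48512) (nat_lit 0) (p (nat_lit 0x50392)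 (nat_lit 0) (p (nat_lit 0x38312) (nat_lit 0) (p (nat_lit 0x40212) (nat_lit 0) (p (nat_lit 0x28192) (nat_lit 0) (p (nat_lit 0x30092) (nat_lit 0) (p (nat_lit 0x18012) (nat_lit 0) pn)))))))))))))))))))))))) :=
  Cl.node (nat_lit 0xc9) (nat_lit 2) (by decide +kernel) (ClAll.succ (ClAll.succ ClAll.zero s80) n63)

def n87 : Cl (O (nat_lit 6)) (R (nat_lit 139473))
    (p (nat_lit 0xc1) (nat_lit 1) (p (nat_lit 0x119) (nat_lit 1) (p (nat_lit 0xd1) (nat_lit 0) (p (nat_lit 0x81) (nat_lit 0) (p (nat_lit 0x41) (nat_lit 1) (p (nat_lit 0x10b0a098a889a) (nat_lit 0) (p (nat_lit 0x8a89890a081a) (nat_lit 0) (p (nat_lit 0x10a090888079a) (nat_lit 0) (p (nat_lit 0x89888807871a) (nat_lit 0) (p (nat_lit 0x8000080000000090788868a) (nat_lit 0) (p (nat_lit 0x8000080000000088706860a) (nat_lit 0) (p (nat_lit 0x10706878582) (nat_lit 0) (p (nat_lit 0x8686070502) (nat_lit 0) (p (nat_lit 0x10605850482) (nat_lit 0) (p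 (nat_lit 0x8585048402) (nat_lit 0) (p (nat_lit 0x160004) (nat_lit 0) (p (nat_lit 0x60592) (nat_lit 0) (p (nat_lit 0x48512) (nat_lit 0) (p (nat_lit 0x50392) (nat_lit 0) (p (nat_lit 0x38312) (nat_lit 0) (p (nat_lit 0x40212) (nat_lit 0) (p (nat_lit 0x28192) (nat_lit 0) (p (nat_lit 0x30092) (nat_lit 0) (p (nat_lit 0x18012) (nat_lit 0) pn)))))))))))))))))))))))) :=
  Cl.node (nat_lit 0x101) (nat_lit 2) (by decide +kernel) (ClAll.succ (ClAll.succ ClAll.zero n64) n65)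

def n88 : Cl (O (nat_lit 6)) (R (nat_lit 139473))
    (p (nat_lit 0x101) (nat_lit 0) (p (nat_lit 0x111) (nat_lit 0) (p (nat_lit 0xd1) (nat_lit 1) (p (nat_lit 0x81) (nat_lit 0) (p (nat_lit 0x41) (nat_lit 1) (p (nat_lit 0x10b0a098a889a) (nat_lit 0) (p (nat_lit 0x8a89890a081a) (nat_lit 0) (p (nat_lit 0x10a090888079a) (nat_lit 0) (p (nat_lit 0x89888807871a) (nat_lit 0) (p (nat_lit 0x8000080000000090788868a) (nat_lit 0) (p (nat_lit 0x8000080000000088706860a) (nat_lit 0) (p (nat_lit 0x10706878582) (nat_lit 0) (p (nat_lit 0x8686070502) (nat_lit 0) (p (nat_lit 0x10605850482) (nat_lit 0) (p (nat_lit 0x8585048402) (nat_lit 0) (p (nat_lit 0x160004) (nat_lit 0) (p (nat_lit 0x60592) (nat_lit 0) (p (nat_lit 0x48512) (nat_lit 0) (p (nat_lit 0x50392) (nat_lit 0) (p (nat_lit 0x38312) (nat_lit 0) (p (nat_lit 0x40212) (nat_lit 0) (p (nat_lit 0x28192) (nat_lit 0) (p (nat_lit 0x30092) (nat_lit 0) (p (nat_lit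 0x18012) (nat_lit 0) pn)))))))))))))))))))))))) :=
  Cl.node (nat_lit 0x109) (nat_lit 2) (by decide +kernel) (ClAll.succ (ClAll.succ ClAll.zero s95) n66)

def n89 : Cl (O (nat_lit 6)) (R (nat_lit 139473))
    (p (nat_lit 0x101) (nat_lit 1) (p (nat_lit 0x111) (nat_lit 0) (p (nat_lit 0xd1) (nat_lit 1) (p (nat_lit 0x81) (nat_lit 0) (p (nat_lit 0x41) (nat_lit 1) (p (nat_lit 0x10b0a098a889a) (nat_lit 0) (p (nat_lit 0x8a89890a081a) (nat_lit 0) (p (nat_lit 0x10a090888079a) (nat_lit 0) (p (nat_lit 0x89888807871a) (nat_lit 0) (p (nat_lit 0x8000080000000090788868a) (nat_lit 0) (p (nat_lit 0x8000080000000088706860a) (nat_lit 0) (p (nat_lit 0x10706878582) (nat_lit 0) (p (nat_lit 0x8686070502) (nat_lit 0) (p (nat_lit 0x10605850482) (nat_lit 0) (p (nat_lit 0x8585048402) (nat_lit 0) (p (nat_lit 0x160004) (nat_lit 0) (p (nat_lit 0x60592) (nat_lit 0) (p (nat_lit 0x48512) (nat_lit 0) (p (nat_lit 0x50392)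 (nat_lit 0) (p (nat_lit 0x38312) (nat_lit 0) (p (nat_lit 0x40212) (nat_lit 0) (p (nat_lit 0x28192) (nat_lit 0) (p (nat_lit 0x30092) (nat_lit 0) (p (nat_lit 0x18012) (nat_lit 0) pn)))))))))))))))))))))))) :=
  Cl.node (nat_lit 0x89) (nat_lit 2) (by decide +kernel) (ClAll.succ (ClAll.succ ClAll.zero s100) n67)

def n90 : Cl (O (nat_lit 6)) (R (nat_lit 139473))
    (p (nat_lit 0x101) (nat_lit 0) (p (nat_lit 0x119) (nat_lit 0) (p (nat_lit 0xc1) (nat_lit 0) (p (nat_lit 0x81) (nat_lit 1) (p (nat_lit 0x41) (nat_lit 1) (p (nat_lit 0x10b0a098a889a) (nat_lit 0) (p (nat_lit 0x8a89890a081a) (nat_lit 0) (p (nat_lit 0x10a090888079a) (nat_lit 0) (p (nat_lit 0x89888807871a) (nat_lit 0) (p (nat_lit 0x8000080000000090788868a) (nat_lit 0) (p (nat_lit 0x8000080000000088706860a) (nat_lit 0) (p (nat_lit 0x10706878582) (nat_lit 0) (p (nat_lit 0x8686070502) (nat_lit 0) (p (nat_lit 0x10605850482) (nat_lit 0) (p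 (nat_lit 0x8585048402) (nat_lit 0) (p (nat_lit 0x160004) (nat_lit 0) (p (nat_lit 0x60592) (nat_lit 0) (p (nat_lit 0x48512) (nat_lit 0) (p (nat_lit 0x50392) (nat_lit 0) (p (nat_lit 0x38312) (nat_lit 0) (p (nat_lit 0x40212) (nat_lit 0) (p (nat_lit 0x28192) (nat_lit 0) (p (nat_lit 0x30092) (nat_lit 0) (p (nat_lit 0x18012) (nat_lit 0) pn)))))))))))))))))))))))) :=
  Cl.node (nat_lit 0x109) (nat_lit 2) (by decide +kernel) (ClAll.succ (ClAll.succ ClAll.zero s104) n68)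

def n91 : Cl (O (nat_lit 6)) (R (nat_lit 139473))
    (p (nat_lit 0x101) (nat_lit 1) (p (nat_lit 0x119) (nat_lit 0) (p (nat_lit 0xc1) (nat_lit 0) (p (nat_lit 0x81) (nat_lit 1) (p (nat_lit 0x41) (nat_lit 1) (p (nat_lit 0x10b0a098a889a) (nat_lit 0) (p (nat_lit 0x8a89890a081a) (nat_lit 0) (p (nat_lit 0x10a090888079a) (nat_lit 0) (p (nat_lit 0x89888807871a) (nat_lit 0) (p (nat_lit 0x8000080000000090788868a) (nat_lit 0) (p (nat_lit 0x8000080000000088706860a) (nat_lit 0) (p (nat_lit 0x10706878582) (nat_lit 0) (p (nat_lit 0x8686070502) (nat_lit 0) (p (nat_lit 0x10605850482) (nat_lit 0) (p (nat_lit 0x8585048402) (nat_lit 0) (p (nat_lit 0x160004) (nat_lit 0) (p (nat_lit 0x60592) (nat_lit 0) (p (nat_lit 0x48512) (nat_lit 0) (p (nat_lit 0x50392) (nat_lit 0) (p (nat_lit 0x38312) (nat_lit 0) (p (nat_lit 0x40212) (nat_lit 0) (p (nat_lit 0x28192) (nat_lit 0) (p (nat_lit 0x30092) (nat_lit 0) (p (nat_lit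 0x18012) (nat_lit 0) pn)))))))))))))))))))))))) :=
  Cl.node (nat_lit 0xc9) (nat_lit 2) (by decide +kernel) (ClAll.succ (ClAll.succ ClAll.zero n69) s110)

def n92 : Cl (O (nat_lit 6)) (R (nat_lit 139473))
    (p (nat_lit 0xc9) (nat_lit 0) (p (nat_lit 0x119) (nat_lit 1) (p (nat_lit 0xc1) (nat_lit 0) (p (nat_lit 0x81) (nat_lit 1) (p (nat_lit 0x41) (nat_lit 1) (p (nat_lit 0x10b0a098a889a) (nat_lit 0) (p (nat_lit 0x8a89890a081a) (nat_lit 0) (p (nat_lit 0x10a090888079a) (nat_lit 0) (p (nat_lit 0x89888807871a) (nat_lit 0) (p (nat_lit 0x8000080000000090788868a) (nat_lit 0) (p (nat_lit 0x8000080000000088706860a) (nat_lit 0) (p (nat_lit 0x10706878582) (nat_lit 0) (p (nat_lit 0x8686070502) (nat_lit 0) (p (nat_lit 0x10605850482) (nat_lit 0) (p (nat_lit 0x8585048402) (nat_lit 0) (p (nat_lit 0x160004) (nat_lit 0) (p (nat_lit 0x60592) (nat_lit 0) (p (nat_lit 0x48512) (nat_lit 0) (p (nat_lit 0x50392)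 (nat_lit 0) (p (nat_lit 0x38312) (nat_lit 0) (p (nat_lit 0x40212) (nat_lit 0) (p (nat_lit 0x28192) (nat_lit 0) (p (nat_lit 0x30092) (nat_lit 0) (p (nat_lit 0x18012) (nat_lit 0) pn)))))))))))))))))))))))) :=
  Cl.node (nat_lit 0xd1) (nat_lit 2) (by decide +kernel) (ClAll.succ (ClAll.succ ClAll.zero s111) n70)

def n93 : Cl (O (nat_lit 6)) (R (nat_lit 139473))
    (p (nat_lit 0xc9) (nat_lit 1) (p (nat_lit 0x119) (nat_lit 1) (p (nat_lit 0xc1) (nat_lit 0) (p (nat_lit 0x81) (nat_lit 1) (p (nat_lit 0x41) (nat_lit 1) (p (nat_lit 0x10b0a098a889a) (nat_lit 0) (p (nat_lit 0x8a89890a081a) (nat_lit 0) (p (nat_lit 0x10a090888079a) (nat_lit 0) (p (nat_lit 0x89888807871a) (nat_lit 0) (p (nat_lit 0x8000080000000090788868a) (nat_lit 0) (p (nat_lit 0x8000080000000088706860a) (nat_lit 0) (p (nat_lit 0x10706878582) (nat_lit 0) (p (nat_lit 0x8686070502) (nat_lit 0) (p (nat_lit 0x10605850482) (nat_lit 0) (p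 (nat_lit 0x8585048402) (nat_lit 0) (p (nat_lit 0x160004) (nat_lit 0) (p (nat_lit 0x60592) (nat_lit 0) (p (nat_lit 0x48512) (nat_lit 0) (p (nat_lit 0x50392) (nat_lit 0) (p (nat_lit 0x38312) (nat_lit 0) (p (nat_lit 0x40212) (nat_lit 0) (p (nat_lit 0x28192) (nat_lit 0) (p (nat_lit 0x30092) (nat_lit 0) (p (nat_lit 0x18012) (nat_lit 0) pn)))))))))))))))))))))))) :=
  Cl.node (nat_lit 0x109) (nat_lit 2) (by decide +kernel) (ClAll.succ (ClAll.succ ClAll.zero n71) s119)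

def n94 : Cl (O (nat_lit 6)) (R (nat_lit 139473))
    (p (nat_lit 0x119) (nat_lit 0) (p (nat_lit 0xd1) (nat_lit 0) (p (nat_lit 0x89) (nat_lit 0) (p (nat_lit 0x41) (nat_lit 0) (p (nat_lit 0x10b0a098a889a) (nat_lit 0) (p (nat_lit 0x8a89890a081a) (nat_lit 0) (p (nat_lit 0x10a090888079a) (nat_lit 0) (p (nat_lit 0x89888807871a) (nat_lit 0) (p (nat_lit 0x8000080000000090788868a) (nat_lit 0) (p (nat_lit 0x8000080000000088706860a) (nat_lit 0) (p (nat_lit 0x10706878582) (nat_lit 0) (p (nat_lit 0x8686070502) (nat_lit 0) (p (nat_lit 0x10605850482) (nat_lit 0) (p (nat_lit 0x8585048402) (nat_lit 0) (p (nat_lit 0x160004) (nat_lit 0) (p (nat_lit 0x60592) (nat_lit 0) (p (nat_lit 0x48512) (nat_lit 0) (p (nat_lit 0x50392) (nat_lit 0) (p (nat_lit 0x38312) (nat_lit 0) (p (nat_lit 0x40212) (nat_lit 0) (p (nat_lit 0x28192) (nat_lit 0) (p (nat_lit 0x30092) (nat_lit 0) (p (nat_lit 0x18012) (nat_lit 0) pn)))))))))))))))))))))))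 :=
  Cl.node (nat_lit 0x101) (nat_lit 2) (by decide +kernel) (ClAll.succ (ClAll.succ ClAll.zero n72) n73)

def n95 : Cl (O (nat_lit 6)) (R (nat_lit 139473))
    (p (nat_lit 0x119) (nat_lit 1) (p (nat_lit 0xd1) (nat_lit 0) (p (nat_lit 0x89) (nat_lit 0) (p (nat_lit 0x41) (nat_lit 0) (p (nat_lit 0x10b0a098a889a) (nat_lit 0) (p (nat_lit 0x8a89890a081a) (nat_lit 0) (p (nat_lit 0x10a090888079a) (nat_lit 0) (p (nat_lit 0x89888807871a) (nat_lit 0) (p (nat_lit 0x8000080000000090788868a) (nat_lit 0) (p (nat_lit 0x8000080000000088706860a) (nat_lit 0) (p (nat_lit 0x10706878582) (nat_lit 0) (p (nat_lit 0x8686070502) (nat_lit 0) (p (nat_lit 0x10605850482) (nat_lit 0) (p (nat_lit 0x8585048402) (nat_lit 0) (p (nat_lit 0x160004) (nat_lit 0) (p (nat_lit 0x60592) (nat_lit 0) (p (nat_lit 0x48512) (nat_lit 0) (p (nat_lit 0x50392) (nat_lit 0) (p (nat_lit 0x38312) (nat_lit 0) (p (nat_lit 0x40212) (nat_lit 0)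 (p (nat_lit 0x28192) (nat_lit 0) (p (nat_lit 0x30092) (nat_lit 0) (p (nat_lit 0x18012) (nat_lit 0) pn))))))))))))))))))))))) :=
  Cl.node (nat_lit 0xc1) (nat_lit 2) (by decide +kernel) (ClAll.succ (ClAll.succ ClAll.zero n74) n75)

def n96 : Cl (O (nat_lit 6)) (R (nat_lit 139473))
    (p (nat_lit 0x111) (nat_lit 0) (p (nat_lit 0xd1) (nat_lit 1) (p (nat_lit 0x89) (nat_lit 0) (p (nat_lit 0x41) (nat_lit 0) (p (nat_lit 0x10b0a098a889a) (nat_lit 0) (p (nat_lit 0x8a89890a081a) (nat_lit 0) (p (nat_lit 0x10a090888079a) (nat_lit 0) (p (nat_lit 0x89888807871a) (nat_lit 0) (p (nat_lit 0x8000080000000090788868a) (nat_lit 0) (p (nat_lit 0x8000080000000088706860a) (nat_lit 0) (p (nat_lit 0x10706878582) (nat_lit 0) (p (nat_lit 0x8686070502) (nat_lit 0) (p (nat_lit 0x10605850482) (nat_lit 0) (p (nat_lit 0x8585048402) (nat_lit 0) (p (nat_lit 0x160004) (nat_lit 0) (p (nat_lit 0x60592) (nat_lit 0) (p (nat_lit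 0x48512) (nat_lit 0) (p (nat_lit 0x50392) (nat_lit 0) (p (nat_lit 0x38312) (nat_lit 0) (p (nat_lit 0x40212) (nat_lit 0) (p (nat_lit 0x28192) (nat_lit 0) (p (nat_lit 0x30092) (nat_lit 0) (p (nat_lit 0x18012) (nat_lit 0) pn))))))))))))))))))))))) :=
  Cl.node (nat_lit 0x101) (nat_lit 2) (by decide +kernel) (ClAll.succ (ClAll.succ ClAll.zero n76) n77)

def n97 : Cl (O (nat_lit 6)) (R (nat_lit 139473))
    (p (nat_lit 0x111) (nat_lit 1) (p (nat_lit 0xd1) (nat_lit 1) (p (nat_lit 0x89) (nat_lit 0) (p (nat_lit 0x41) (nat_lit 0) (p (nat_lit 0x10b0a098a889a) (nat_lit 0) (p (nat_lit 0x8a89890a081a) (nat_lit 0) (p (nat_lit 0x10a090888079a) (nat_lit 0) (p (nat_lit 0x89888807871a) (nat_lit 0) (p (nat_lit 0x8000080000000090788868a) (nat_lit 0) (p (nat_lit 0x8000080000000088706860a) (nat_lit 0) (p (nat_lit 0x10706878582) (nat_lit 0) (p (nat_lit 0x8686070502) (nat_lit 0) (p (nat_lit 0x10605850482) (nat_lit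 0) (p (nat_lit 0x8585048402) (nat_lit 0) (p (nat_lit 0x160004) (nat_lit 0) (p (nat_lit 0x60592) (nat_lit 0) (p (nat_lit 0x48512) (nat_lit 0) (p (nat_lit 0x50392) (nat_lit 0) (p (nat_lit 0x38312) (nat_lit 0) (p (nat_lit 0x40212) (nat_lit 0) (p (nat_lit 0x28192) (nat_lit 0) (p (nat_lit 0x30092) (nat_lit 0) (p (nat_lit 0x18012) (nat_lit 0) pn))))))))))))))))))))))) :=
  Cl.node (nat_lit 0x81) (nat_lit 2) (by decide +kernel) (ClAll.succ (ClAll.succ ClAll.zero s41) n78)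

def n98 : Cl (O (nat_lit 6)) (R (nat_lit 139473))
    (p (nat_lit 0x119) (nat_lit 0) (p (nat_lit 0xc9) (nat_lit 0) (p (nat_lit 0x89) (nat_lit 1) (p (nat_lit 0x41) (nat_lit 0) (p (nat_lit 0x10b0a098a889a) (nat_lit 0) (p (nat_lit 0x8a89890a081a) (nat_lit 0) (p (nat_lit 0x10a090888079a) (nat_lit 0) (p (nat_lit 0x89888807871a) (nat_lit 0) (p (nat_lit 0x8000080000000090788868a) (nat_lit 0) (p (nat_lit 0x8000080000000088706860a) (nat_lit 0) (p (nat_lit 0x10706878582) (nat_lit 0) (p (nat_lit 0x8686070502) (nat_lit 0) (p (nat_lit 0x10605850482) (nat_lit 0) (p (nat_lit 0x8585048402) (nat_lit 0) (p (nat_lit 0x160004) (nat_lit 0) (p (nat_lit 0x60592) (nat_lit 0) (p (nat_lit 0x48512) (nat_lit 0) (p (nat_lit 0x50392) (nat_lit 0) (p (nat_lit 0x38312) (nat_lit 0) (p (nat_lit 0x40212) (nat_lit 0) (p (nat_lit 0x28192) (nat_lit 0) (p (nat_lit 0x30092) (nat_lit 0) (p (nat_lit 0x18012) (nat_lit 0) pn)))))))))))))))))))))))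 :=
  Cl.node (nat_lit 0x101) (nat_lit 2) (by decide +kernel) (ClAll.succ (ClAll.succ ClAll.zero n79) n80)

def n99 : Cl (O (nat_lit 6)) (R (nat_lit 139473))
    (p (nat_lit 0x119) (nat_lit 1) (p (nat_lit 0xc9) (nat_lit 0) (p (nat_lit 0x89) (nat_lit 1) (p (nat_lit 0x41) (nat_lit 0) (p (nat_lit 0x10b0a098a889a) (nat_lit 0) (p (nat_lit 0x8a89890a081a) (nat_lit 0) (p (nat_lit 0x10a090888079a) (nat_lit 0) (p (nat_lit 0x89888807871a) (nat_lit 0) (p (nat_lit 0x8000080000000090788868a) (nat_lit 0) (p (nat_lit 0x8000080000000088706860a) (nat_lit 0) (p (nat_lit 0x10706878582) (nat_lit 0) (p (nat_lit 0x8686070502) (nat_lit 0) (p (nat_lit 0x10605850482) (nat_lit 0) (p (nat_lit 0x8585048402) (nat_lit 0) (p (nat_lit 0x160004) (nat_lit 0) (p (nat_lit 0x60592) (nat_lit 0) (p (nat_lit 0x48512) (nat_lit 0) (p (nat_lit 0x50392) (nat_lit 0) (p (nat_lit 0x38312) (nat_lit 0) (p (nat_lit 0x40212) (nat_lit 0)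 (p (nat_lit 0x28192) (nat_lit 0) (p (nat_lit 0x30092) (nat_lit 0) (p (nat_lit 0x18012) (nat_lit 0) pn))))))))))))))))))))))) :=
  Cl.node (nat_lit 0xc1) (nat_lit 2) (by decide +kernel) (ClAll.succ (ClAll.succ ClAll.zero n81) n82)

def n100 : Cl (O (nat_lit 6)) (R (nat_lit 139473))
    (p (nat_lit 0x109) (nat_lit 0) (p (nat_lit 0xc9) (nat_lit 1) (p (nat_lit 0x89) (nat_lit 1) (p (nat_lit 0x41) (nat_lit 0) (p (nat_lit 0x10b0a098a889a) (nat_lit 0) (p (nat_lit 0x8a89890a081a) (nat_lit 0) (p (nat_lit 0x10a090888079a) (nat_lit 0) (p (nat_lit 0x89888807871a) (nat_lit 0) (p (nat_lit 0x8000080000000090788868a) (nat_lit 0) (p (nat_lit 0x8000080000000088706860a) (nat_lit 0) (p (nat_lit 0x10706878582) (nat_lit 0) (p (nat_lit 0x8686070502) (nat_lit 0) (p (nat_lit 0x10605850482) (nat_lit 0) (p (nat_lit 0x8585048402) (nat_lit 0) (p (nat_lit 0x160004) (nat_lit 0) (p (nat_lit 0x60592) (nat_lit 0) (p (nat_lit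 0x48512) (nat_lit 0) (p (nat_lit 0x50392) (nat_lit 0) (p (nat_lit 0x38312) (nat_lit 0) (p (nat_lit 0x40212) (nat_lit 0) (p (nat_lit 0x28192) (nat_lit 0) (p (nat_lit 0x30092) (nat_lit 0) (p (nat_lit 0x18012) (nat_lit 0) pn))))))))))))))))))))))) :=
  Cl.node (nat_lit 0x101) (nat_lit 2) (by decide +kernel) (ClAll.succ (ClAll.succ ClAll.zero n83) s67)

def n101 : Cl (O (nat_lit 6)) (R (nat_lit 139473))
    (p (nat_lit 0x119) (nat_lit 0) (p (nat_lit 0xd1) (nat_lit 0) (p (nat_lit 0x81) (nat_lit 0) (p (nat_lit 0x41) (nat_lit 1) (p (nat_lit 0x10b0a098a889a) (nat_lit 0) (p (nat_lit 0x8a89890a081a) (nat_lit 0) (p (nat_lit 0x10a090888079a) (nat_lit 0) (p (nat_lit 0x89888807871a) (nat_lit 0) (p (nat_lit 0x8000080000000090788868a) (nat_lit 0) (p (nat_lit 0x8000080000000088706860a) (nat_lit 0) (p (nat_lit 0x10706878582) (nat_lit 0) (p (nat_lit 0x8686070502) (nat_lit 0) (p (nat_lit 0x10605850482) (nat_lit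 0) (p (nat_lit 0x8585048402) (nat_lit 0) (p (nat_lit 0x160004) (nat_lit 0) (p (nat_lit 0x60592) (nat_lit 0) (p (nat_lit 0x48512) (nat_lit 0) (p (nat_lit 0x50392) (nat_lit 0) (p (nat_lit 0x38312) (nat_lit 0) (p (nat_lit 0x40212) (nat_lit 0) (p (nat_lit 0x28192) (nat_lit 0) (p (nat_lit 0x30092) (nat_lit 0) (p (nat_lit 0x18012) (nat_lit 0) pn))))))))))))))))))))))) :=
  Cl.node (nat_lit 0x101) (nat_lit 2) (by decide +kernel) (ClAll.succ (ClAll.succ ClAll.zero n84) n85)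

def n102 : Cl (O (nat_lit 6)) (R (nat_lit 139473))
    (p (nat_lit 0x119) (nat_lit 1) (p (nat_lit 0xd1) (nat_lit 0) (p (nat_lit 0x81) (nat_lit 0) (p (nat_lit 0x41) (nat_lit 1) (p (nat_lit 0x10b0a098a889a) (nat_lit 0) (p (nat_lit 0x8a89890a081a) (nat_lit 0) (p (nat_lit 0x10a090888079a) (nat_lit 0) (p (nat_lit 0x89888807871a) (nat_lit 0) (p (nat_lit 0x8000080000000090788868a) (nat_lit 0) (p (nat_lit 0x8000080000000088706860a) (nat_lit 0) (p (nat_lit 0x10706878582) (nat_lit 0) (p (nat_lit 0x8686070502) (nat_lit 0) (p (nat_lit 0x10605850482) (nat_lit 0) (p (nat_lit 0x8585048402) (nat_lit 0) (p (nat_lit 0x160004) (nat_lit 0) (p (nat_lit 0x60592) (nat_lit 0) (p (nat_lit 0x48512) (nat_lit 0) (p (nat_lit 0x50392) (nat_lit 0) (p (nat_lit 0x38312) (nat_lit 0) (p (nat_lit 0x40212) (nat_lit 0) (p (nat_lit 0x28192) (nat_lit 0) (p (nat_lit 0x30092) (nat_lit 0) (p (nat_lit 0x18012) (nat_lit 0) pn)))))))))))))))))))))))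 :=
  Cl.node (nat_lit 0xc1) (nat_lit 2) (by decide +kernel) (ClAll.succ (ClAll.succ ClAll.zero n86) n87)

def n103 : Cl (O (nat_lit 6)) (R (nat_lit 139473))
    (p (nat_lit 0x111) (nat_lit 0) (p (nat_lit 0xd1) (nat_lit 1) (p (nat_lit 0x81) (nat_lit 0) (p (nat_lit 0x41) (nat_lit 1) (p (nat_lit 0x10b0a098a889a) (nat_lit 0) (p (nat_lit 0x8a89890a081a) (nat_lit 0) (p (nat_lit 0x10a090888079a) (nat_lit 0) (p (nat_lit 0x89888807871a) (nat_lit 0) (p (nat_lit 0x8000080000000090788868a) (nat_lit 0) (p (nat_lit 0x8000080000000088706860a) (nat_lit 0) (p (nat_lit 0x10706878582) (nat_lit 0) (p (nat_lit 0x8686070502) (nat_lit 0) (p (nat_lit 0x10605850482) (nat_lit 0) (p (nat_lit 0x8585048402) (nat_lit 0) (p (nat_lit 0x160004) (nat_lit 0) (p (nat_lit 0x60592) (nat_lit 0) (p (nat_lit 0x48512) (nat_lit 0) (p (nat_lit 0x50392) (nat_lit 0) (p (nat_lit 0x38312) (nat_lit 0) (p (nat_lit 0x40212) (nat_lit 0)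 (p (nat_lit 0x28192) (nat_lit 0) (p (nat_lit 0x30092) (nat_lit 0) (p (nat_lit 0x18012) (nat_lit 0) pn))))))))))))))))))))))) :=
  Cl.node (nat_lit 0x101) (nat_lit 2) (by decide +kernel) (ClAll.succ (ClAll.succ ClAll.zero n88) n89)

def n104 : Cl (O (nat_lit 6)) (R (nat_lit 139473))
    (p (nat_lit 0x119) (nat_lit 0) (p (nat_lit 0xc1) (nat_lit 0) (p (nat_lit 0x81) (nat_lit 1) (p (nat_lit 0x41) (nat_lit 1) (p (nat_lit 0x10b0a098a889a) (nat_lit 0) (p (nat_lit 0x8a89890a081a) (nat_lit 0) (p (nat_lit 0x10a090888079a) (nat_lit 0) (p (nat_lit 0x89888807871a) (nat_lit 0) (p (nat_lit 0x8000080000000090788868a) (nat_lit 0) (p (nat_lit 0x8000080000000088706860a) (nat_lit 0) (p (nat_lit 0x10706878582) (nat_lit 0) (p (nat_lit 0x8686070502) (nat_lit 0) (p (nat_lit 0x10605850482) (nat_lit 0) (p (nat_lit 0x8585048402) (nat_lit 0) (p (nat_lit 0x160004) (nat_lit 0) (p (nat_lit 0x60592) (nat_lit 0) (p (nat_lit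 0x48512) (nat_lit 0) (p (nat_lit 0x50392) (nat_lit 0) (p (nat_lit 0x38312) (nat_lit 0) (p (nat_lit 0x40212) (nat_lit 0) (p (nat_lit 0x28192) (nat_lit 0) (p (nat_lit 0x30092) (nat_lit 0) (p (nat_lit 0x18012) (nat_lit 0) pn))))))))))))))))))))))) :=
  Cl.node (nat_lit 0x101) (nat_lit 2) (by decide +kernel) (ClAll.succ (ClAll.succ ClAll.zero n90) n91)

def n105 : Cl (O (nat_lit 6)) (R (nat_lit 139473))
    (p (nat_lit 0x119) (nat_lit 1) (p (nat_lit 0xc1) (nat_lit 0) (p (nat_lit 0x81) (nat_lit 1) (p (nat_lit 0x41) (nat_lit 1) (p (nat_lit 0x10b0a098a889a) (nat_lit 0) (p (nat_lit 0x8a89890a081a) (nat_lit 0) (p (nat_lit 0x10a090888079a) (nat_lit 0) (p (nat_lit 0x89888807871a) (nat_lit 0) (p (nat_lit 0x8000080000000090788868a) (nat_lit 0) (p (nat_lit 0x8000080000000088706860a) (nat_lit 0) (p (nat_lit 0x10706878582) (nat_lit 0) (p (nat_lit 0x8686070502) (nat_lit 0) (p (nat_lit 0x10605850482) (nat_lit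 0) (p (nat_lit 0x8585048402) (nat_lit 0) (p (nat_lit 0x160004) (nat_lit 0) (p (nat_lit 0x60592) (nat_lit 0) (p (nat_lit 0x48512) (nat_lit 0) (p (nat_lit 0x50392) (nat_lit 0) (p (nat_lit 0x38312) (nat_lit 0) (p (nat_lit 0x40212) (nat_lit 0) (p (nat_lit 0x28192) (nat_lit 0) (p (nat_lit 0x30092) (nat_lit 0) (p (nat_lit 0x18012) (nat_lit 0) pn))))))))))))))))))))))) :=
  Cl.node (nat_lit 0xc9) (nat_lit 2) (by decide +kernel) (ClAll.succ (ClAll.succ ClAll.zero n92) n93)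

def n106 : Cl (O (nat_lit 6)) (R (nat_lit 139473))
    (p (nat_lit 0xd1) (nat_lit 0) (p (nat_lit 0x89) (nat_lit 0) (p (nat_lit 0x41) (nat_lit 0) (p (nat_lit 0x10b0a098a889a) (nat_lit 0) (p (nat_lit 0x8a89890a081a) (nat_lit 0) (p (nat_lit 0x10a090888079a) (nat_lit 0) (p (nat_lit 0x89888807871a) (nat_lit 0) (p (nat_lit 0x8000080000000090788868a) (nat_lit 0) (p (nat_lit 0x8000080000000088706860a) (nat_lit 0) (p (nat_lit 0x10706878582) (nat_lit 0) (p (nat_lit 0x8686070502) (nat_lit 0) (p (nat_lit 0x10605850482) (nat_lit 0) (p (nat_lit 0x8585048402) (nat_lit 0) (p (nat_lit 0x160004) (nat_lit 0) (p (nat_lit 0x60592) (nat_lit 0) (p (nat_lit 0x48512) (nat_lit 0) (p (nat_lit 0x50392) (nat_lit 0) (p (nat_lit 0x38312) (nat_lit 0) (p (nat_lit 0x40212) (nat_lit 0) (p (nat_lit 0x28192) (nat_lit 0) (p (nat_lit 0x30092) (nat_lit 0) (p (nat_lit 0x18012) (nat_lit 0) pn)))))))))))))))))))))) :=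
  Cl.node (nat_lit 0x119) (nat_lit 2) (by decide +kernel) (ClAll.succ (ClAll.succ ClAll.zero n94) n95)

def n107 : Cl (O (nat_lit 6)) (R (nat_lit 139473))
    (p (nat_lit 0xd1) (nat_lit 1) (p (nat_lit 0x89) (nat_lit 0) (p (nat_lit 0x41) (nat_lit 0) (p (nat_lit 0x10b0a098a889a) (nat_lit 0) (p (nat_lit 0x8a89890a081a) (nat_lit 0) (p (nat_lit 0x10a090888079a) (nat_lit 0) (p (nat_lit 0x89888807871a) (nat_lit 0) (p (nat_lit 0x8000080000000090788868a) (nat_lit 0) (p (nat_lit 0x8000080000000088706860a) (nat_lit 0) (p (nat_lit 0x10706878582) (nat_lit 0) (p (nat_lit 0x8686070502) (nat_lit 0) (p (nat_lit 0x10605850482) (nat_lit 0) (p (nat_lit 0x8585048402) (nat_lit 0) (p (nat_lit 0x160004) (nat_lit 0) (p (nat_lit 0x60592) (nat_lit 0) (p (nat_lit 0x48512) (nat_lit 0) (p (nat_lit 0x50392) (nat_lit 0) (p (nat_lit 0x38312) (nat_lit 0) (p (nat_lit 0x40212) (nat_lit 0) (p (nat_lit 0x28192) (nat_lit 0)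 (p (nat_lit 0x30092) (nat_lit 0) (p (nat_lit 0x18012) (nat_lit 0) pn)))))))))))))))))))))) :=
  Cl.node (nat_lit 0x111) (nat_lit 2) (by decide +kernel) (ClAll.succ (ClAll.succ ClAll.zero n96) n97)

def n108 : Cl (O (nat_lit 6)) (R (nat_lit 139473))
    (p (nat_lit 0xc9) (nat_lit 0) (p (nat_lit 0x89) (nat_lit 1) (p (nat_lit 0x41) (nat_lit 0) (p (nat_lit 0x10b0a098a889a) (nat_lit 0) (p (nat_lit 0x8a89890a081a) (nat_lit 0) (p (nat_lit 0x10a090888079a) (nat_lit 0) (p (nat_lit 0x89888807871a) (nat_lit 0) (p (nat_lit 0x8000080000000090788868a) (nat_lit 0) (p (nat_lit 0x8000080000000088706860a) (nat_lit 0) (p (nat_lit 0x10706878582) (nat_lit 0) (p (nat_lit 0x8686070502) (nat_lit 0) (p (nat_lit 0x10605850482) (nat_lit 0) (p (nat_lit 0x8585048402) (nat_lit 0) (p (nat_lit 0x160004) (nat_lit 0) (p (nat_lit 0x60592) (nat_lit 0) (p (nat_lit 0x48512) (nat_lit 0) (p (nat_lit 0x50392) (nat_lit 0) (p (nat_lit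 0x38312) (nat_lit 0) (p (nat_lit 0x40212) (nat_lit 0) (p (nat_lit 0x28192) (nat_lit 0) (p (nat_lit 0x30092) (nat_lit 0) (p (nat_lit 0x18012) (nat_lit 0) pn)))))))))))))))))))))) :=
  Cl.node (nat_lit 0x119) (nat_lit 2) (by decide +kernel) (ClAll.succ (ClAll.succ ClAll.zero n98) n99)

def n109 : Cl (O (nat_lit 6)) (R (nat_lit 139473))
    (p (nat_lit 0xc9) (nat_lit 1) (p (nat_lit 0x89) (nat_lit 1) (p (nat_lit 0x41) (nat_lit 0) (p (nat_lit 0x10b0a098a889a) (nat_lit 0) (p (nat_lit 0x8a89890a081a) (nat_lit 0) (p (nat_lit 0x10a090888079a) (nat_lit 0) (p (nat_lit 0x89888807871a) (nat_lit 0) (p (nat_lit 0x8000080000000090788868a) (nat_lit 0) (p (nat_lit 0x8000080000000088706860a) (nat_lit 0) (p (nat_lit 0x10706878582) (nat_lit 0) (p (nat_lit 0x8686070502) (nat_lit 0) (p (nat_lit 0x10605850482) (nat_lit 0) (p (nat_lit 0x8585048402) (nat_lit 0) (p (nat_lit 0x160004) (nat_lit 0) (p (nat_lit 0x60592)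 (nat_lit 0) (p (nat_lit 0x48512) (nat_lit 0) (p (nat_lit 0x50392) (nat_lit 0) (p (nat_lit 0x38312) (nat_lit 0) (p (nat_lit 0x40212) (nat_lit 0) (p (nat_lit 0x28192) (nat_lit 0) (p (nat_lit 0x30092) (nat_lit 0) (p (nat_lit 0x18012) (nat_lit 0) pn)))))))))))))))))))))) :=
  Cl.node (nat_lit 0x109) (nat_lit 2) (by decide +kernel) (ClAll.succ (ClAll.succ ClAll.zero n100) s68)

def n110 : Cl (O (nat_lit 6)) (R (nat_lit 139473))
    (p (nat_lit 0xd1) (nat_lit 0) (p (nat_lit 0x81) (nat_lit 0) (p (nat_lit 0x41) (nat_lit 1) (p (nat_lit 0x10b0a098a889a) (nat_lit 0) (p (nat_lit 0x8a89890a081a) (nat_lit 0) (p (nat_lit 0x10a090888079a) (nat_lit 0) (p (nat_lit 0x89888807871a) (nat_lit 0) (p (nat_lit 0x8000080000000090788868a) (nat_lit 0) (p (nat_lit 0x8000080000000088706860a) (nat_lit 0) (p (nat_lit 0x10706878582) (nat_lit 0) (p (nat_lit 0x8686070502) (nat_lit 0) (p (nat_lit 0x10605850482) (nat_lit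 0) (p (nat_lit 0x8585048402) (nat_lit 0) (p (nat_lit 0x160004) (nat_lit 0) (p (nat_lit 0x60592) (nat_lit 0) (p (nat_lit 0x48512) (nat_lit 0) (p (nat_lit 0x50392) (nat_lit 0) (p (nat_lit 0x38312) (nat_lit 0) (p (nat_lit 0x40212) (nat_lit 0) (p (nat_lit 0x28192) (nat_lit 0) (p (nat_lit 0x30092) (nat_lit 0) (p (nat_lit 0x18012) (nat_lit 0) pn)))))))))))))))))))))) :=
  Cl.node (nat_lit 0x119) (nat_lit 2) (by decide +kernel) (ClAll.succ (ClAll.succ ClAll.zero n101) n102)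

def n111 : Cl (O (nat_lit 6)) (R (nat_lit 139473))
    (p (nat_lit 0xd1) (nat_lit 1) (p (nat_lit 0x81) (nat_lit 0) (p (nat_lit 0x41) (nat_lit 1) (p (nat_lit 0x10b0a098a889a) (nat_lit 0) (p (nat_lit 0x8a89890a081a) (nat_lit 0) (p (nat_lit 0x10a090888079a) (nat_lit 0) (p (nat_lit 0x89888807871a) (nat_lit 0) (p (nat_lit 0x8000080000000090788868a) (nat_lit 0) (p (nat_lit 0x8000080000000088706860a) (nat_lit 0) (p (nat_lit 0x10706878582) (nat_lit 0) (p (nat_lit 0x8686070502) (nat_lit 0) (p (nat_lit 0x10605850482) (nat_lit 0) (p (nat_lit 0x8585048402) (nat_lit 0) (p (nat_lit 0x160004) (nat_lit 0) (p (nat_lit 0x60592) (nat_lit 0) (p (nat_lit 0x48512) (nat_lit 0) (p (nat_lit 0x50392) (nat_lit 0) (p (nat_lit 0x38312) (nat_lit 0) (p (nat_lit 0x40212) (nat_lit 0) (p (nat_lit 0x28192) (nat_lit 0) (p (nat_lit 0x30092) (nat_lit 0) (p (nat_lit 0x18012) (nat_lit 0) pn)))))))))))))))))))))) :=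
  Cl.node (nat_lit 0x111) (nat_lit 2) (by decide +kernel) (ClAll.succ (ClAll.succ ClAll.zero n103) s103)

def n112 : Cl (O (nat_lit 6)) (R (nat_lit 139473))
    (p (nat_lit 0xc1) (nat_lit 0) (p (nat_lit 0x81) (nat_lit 1) (p (nat_lit 0x41) (nat_lit 1) (p (nat_lit 0x10b0a098a889a) (nat_lit 0) (p (nat_lit 0x8a89890a081a) (nat_lit 0) (p (nat_lit 0x10a090888079a) (nat_lit 0) (p (nat_lit 0x89888807871a) (nat_lit 0) (p (nat_lit 0x8000080000000090788868a) (nat_lit 0) (p (nat_lit 0x8000080000000088706860a) (nat_lit 0) (p (nat_lit 0x10706878582) (nat_lit 0) (p (nat_lit 0x8686070502) (nat_lit 0) (p (nat_lit 0x10605850482) (nat_lit 0) (p (nat_lit 0x8585048402) (nat_lit 0) (p (nat_lit 0x160004) (nat_lit 0) (p (nat_lit 0x60592) (nat_lit 0) (p (nat_lit 0x48512) (nat_lit 0) (p (nat_lit 0x50392) (nat_lit 0) (p (nat_lit 0x38312) (nat_lit 0) (p (nat_lit 0x40212) (nat_lit 0) (p (nat_lit 0x28192) (nat_lit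 0) (p (nat_lit 0x30092) (nat_lit 0) (p (nat_lit 0x18012) (nat_lit 0) pn)))))))))))))))))))))) :=
  Cl.node (nat_lit 0x119) (nat_lit 2) (by decide +kernel) (ClAll.succ (ClAll.succ ClAll.zero n104) n105)

def n113 : Cl (O (nat_lit 6)) (R (nat_lit 139473))
    (p (nat_lit 0x89) (nat_lit 0) (p (nat_lit 0x41) (nat_lit 0) (p (nat_lit 0x10b0a098a889a) (nat_lit 0) (p (nat_lit 0x8a89890a081a) (nat_lit 0) (p (nat_lit 0x10a090888079a) (nat_lit 0) (p (nat_lit 0x89888807871a) (nat_lit 0) (p (nat_lit 0x8000080000000090788868a) (nat_lit 0) (p (nat_lit 0x8000080000000088706860a) (nat_lit 0) (p (nat_lit 0x10706878582) (nat_lit 0) (p (nat_lit 0x8686070502) (nat_lit 0) (p (nat_lit 0x10605850482) (nat_lit 0) (p (nat_lit 0x8585048402) (nat_lit 0) (p (nat_lit 0x160004) (nat_lit 0) (p (nat_lit 0x60592) (nat_lit 0) (p (nat_lit 0x48512) (nat_lit 0) (p (nat_lit 0x50392) (nat_lit 0) (p (nat_lit 0x38312) (nat_lit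 0) (p (nat_lit 0x40212) (nat_lit 0) (p (nat_lit 0x28192) (nat_lit 0) (p (nat_lit 0x30092) (nat_lit 0) (p (nat_lit 0x18012) (nat_lit 0) pn))))))))))))))))))))) :=
  Cl.node (nat_lit 0xd1) (nat_lit 2) (by decide +kernel) (ClAll.succ (ClAll.succ ClAll.zero n106) n107)

def n114 : Cl (O (nat_lit 6)) (R (nat_lit 139473))
    (p (nat_lit 0x89) (nat_lit 1) (p (nat_lit 0x41) (nat_lit 0) (p (nat_lit 0x10b0a098a889a) (nat_lit 0) (p (nat_lit 0x8a89890a081a) (nat_lit 0) (p (nat_lit 0x10a090888079a) (nat_lit 0) (p (nat_lit 0x89888807871a) (nat_lit 0) (p (nat_lit 0x8000080000000090788868a) (nat_lit 0) (p (nat_lit 0x8000080000000088706860a) (nat_lit 0) (p (nat_lit 0x10706878582) (nat_lit 0) (p (nat_lit 0x8686070502) (nat_lit 0) (p (nat_lit 0x10605850482) (nat_lit 0) (p (nat_lit 0x8585048402) (nat_lit 0) (p (nat_lit 0x160004) (nat_lit 0) (p (nat_lit 0x60592) (nat_lit 0) (p (nat_lit 0x48512) (nat_lit 0)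 (p (nat_lit 0x50392) (nat_lit 0) (p (nat_lit 0x38312) (nat_lit 0) (p (nat_lit 0x40212) (nat_lit 0) (p (nat_lit 0x28192) (nat_lit 0) (p (nat_lit 0x30092) (nat_lit 0) (p (nat_lit 0x18012) (nat_lit 0) pn))))))))))))))))))))) :=
  Cl.node (nat_lit 0xc9) (nat_lit 2) (by decide +kernel) (ClAll.succ (ClAll.succ ClAll.zero n108) n109)

def n115 : Cl (O (nat_lit 6)) (R (nat_lit 139473))
    (p (nat_lit 0x81) (nat_lit 0) (p (nat_lit 0x41) (nat_lit 1) (p (nat_lit 0x10b0a098a889a) (nat_lit 0) (p (nat_lit 0x8a89890a081a) (nat_lit 0) (p (nat_lit 0x10a090888079a) (nat_lit 0) (p (nat_lit 0x89888807871a) (nat_lit 0) (p (nat_lit 0x8000080000000090788868a) (nat_lit 0) (p (nat_lit 0x8000080000000088706860a) (nat_lit 0) (p (nat_lit 0x10706878582) (nat_lit 0) (p (nat_lit 0x8686070502) (nat_lit 0) (p (nat_lit 0x10605850482) (nat_lit 0) (p (nat_lit 0x8585048402) (nat_lit 0) (p (nat_lit 0x160004) (nat_lit 0) (p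 (nat_lit 0x60592) (nat_lit 0) (p (nat_lit 0x48512) (nat_lit 0) (p (nat_lit 0x50392) (nat_lit 0) (p (nat_lit 0x38312) (nat_lit 0) (p (nat_lit 0x40212) (nat_lit 0) (p (nat_lit 0x28192) (nat_lit 0) (p (nat_lit 0x30092) (nat_lit 0) (p (nat_lit 0x18012) (nat_lit 0) pn))))))))))))))))))))) :=
  Cl.node (nat_lit 0xd1) (nat_lit 2) (by decide +kernel) (ClAll.succ (ClAll.succ ClAll.zero n110) n111)

def n116 : Cl (O (nat_lit 6)) (R (nat_lit 139473))
    (p (nat_lit 0x81) (nat_lit 1) (p (nat_lit 0x41) (nat_lit 1) (p (nat_lit 0x10b0a098a889a) (nat_lit 0) (p (nat_lit 0x8a89890a081a) (nat_lit 0) (p (nat_lit 0x10a090888079a) (nat_lit 0) (p (nat_lit 0x89888807871a) (nat_lit 0) (p (nat_lit 0x8000080000000090788868a) (nat_lit 0) (p (nat_lit 0x8000080000000088706860a) (nat_lit 0) (p (nat_lit 0x10706878582) (nat_lit 0) (p (nat_lit 0x8686070502) (nat_lit 0) (p (nat_lit 0x10605850482) (nat_lit 0) (p (nat_lit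 0x8585048402) (nat_lit 0) (p (nat_lit 0x160004) (nat_lit 0) (p (nat_lit 0x60592) (nat_lit 0) (p (nat_lit 0x48512) (nat_lit 0) (p (nat_lit 0x50392) (nat_lit 0) (p (nat_lit 0x38312) (nat_lit 0) (p (nat_lit 0x40212) (nat_lit 0) (p (nat_lit 0x28192) (nat_lit 0) (p (nat_lit 0x30092) (nat_lit 0) (p (nat_lit 0x18012) (nat_lit 0) pn))))))))))))))))))))) :=
  Cl.node (nat_lit 0xc1) (nat_lit 2) (by decide +kernel) (ClAll.succ (ClAll.succ ClAll.zero n112) s120)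

def n117 : Cl (O (nat_lit 6)) (R (nat_lit 139473))
    (p (nat_lit 0x41) (nat_lit 0) (p (nat_lit 0x10b0a098a889a) (nat_lit 0) (p (nat_lit 0x8a89890a081a) (nat_lit 0) (p (nat_lit 0x10a090888079a) (nat_lit 0) (p (nat_lit 0x89888807871a) (nat_lit 0) (p (nat_lit 0x8000080000000090788868a) (nat_lit 0) (p (nat_lit 0x8000080000000088706860a) (nat_lit 0) (p (nat_lit 0x10706878582) (nat_lit 0) (p (nat_lit 0x8686070502) (nat_lit 0) (p (nat_lit 0x10605850482) (nat_lit 0) (p (nat_lit 0x8585048402) (nat_lit 0) (p (nat_lit 0x160004) (nat_lit 0) (p (nat_lit 0x60592) (nat_lit 0) (p (nat_lit 0x48512) (nat_lit 0) (p (nat_lit 0x50392) (nat_lit 0) (p (nat_lit 0x38312) (nat_lit 0) (p (nat_lit 0x40212) (nat_lit 0) (p (nat_lit 0x28192) (nat_lit 0) (p (nat_lit 0x30092) (nat_lit 0) (p (nat_lit 0x18012) (nat_lit 0) pn)))))))))))))))))))) :=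
  Cl.node (nat_lit 0x89) (nat_lit 2) (by decide +kernel) (ClAll.succ (ClAll.succ ClAll.zero n113) n114)

def n118 : Cl (O (nat_lit 6)) (R (nat_lit 139473))
    (p (nat_lit 0x41) (nat_lit 1) (p (nat_lit 0x10b0a098a889a) (nat_lit 0) (p (nat_lit 0x8a89890a081a) (nat_lit 0) (p (nat_lit 0x10a090888079a) (nat_lit 0) (p (nat_lit 0x89888807871a) (nat_lit 0) (p (nat_lit 0x8000080000000090788868a) (nat_lit 0) (p (nat_lit 0x8000080000000088706860a) (nat_lit 0) (p (nat_lit 0x10706878582) (nat_lit 0) (p (nat_lit 0x8686070502) (nat_lit 0) (p (nat_lit 0x10605850482) (nat_lit 0) (p (nat_lit 0x8585048402) (nat_lit 0) (p (nat_lit 0x160004) (nat_lit 0) (p (nat_lit 0x60592) (nat_lit 0) (p (nat_lit 0x48512) (nat_lit 0) (p (nat_lit 0x50392) (nat_lit 0) (p (nat_lit 0x38312) (nat_lit 0) (p (nat_lit 0x40212) (nat_lit 0) (p (nat_lit 0x28192) (nat_lit 0) (p (nat_lit 0x30092) (nat_lit 0) (p (nat_lit 0x18012) (nat_lit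 0) pn)))))))))))))))))))) :=
  Cl.node (nat_lit 0x81) (nat_lit 2) (by decide +kernel) (ClAll.succ (ClAll.succ ClAll.zero n115) n116)

def n119 : Cl (O (nat_lit 6)) (R (nat_lit 139473))
    (p (nat_lit 0x10b0a098a889a) (nat_lit 0) (p (nat_lit 0x8a89890a081a) (nat_lit 0) (p (nat_lit 0x10a090888079a) (nat_lit 0) (p (nat_lit 0x89888807871a) (nat_lit 0) (p (nat_lit 0x8000080000000090788868a) (nat_lit 0) (p (nat_lit 0x8000080000000088706860a) (nat_lit 0) (p (nat_lit 0x10706878582) (nat_lit 0) (p (nat_lit 0x8686070502) (nat_lit 0) (p (nat_lit 0x10605850482) (nat_lit 0) (p (nat_lit 0x8585048402) (nat_lit 0) (p (nat_lit 0x160004) (nat_lit 0) (p (nat_lit 0x60592) (nat_lit 0) (p (nat_lit 0x48512) (nat_lit 0) (p (nat_lit 0x50392) (nat_lit 0) (p (nat_lit 0x38312) (nat_lit 0) (p (nat_lit 0x40212) (nat_lit 0) (p (nat_lit 0x28192) (nat_lit 0) (p (nat_lit 0x30092) (nat_lit 0) (p (nat_lit 0x18012) (nat_lit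 0) pn))))))))))))))))))) :=
  Cl.node (nat_lit 0x41) (nat_lit 2) (by decide +kernel) (ClAll.succ (ClAll.succ ClAll.zero n117) n118)

def n120 : Cl (O (nat_lit 6)) (R (nat_lit 139473))
    (p (nat_lit 0x8a89890a081a) (nat_lit 0) (p (nat_lit 0x10a090888079a) (nat_lit 0) (p (nat_lit 0x89888807871a) (nat_lit 0) (p (nat_lit 0x8000080000000090788868a) (nat_lit 0) (p (nat_lit 0x8000080000000088706860a) (nat_lit 0) (p (nat_lit 0x10706878582) (nat_lit 0) (p (nat_lit 0x8686070502) (nat_lit 0) (p (nat_lit 0x10605850482) (nat_lit 0) (p (nat_lit 0x8585048402) (nat_lit 0) (p (nat_lit 0x160004) (nat_lit 0) (p (nat_lit 0x60592) (nat_lit 0) (p (nat_lit 0x48512) (nat_lit 0) (p (nat_lit 0x50392) (nat_lit 0) (p (nat_lit 0x38312) (nat_lit 0) (p (nat_lit 0x40212) (nat_lit 0) (p (nat_lit 0x28192) (nat_lit 0) (p (nat_lit 0x30092) (nat_lit 0) (p (nat_lit 0x18012) (nat_lit 0) pn)))))))))))))))))) :=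
  Cl.node (nat_lit 0x10b0a098a889a) (nat_lit 1) (by decide +kernel) (ClAll.succ ClAll.zero n119)

def n121 : Cl (O (nat_lit 6)) (R (nat_lit 139473))
    (p (nat_lit 0x10a090888079a) (nat_lit 0) (p (nat_lit 0x89888807871a) (nat_lit 0) (p (nat_lit 0x8000080000000090788868a) (nat_lit 0) (p (nat_lit 0x8000080000000088706860a) (nat_lit 0) (p (nat_lit 0x10706878582) (nat_lit 0) (p (nat_lit 0x8686070502) (nat_lit 0) (p (nat_lit 0x10605850482) (nat_lit 0) (p (nat_lit 0x8585048402) (nat_lit 0) (p (nat_lit 0x160004) (nat_lit 0) (p (nat_lit 0x60592) (nat_lit 0) (p (nat_lit 0x48512) (nat_lit 0) (p (nat_lit 0x50392) (nat_lit 0) (p (nat_lit 0x38312) (nat_lit 0) (p (nat_lit 0x40212) (nat_lit 0) (p (nat_lit 0x28192) (nat_lit 0) (p (nat_lit 0x30092) (nat_lit 0) (p (nat_lit 0x18012) (nat_lit 0) pn))))))))))))))))) :=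
  Cl.node (nat_lit 0x8a89890a081a) (nat_lit 1) (by decide +kernel) (ClAll.succ ClAll.zero n120)

def n122 : Cl (O (nat_lit 6)) (R (nat_lit 139473))
    (p (nat_lit 0x89888807871a) (nat_lit 0) (p (nat_lit 0x8000080000000090788868a) (nat_lit 0) (p (nat_lit 0x8000080000000088706860a) (nat_lit 0) (p (nat_lit 0x10706878582) (nat_lit 0) (p (nat_lit 0x8686070502) (nat_lit 0) (p (nat_lit 0x10605850482) (nat_lit 0) (p (nat_lit 0x8585048402) (nat_lit 0) (p (nat_lit 0x160004) (nat_lit 0) (p (nat_lit 0x60592) (nat_lit 0) (p (nat_lit 0x48512) (nat_lit 0) (p (nat_lit 0x50392) (nat_lit 0) (p (nat_lit 0x38312) (nat_lit 0) (p (nat_lit 0x40212) (nat_lit 0) (p (nat_lit 0x28192) (nat_lit 0) (p (nat_lit 0x30092) (nat_lit 0) (p (nat_lit 0x18012) (nat_lit 0) pn)))))))))))))))) :=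
  Cl.node (nat_lit 0x10a090888079a) (nat_lit 1) (by decide +kernel) (ClAll.succ ClAll.zero n121)

def n123 : Cl (O (nat_lit 6)) (R (nat_lit 139473))
    (p (nat_lit 0x8000080000000090788868a) (nat_lit 0) (p (nat_lit 0x8000080000000088706860a) (nat_lit 0) (p (nat_lit 0x10706878582) (nat_lit 0) (p (nat_lit 0x8686070502) (nat_lit 0) (p (nat_lit 0x10605850482) (nat_lit 0) (p (nat_lit 0x8585048402) (nat_lit 0) (p (nat_lit 0x160004) (nat_lit 0) (p (nat_lit 0x60592) (nat_lit 0) (p (nat_lit 0x48512) (nat_lit 0) (p (nat_lit 0x50392) (nat_lit 0) (p (nat_lit 0x38312) (nat_lit 0) (p (nat_lit 0x40212) (nat_lit 0) (p (nat_lit 0x28192) (nat_lit 0) (p (nat_lit 0x30092) (nat_lit 0) (p (nat_lit 0x18012) (nat_lit 0) pn))))))))))))))) :=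
  Cl.node (nat_lit 0x89888807871a) (nat_lit 1) (by decide +kernel) (ClAll.succ ClAll.zero n122)

def n124 : Cl (O (nat_lit 6)) (R (nat_lit 139473))
    (p (nat_lit 0x8000080000000088706860a) (nat_lit 0) (p (nat_lit 0x10706878582) (nat_lit 0) (p (nat_lit 0x8686070502) (nat_lit 0) (p (nat_lit 0x10605850482) (nat_lit 0) (p (nat_lit 0x8585048402) (nat_lit 0) (p (nat_lit 0x160004) (nat_lit 0) (p (nat_lit 0x60592) (nat_lit 0) (p (nat_lit 0x48512) (nat_lit 0) (p (nat_lit 0x50392) (nat_lit 0) (p (nat_lit 0x38312) (nat_lit 0) (p (nat_lit 0x40212) (nat_lit 0) (p (nat_lit 0x28192) (nat_lit 0) (p (nat_lit 0x30092) (nat_lit 0) (p (nat_lit 0x18012) (nat_lit 0) pn)))))))))))))) :=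
  Cl.node (nat_lit 0x8000080000000090788868a) (nat_lit 1) (by decide +kernel) (ClAll.succ ClAll.zero n123)

def n125 : Cl (O (nat_lit 6)) (R (nat_lit 139473))
    (p (nat_lit 0x10706878582) (nat_lit 0) (p (nat_lit 0x8686070502) (nat_lit 0) (p (nat_lit 0x10605850482) (nat_lit 0) (p (nat_lit 0x8585048402) (nat_lit 0) (p (nat_lit 0x160004) (nat_lit 0) (p (nat_lit 0x60592) (nat_lit 0) (p (nat_lit 0x48512) (nat_lit 0) (p (nat_lit 0x50392) (nat_lit 0) (p (nat_lit 0x38312) (nat_lit 0) (p (nat_lit 0x40212) (nat_lit 0) (p (nat_lit 0x28192) (nat_lit 0) (p (nat_lit 0x30092) (nat_lit 0) (p (nat_lit 0x18012) (nat_lit 0) pn))))))))))))) :=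
  Cl.node (nat_lit 0x8000080000000088706860a) (nat_lit 1) (by decide +kernel) (ClAll.succ ClAll.zero n124)

def n126 : Cl (O (nat_lit 6)) (R (nat_lit 139473))
    (p (nat_lit 0x8686070502) (nat_lit 0) (p (nat_lit 0x10605850482) (nat_lit 0) (p (nat_lit 0x8585048402) (nat_lit 0) (p (nat_lit 0x160004) (nat_lit 0) (p (nat_lit 0x60592) (nat_lit 0) (p (nat_lit 0x48512) (nat_lit 0) (p (nat_lit 0x50392) (nat_lit 0) (p (nat_lit 0x38312) (nat_lit 0) (p (nat_lit 0x40212) (nat_lit 0) (p (nat_lit 0x28192) (nat_lit 0) (p (nat_lit 0x30092) (nat_lit 0) (p (nat_lit 0x18012) (nat_lit 0) pn)))))))))))) :=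
  Cl.node (nat_lit 0x10706878582) (nat_lit 1) (by decide +kernel) (ClAll.succ ClAll.zero n125)

def n127 : Cl (O (nat_lit 6)) (R (nat_lit 139473))
    (p (nat_lit 0x10605850482) (nat_lit 0) (p (nat_lit 0x8585048402) (nat_lit 0) (p (nat_lit 0x160004) (nat_lit 0) (p (nat_lit 0x60592) (nat_lit 0) (p (nat_lit 0x48512) (nat_lit 0) (p (nat_lit 0x50392) (nat_lit 0) (p (nat_lit 0x38312) (nat_lit 0) (p (nat_lit 0x40212) (nat_lit 0) (p (nat_lit 0x28192) (nat_lit 0) (p (nat_lit 0x30092) (nat_lit 0) (p (nat_lit 0x18012) (nat_lit 0) pn))))))))))) :=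
  Cl.node (nat_lit 0x8686070502) (nat_lit 1) (by decide +kernel) (ClAll.succ ClAll.zero n126)

def n128 : Cl (O (nat_lit 6)) (R (nat_lit 139473))
    (p (nat_lit 0x8585048402) (nat_lit 0) (p (nat_lit 0x160004) (nat_lit 0) (p (nat_lit 0x60592) (nat_lit 0) (p (nat_lit 0x48512) (nat_lit 0) (p (nat_lit 0x50392) (nat_lit 0) (p (nat_lit 0x38312) (nat_lit 0) (p (nat_lit 0x40212) (nat_lit 0) (p (nat_lit 0x28192) (nat_lit 0) (p (nat_lit 0x30092) (nat_lit 0) (p (nat_lit 0x18012) (nat_lit 0) pn)))))))))) :=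
  Cl.node (nat_lit 0x10605850482) (nat_lit 1) (by decide +kernel) (ClAll.succ ClAll.zero n127)

def n129 : Cl (O (nat_lit 6)) (R (nat_lit 139473))
    (p (nat_lit 0x160004) (nat_lit 0) (p (nat_lit 0x60592) (nat_lit 0) (p (nat_lit 0x48512) (nat_lit 0) (p (nat_lit 0x50392) (nat_lit 0) (p (nat_lit 0x38312) (nat_lit 0) (p (nat_lit 0x40212) (nat_lit 0) (p (nat_lit 0x28192) (nat_lit 0) (p (nat_lit 0x30092) (nat_lit 0) (p (nat_lit 0x18012) (nat_lit 0) pn))))))))) :=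
  Cl.node (nat_lit 0x8585048402) (nat_lit 1) (by decide +kernel) (ClAll.succ ClAll.zero n128)

def n130 : Cl (O (nat_lit 6)) (R (nat_lit 139473))
    (p (nat_lit 0x60592) (nat_lit 0) (p (nat_lit 0x48512) (nat_lit 0) (p (nat_lit 0x50392) (nat_lit 0) (p (nat_lit 0x38312) (nat_lit 0) (p (nat_lit 0x40212) (nat_lit 0) (p (nat_lit 0x28192) (nat_lit 0) (p (nat_lit 0x30092) (nat_lit 0) (p (nat_lit 0x18012) (nat_lit 0) pn)))))))) :=
  Cl.node (nat_lit 0x160004) (nat_lit 2) (by decide +kernel) (ClAll.succ (ClAll.succ ClAll.zero n129) s121)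

def n131 : Cl (O (nat_lit 6)) (R (nat_lit 139473))
    (p (nat_lit 0x48512) (nat_lit 0) (p (nat_lit 0x50392) (nat_lit 0) (p (nat_lit 0x38312) (nat_lit 0) (p (nat_lit 0x40212) (nat_lit 0) (p (nat_lit 0x28192) (nat_lit 0) (p (nat_lit 0x30092) (nat_lit 0) (p (nat_lit 0x18012) (nat_lit 0) pn))))))) :=
  Cl.node (nat_lit 0x60592) (nat_lit 1) (by decide +kernel) (ClAll.succ ClAll.zero n130)

def n132 : Cl (O (nat_lit 6)) (R (nat_lit 139473))
    (p (nat_lit 0x50392) (nat_lit 0) (p (nat_lit 0x38312) (nat_lit 0) (p (nat_lit 0x40212) (nat_lit 0) (p (nat_lit 0x28192) (nat_lit 0) (p (nat_lit 0x30092) (nat_lit 0) (p (nat_lit 0x18012) (nat_lit 0) pn)))))) :=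
  Cl.node (nat_lit 0x48512) (nat_lit 1) (by decide +kernel) (ClAll.succ ClAll.zero n131)

def n133 : Cl (O (nat_lit 6)) (R (nat_lit 139473))
    (p (nat_lit 0x38312) (nat_lit 0) (p (nat_lit 0x40212) (nat_lit 0) (p (nat_lit 0x28192) (nat_lit 0) (p (nat_lit 0x30092) (nat_lit 0) (p (nat_lit 0x18012) (nat_lit 0) pn))))) :=
  Cl.node (nat_lit 0x50392) (nat_lit 1) (by decide +kernel) (ClAll.succ ClAll.zero n132)

def n134 : Cl (O (nat_lit 6)) (R (nat_lit 139473))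
    (p (nat_lit 0x40212) (nat_lit 0) (p (nat_lit 0x28192) (nat_lit 0) (p (nat_lit 0x30092) (nat_lit 0) (p (nat_lit 0x18012) (nat_lit 0) pn)))) :=
  Cl.node (nat_lit 0x38312) (nat_lit 1) (by decide +kernel) (ClAll.succ ClAll.zero n133)

def n135 : Cl (O (nat_lit 6)) (R (nat_lit 139473))
    (p (nat_lit 0x28192) (nat_lit 0) (p (nat_lit 0x30092) (nat_lit 0) (p (nat_lit 0x18012) (nat_lit 0) pn))) :=
  Cl.node (nat_lit 0x40212) (nat_lit 1) (by decide +kernel) (ClAll.succ ClAll.zero n134)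

def n136 : Cl (O (nat_lit 6)) (R (nat_lit 139473))
    (p (nat_lit 0x30092) (nat_lit 0) (p (nat_lit 0x18012) (nat_lit 0) pn)) :=
  Cl.node (nat_lit 0x28192) (nat_lit 1) (by decide +kernel) (ClAll.succ ClAll.zero n135)

def n137 : Cl (O (nat_lit 6)) (R (nat_lit 139473))
    (p (nat_lit 0x18012) (nat_lit 0) pn) :=
  Cl.node (nat_lit 0x30092) (nat_lit 1) (by decide +kernel) (ClAll.succ ClAll.zero n136)

def n138 : Cl (O (nat_lit 6)) (R (nat_lit 139473))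
    pn :=
  Cl.node (nat_lit 0x18012) (nat_lit 1) (by decide +kernel) (ClAll.succ ClAll.zero n137)

theorem top : Cl (O (nat_lit 6)) (R (nat_lit 139473)) pn := n138

end Pool.Agent.Gen.F5.X123C2Dm6
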